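import Pool.Agent.TH84.HC.Main

/-!
# Consequences of the explicit bound
-/

set_option autoImplicit false

open MeasureTheory ProbabilityTheory Filter Topology
open scoped RealInnerProductSpace ENNReal

namespace Pool.Agent.TH84.HC

open Pool.Agent.PZ871 (E gm)

theorem log_le_sqrt' {t : ℝ} (ht : 0 < t) : Real.log t ≤ 3/4 * Real.sqrt t := by
  set s : ℝ := Real.sqrt t with hs
  have hs0 : 0 < s := Real.sqrt_pos.2 ht
  have h1 : t = s * s := (Real.mul_self_sqrt ht.le).symm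
  have h2 : Real.log t = 2 * Real.log s := by
    rw [h1, Real.log_mul hs0.ne' hs0.ne']
    ring
  have h3 : Real.log (s / Real.exp 1) ≤ s / Real.exp 1 - 1 :=
    Real.log_le_sub_one_of_pos (div_pos hs0 (Real.exp_pos 1))
  have h4 : Real.log (s / Real.exp 1) = Real.log s - 1 := by
    rw [Real.log_div hs0.ne' (Real.exp_pos 1).ne', Real.log_exp]
  have h5 : s / Real.exp 1 ≤ 3/8 * s := by
    rw [div_le_iff₀ (Real.exp_pos 1)]
    have := Real.exp_one_gt_d9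
    nlinarith
  rw [h2]
  linarith

/-- small dimensions are excluded -/
theorem dim_large {d : ℕ} (hd : 2 ≤ d) (h : 1 ≤ (d : ℝ) - 4 * Real.pi * Real.log d) : 33 ≤ d := by
  by_contra hc
  push Not at hc
  have hd0 : (2:ℝ) ≤ d := by exact_mod_cast hd
  have hpi := Real.pi_gt_d2
  have hl2 : 0.6931471803 < Real.log 2 := Real.log_two_gt_d9
  have hpos : 0 < Real.log d := Real.log_pos (by linarith)
  have hkey : 4 * 3.14 * Real.log d ≤ 4 * Real.pi * Real.log d := by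
    apply mul_le_mul_of_nonneg_right _ hpos.le
    linarith
  rcases le_or_gt d 12 with h1 | h1
  · have h2 : 1 - (d:ℝ)⁻¹ ≤ Real.log d := Real.one_sub_inv_le_log_of_pos (by linarith)
    have h3 : (d:ℝ) ≤ 12 := by exact_mod_cast h1
    have h4 : (d:ℝ) * (d:ℝ)⁻¹ = 1 := mul_inv_cancel₀ (by linarith)
    have h5 : 0 < (d:ℝ)⁻¹ := by positivity
    nlinarith [mul_le_mul_of_nonneg_left h3 h5.le]
  · rcases le_or_gt d 26 with h2 | h2
    · have h3 : Real.log 8 ≤ Real.log d := by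
        apply Real.log_le_log (by norm_num)
        have : (13:ℝ) ≤ d := by exact_mod_cast h1
        linarith
      have h4 : Real.log 8 = 3 * Real.log 2 := by
        rw [show (8:ℝ) = 2 ^ 3 by norm_num, Real.log_pow]; norm_num
      have h5 : (d:ℝ) ≤ 26 := by exact_mod_cast h2
      linarith
    · have h3 : Real.log 16 ≤ Real.log d := by
        apply Real.log_le_log (by norm_num)
        have : (27:ℝ) ≤ d := by exact_mod_cast h2
        linarith
      have h4 : Real.log 16 = 4 * Real.log 2 := by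
        rw [show (16:ℝ) = 2 ^ 4 by norm_num, Real.log_pow]; norm_num
      have h5 : (d:ℝ) ≤ 32 := by exact_mod_cast (by omega : d ≤ 32)
      linarith

/-- the numerical part of the simple case -/
theorem bnd_simple {d : ℕ} (hd : 2 ≤ d) {R : ℝ} (hR : 1 ≤ R)
    (h : R ^ 2 ≤ (d : ℝ) - 4 * Real.pi * Real.log d) :
    (1 - 33 / (d:ℝ)) * 2 ^ d + bnd d d R < 2 ^ d := by
  have hR2 : 1 ≤ R ^ 2 := by nlinarith
  have h33 := dim_large hd (hR2.trans h)
  have hd33 : (33:ℝ) ≤ d := by exact_mod_cast h33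
  have hd0 : (0:ℝ) < d := by linarith
  have hlog0 : 0 < Real.log d := Real.log_pos (by linarith)
  have hRd : R ^ 2 ≤ d := by
    have : 0 < 4 * Real.pi * Real.log d := by positivity
    linarith
  have h1 : Real.exp ((R ^ 2 - d) / Real.pi) ≤ ((d:ℝ) ^ 4)⁻¹ := by
    have h2 : (R ^ 2 - d) / Real.pi ≤ -(4 * Real.log d) := by
      rw [div_le_iff₀ Real.pi_pos]
      nlinarith [Real.pi_pos]
    refine (Real.exp_le_exp.2 h2).trans ?_
    rw [Real.exp_neg]
    have : Real.exp (4 * Real.log d) = (d:ℝ) ^ 4 := by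
      rw [mul_comm, Real.exp_mul, Real.exp_log hd0]
      norm_cast
    rw [this]
  have h2 : Real.log (8 * R ^ 2 * (d + d + R ^ 2 + 4)) ≤ 4 * d := by
    refine (log_le_sqrt' (by positivity)).trans ?_
    have h4 : Real.sqrt (8 * R ^ 2 * (d + d + R ^ 2 + 4)) ≤ 5 * d := by
      rw [show (5:ℝ) * d = Real.sqrt ((5 * d) ^ 2) from (Real.sqrt_sq (by positivity)).symm]
      apply Real.sqrt_le_sqrt
      have h3 : 8 * R ^ 2 * (d + d + R ^ 2 + 4) ≤ 8 * d * (d + d + d + 4) := by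
        apply mul_le_mul _ _ (by positivity) (by positivity)
        · linarith
        · linarith
      nlinarith
    linarith
  have hlog : 0 ≤ Real.log (8 * R ^ 2 * (d + d + R ^ 2 + 4)) := by
    apply Real.log_nonneg
    nlinarith
  have h4 : bnd d d R ≤ 1 + 32 / d * 2 ^ d := by
    unfold bnd
    have h5 : 8 * (d:ℝ) * d * 2 ^ d * Real.exp ((R ^ 2 - d) / Real.pi) *
        Real.log (8 * R ^ 2 * (d + d + R ^ 2 + 4)) ≤
        8 * (d:ℝ) * d * 2 ^ d * ((d:ℝ) ^ 4)⁻¹ * (4 * d) := by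
      apply mul_le_mul _ h2 hlog (by positivity)
      exact mul_le_mul_of_nonneg_left h1 (by positivity)
    have h6 : 8 * (d:ℝ) * d * 2 ^ d * ((d:ℝ) ^ 4)⁻¹ * (4 * d) = 32 / d * 2 ^ d := by
      field_simp
      norm_num
    linarith
  have h7 : (1:ℝ) < 1 / d * 2 ^ d := by
    have h8 : (d:ℝ) < 2 ^ d := by exact_mod_cast Nat.lt_two_pow_self
    rw [one_div, inv_mul_eq_div, lt_div_iff₀ hd0]
    linarith
  have h8 : (1 - 33 / (d:ℝ)) * 2 ^ d + (1 + 32 / d * 2 ^ d) = 2 ^ d + 1 - 1 / d * 2 ^ d := by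
    ring
  linarith

/-- **simple case** -/
theorem simple_case (d : ℕ) (hd : 2 ≤ d) (K : Set (E d)) (A : E d ≃L[ℝ] E d) (R : ℝ)
    (hK : IsBody K) (hR1 : 1 ≤ R)
    (hR : R ^ 2 ≤ (d : ℝ) - 4 * Real.pi * Real.log d) (F : Finset (E d))
    (hFc : (F.card : ℝ) ≤ (1 - 33 / (d:ℝ)) * 2 ^ d)
    (hF : ∀ x ∈ Set.extremePoints ℝ K, x ∉ F → Seen A d R K x) :
    ∃ T : Finset (E d), T.card < 2 ^ d ∧ K ⊆ ⋃ t ∈ T, (fun x => t + x) '' interior K := by
  obtain ⟨T, hT, hcov⟩ := explicit_F d d (by omega) R hR1 K A hK F hF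
  refine ⟨T, ?_, hcov⟩
  have h1 := bnd_simple hd hR1 hR
  have : (T.card : ℝ) < 2 ^ d := by linarith
  exact_mod_cast this

/-- the polynomial factor is beaten -/
theorem poly_small (κ : ℝ) (hκ : 0 < κ) :
    ∀ᶠ d : ℕ in atTop, 512 * (d:ℝ) ^ 4 * Real.exp (-(κ * d)) ≤ 1/2 := by
  have h1 := Real.tendsto_pow_mul_exp_neg_atTop_nhds_zero 4
  have h2 : Tendsto (fun d : ℕ => κ * (d:ℝ)) atTop atTop :=
    tendsto_natCast_atTop_atTop.const_mul_atTop hκ
  have h3 := (h1.comp h2).const_mul (512 / κ ^ 4)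
  rw [mul_zero] at h3
  have h4 := h3.eventually (ge_mem_nhds (show (0:ℝ) < 1/2 by norm_num))
  filter_upwards [h4] with d hd
  simp only [Function.comp_apply] at hd
  have e : 512 / κ ^ 4 * ((κ * d) ^ 4 * Real.exp (-(κ * d))) =
      512 * (d:ℝ) ^ 4 * Real.exp (-(κ * d)) := by
    field_simp
  rw [← e]
  exact hd

/-- **asymptotic form** -/
theorem asymp (ε : ℝ) (h0 : 0 < ε) (h1 : ε < 1) : ∃ d₀ : ℕ, ∀ d : ℕ, d₀ ≤ d → ∀ m : ℕ, 1 ≤ m →
    (m : ℝ) ≤ (1 + ε / 2) * d → ∀ (K : Set (E d)) (A : E d ≃L[ℝ] E d), IsBody K →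
    ∀ F : Finset (E d),
    (∀ x ∈ Set.extremePoints ℝ K, x ∉ F → Seen A m (Real.sqrt ((1 - ε) * d)) K x) →
    ∃ T : Finset (E d), (T.card : ℝ) ≤ F.card + (2 * Real.exp (-(ε / 8))) ^ d ∧
      K ⊆ ⋃ t ∈ T, (fun x => t + x) '' interior K := by
  have hbase : 1 < 2 * Real.exp (-(ε / 8)) := by
    have h2 := Real.add_one_le_exp (-(ε / 8))
    linarith
  have e1 := poly_small (0.005 * ε) (by positivity)
  have e2 : ∀ᶠ d : ℕ in atTop, 2 ≤ (2 * Real.exp (-(ε / 8))) ^ d :=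
    (tendsto_pow_atTop_atTop_of_one_lt hbase).eventually_ge_atTop 2
  have e3 : ∀ᶠ d : ℕ in atTop, 1 ≤ d := eventually_ge_atTop 1
  have e4 : ∀ᶠ d : ℕ in atTop, 1 ≤ (1 - ε) * (d:ℝ) :=
    (tendsto_natCast_atTop_atTop.const_mul_atTop (by linarith)).eventually_ge_atTop 1
  obtain ⟨d₀, hd₀⟩ := eventually_atTop.1 (e1.and (e2.and (e3.and e4)))
  refine ⟨d₀, fun d hd m hm hmd K A hK F hF => ?_⟩
  obtain ⟨a1, a2, a3, hR3⟩ := hd₀ d hd
  have hR2 : Real.sqrt ((1 - ε) * d) ^ 2 = (1 - ε) * d := Real.sq_sqrt (by linarith)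
  have hR1 : 1 ≤ Real.sqrt ((1 - ε) * d) := Real.one_le_sqrt.2 hR3
  obtain ⟨T, hT, hcov⟩ := explicit_F d m a3 _ hR1 K A hK F hF
  refine ⟨T, hT.trans (add_le_add le_rfl ?_), hcov⟩
  unfold bnd
  have hd1 : (1:ℝ) ≤ d := by exact_mod_cast a3
  have hm1 : (1:ℝ) ≤ m := by exact_mod_cast hm
  rw [hR2]
  have hR4 : (1 - ε) * d ≤ d := by nlinarith
  have hm2 : (m:ℝ) ≤ 2 * d := hmd.trans (by nlinarith)
  -- the exponential factor
  have hl2 : 0.6931471803 < Real.log 2 := Real.log_two_gt_d9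
  have hl2' : Real.log 2 < 0.6931471808 := Real.log_two_lt_d9
  have hpi := Real.pi_lt_d4
  have hpi2 := Real.pi_gt_d2
  have hinv1 : 0.31830 ≤ 1 / Real.pi := by
    rw [le_div_iff₀ Real.pi_pos]
    linarith
  have hinv2 : 1 / Real.pi ≤ 0.3185 := by
    rw [div_le_iff₀ Real.pi_pos]
    linarith
  have h2 : (2:ℝ) ^ m * Real.exp (((1 - ε) * d - m) / Real.pi) ≤
      2 ^ d * Real.exp (-(0.13 * ε * d)) := by
    have f1 : ∀ k : ℕ, (2:ℝ) ^ k = Real.exp (k * Real.log 2) := by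
      intro k
      rw [mul_comm, Real.exp_mul, Real.exp_log (by norm_num), Real.rpow_natCast]
    rw [f1 m, f1 d, ← Real.exp_add, ← Real.exp_add]
    apply Real.exp_le_exp.2
    set i : ℝ := 1 / Real.pi with hi
    have g1 : ((1 - ε) * d - m) / Real.pi = ((1 - ε) * d - m) * i := by rw [hi]; ring
    rw [g1]
    have g2 : (m:ℝ) * (Real.log 2 - i) ≤ (1 + ε / 2) * d * (Real.log 2 - i) :=
      mul_le_mul_of_nonneg_right hmd (by linarith)
    have g3 : (1 + ε / 2) * d * (Real.log 2 - i) + (1 - ε) * d * i =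
        d * Real.log 2 - ε * d * (3 / 2 * i - Real.log 2 / 2) := by ring
    have g4 : (0.13:ℝ) ≤ 3 / 2 * i - Real.log 2 / 2 := by linarith
    have g5 : ε * d * 0.13 ≤ ε * d * (3 / 2 * i - Real.log 2 / 2) :=
      mul_le_mul_of_nonneg_left g4 (by positivity)
    nlinarith
  have h3 : Real.log (8 * ((1 - ε) * d) * (d + m + (1 - ε) * d + 4)) ≤ 32 * (d:ℝ) ^ 2 := by
    have g0 : 0 < 8 * ((1 - ε) * d) * (d + m + (1 - ε) * d + 4) := by
      have : 0 < (1 - ε) * d := by linarith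
      positivity
    have g1 := log_le_sqrt' g0
    have g2 : 8 * ((1 - ε) * d) * (d + m + (1 - ε) * d + 4) ≤ 8 * d * (d + 2 * d + d + 4) := by
      apply mul_le_mul _ _ (by nlinarith) (by positivity)
      · linarith
      · linarith
    have g3 : Real.sqrt (8 * ((1 - ε) * d) * (d + m + (1 - ε) * d + 4)) ≤ 8 * (d:ℝ) ^ 2 := by
      rw [show (8:ℝ) * (d:ℝ) ^ 2 = Real.sqrt ((8 * (d:ℝ) ^ 2) ^ 2) from
        (Real.sqrt_sq (by positivity)).symm]
      apply Real.sqrt_le_sqrt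
      nlinarith [mul_pos (show (0:ℝ) < d by linarith) (show (0:ℝ) < d by linarith),
        mul_le_mul hd1 hd1 (by norm_num) (by linarith : (0:ℝ) ≤ d)]
    nlinarith [sq_nonneg (d:ℝ)]
  have h3' : 0 ≤ Real.log (8 * ((1 - ε) * d) * (d + m + (1 - ε) * d + 4)) := by
    apply Real.log_nonneg
    nlinarith
  have h4 : 8 * (m:ℝ) * d * 2 ^ m * Real.exp (((1 - ε) * d - m) / Real.pi) *
      Real.log (8 * ((1 - ε) * d) * (d + m + (1 - ε) * d + 4)) ≤
      512 * (d:ℝ) ^ 4 * (2 ^ d * Real.exp (-(0.13 * ε * d))) := by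
    calc 8 * (m:ℝ) * d * 2 ^ m * Real.exp (((1 - ε) * d - m) / Real.pi) *
          Real.log (8 * ((1 - ε) * d) * (d + m + (1 - ε) * d + 4))
        = (8 * (m:ℝ) * d) * (2 ^ m * Real.exp (((1 - ε) * d - m) / Real.pi)) *
          Real.log (8 * ((1 - ε) * d) * (d + m + (1 - ε) * d + 4)) := by ring
      _ ≤ (8 * (2 * d) * d) * (2 ^ d * Real.exp (-(0.13 * ε * d))) * (32 * (d:ℝ) ^ 2) := by
          apply mul_le_mul _ h3 h3' (by positivity)
          apply mul_le_mul _ h2 (by positivity) (by positivity)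
          nlinarith
      _ = _ := by ring
  have h5 : Real.exp (-(0.13 * ε * d)) = Real.exp (-(0.005 * ε * d)) * Real.exp (-(ε / 8)) ^ d := by
    rw [← Real.exp_nat_mul, ← Real.exp_add]
    congr 1
    ring
  rw [h5] at h4
  have h6 : 512 * (d:ℝ) ^ 4 * (2 ^ d * (Real.exp (-(0.005 * ε * d)) * Real.exp (-(ε / 8)) ^ d)) =
      (512 * (d:ℝ) ^ 4 * Real.exp (-(0.005 * ε * d))) * (2 * Real.exp (-(ε / 8))) ^ d := by
    rw [mul_pow]
    ring
  rw [h6] at h4
  have h7 : (512 * (d:ℝ) ^ 4 * Real.exp (-(0.005 * ε * d))) * (2 * Real.exp (-(ε / 8))) ^ d ≤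
      1/2 * (2 * Real.exp (-(ε / 8))) ^ d :=
    mul_le_mul_of_nonneg_right a1 (by positivity)
  linarith

/-- Chebyshev for the Gaussian distribution function -/
theorem Ph_ge {u : ℝ} (hu : 0 < u) : 1 - 1 / u ^ 2 ≤ Ph u := by
  have h1 : u ^ 2 * g1.real {x : ℝ | u ^ 2 ≤ x ^ 2} ≤ ∫ x, x ^ 2 ∂g1 :=
    mul_meas_ge_le_integral_of_nonneg (Filter.Eventually.of_forall fun a : ℝ => sq_nonneg a)
      sq_int (u ^ 2)
  have h2 : ∫ x, x ^ 2 ∂g1 = 1 := by
    have h := half_sq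
    rw [even_half (fun x => x ^ 2) sq_int (fun x => by ring)] at h
    linarith
  rw [h2] at h1
  have h3 : g1.real (Set.Iio u)ᶜ ≤ g1.real {x : ℝ | u ^ 2 ≤ x ^ 2} := by
    apply measureReal_mono _ (measure_ne_top _ _)
    intro x hx
    have hx' : u ≤ x := not_lt.1 hx
    exact pow_le_pow_left₀ hu.le hx' 2
  have h4 : g1.real (Set.Iio u)ᶜ = 1 - Ph u := by
    rw [measureReal_compl measurableSet_Iio, probReal_univ]
    rfl
  have h5 : g1.real {x : ℝ | u ^ 2 ≤ x ^ 2} ≤ 1 / u ^ 2 := by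
    rw [le_div_iff₀ (by positivity)]
    linarith
  linarith

/-- **corners of order at most `C d`** -/
theorem asympC (C : ℝ) (hC : 0 < C) : ∃ ρ : ℝ, 0 < ρ ∧ ∃ d₀ : ℕ, ∀ d : ℕ, d₀ ≤ d → ∀ m : ℕ,
    (m : ℝ) ≤ C * d → ∀ (K : Set (E d)) (A : E d ≃L[ℝ] E d), IsBody K → ∀ F : Finset (E d),
    (∀ x ∈ Set.extremePoints ℝ K, x ∉ F → Seen A m (Real.sqrt (ρ * d)) K x) →
    ∃ T : Finset (E d), (T.card : ℝ) ≤ F.card + (3 / 2) ^ d ∧
      K ⊆ ⋃ t ∈ T, (fun x => t + x) '' interior K := by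
  set u : ℝ := Real.sqrt (20 * C) + 2 with hu
  have hu2 : 2 ≤ u := by rw [hu]; have := Real.sqrt_nonneg (20 * C); linarith
  have hu0 : 0 < u := by linarith
  have huC : 20 * C ≤ u ^ 2 := by
    have h1 : Real.sqrt (20 * C) ^ 2 = 20 * C := Real.sq_sqrt (by positivity)
    have h2 := Real.sqrt_nonneg (20 * C)
    rw [hu]
    nlinarith
  have hs := su_pos hu0.le
  set s : ℝ := su u with hsd
  set ρ : ℝ := 1 / 5 / s ^ 2 with hρ
  have hρ0 : 0 < ρ := by rw [hρ]; positivity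
  have hsρ : s ^ 2 * ρ = 1 / 5 := by rw [hρ]; field_simp
  refine ⟨ρ, hρ0, ?_⟩
  set κ : ℝ := 8 * C * (4 * (1 + s) * ρ * (C + 6)) with hκ
  have hκ0 : 0 < κ := by rw [hκ]; positivity
  -- polynomial factors
  have e1 : ∀ᶠ d : ℕ in atTop, κ * (d:ℝ) ^ 4 * Real.exp (-(1/10 * d)) ≤ 1/2 := by
    have h1 := Real.tendsto_pow_mul_exp_neg_atTop_nhds_zero 4
    have h2 : Tendsto (fun d : ℕ => (1/10:ℝ) * (d:ℝ)) atTop atTop :=
      tendsto_natCast_atTop_atTop.const_mul_atTop (by norm_num)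
    have h3 := (h1.comp h2).const_mul (κ * 10 ^ 4)
    rw [mul_zero] at h3
    have h4 := h3.eventually (ge_mem_nhds (show (0:ℝ) < 1/2 by norm_num))
    filter_upwards [h4] with d hd
    simp only [Function.comp_apply] at hd
    have e : κ * 10 ^ 4 * ((1/10 * (d:ℝ)) ^ 4 * Real.exp (-(1/10 * d))) =
        κ * (d:ℝ) ^ 4 * Real.exp (-(1/10 * d)) := by
      ring
    rw [← e]
    exact hd
  have e2 : ∀ᶠ d : ℕ in atTop, (2:ℝ) ≤ (3/2) ^ d :=
    (tendsto_pow_atTop_atTop_of_one_lt (by norm_num)).eventually_ge_atTop 2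
  have e3 : ∀ᶠ d : ℕ in atTop, 1 ≤ d := eventually_ge_atTop 1
  have e4 : ∀ᶠ d : ℕ in atTop, 1 ≤ ρ * (d:ℝ) :=
    (tendsto_natCast_atTop_atTop.const_mul_atTop hρ0).eventually_ge_atTop 1
  obtain ⟨d₀, hd₀⟩ := eventually_atTop.1 (e1.and (e2.and (e3.and e4)))
  refine ⟨d₀, fun d hd m hmd K A hK F hF => ?_⟩
  obtain ⟨a1, a2, a3, a4⟩ := hd₀ d hd
  have hd1 : (1:ℝ) ≤ d := by exact_mod_cast a3
  have hm0 : (0:ℝ) ≤ m := Nat.cast_nonneg m
  have hR2 : Real.sqrt (ρ * d) ^ 2 = ρ * d := Real.sq_sqrt (by linarith)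
  have hR1 : 1 ≤ Real.sqrt (ρ * d) := Real.one_le_sqrt.2 a4
  obtain ⟨T, hT, hcov⟩ := explicit_FU d m a3 _ hR1 hu0.le K A hK F hF
  refine ⟨T, hT.trans (add_le_add le_rfl ?_), hcov⟩
  unfold bndU
  rw [hR2, ← hsd]
  have hq := qu_pos hu0.le
  have f1 : Real.exp (s ^ 2 * (ρ * d) / 2) / qu u ^ m ≤ Real.exp (1/5 * d) := by
    have g1 : s ^ 2 * (ρ * d) / 2 = 1/10 * d := by
      rw [← mul_assoc, hsρ]; ring
    have g2 : Real.exp (-(1/10 * d)) ≤ qu u ^ m := by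
      have k1 : Real.exp (-(2 / u ^ 2)) ≤ Ph u := by
        have k2 := Ph_ge hu0
        have k3 : 1 / u ^ 2 ≤ 1/4 := by
          apply one_div_le_one_div_of_le (by norm_num)
          nlinarith
        set w : ℝ := 1 / u ^ 2 with hw
        have hw0 : 0 < w := by rw [hw]; positivity
        have k4 : 2 / u ^ 2 = 2 * w := by rw [hw]; ring
        rw [k4]
        -- exp (-2w) ≤ 1 / (1 + 2 w) ≤ 1 - w
        have k5 : Real.exp (-(2 * w)) ≤ 1 / (1 + 2 * w) := by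
          rw [Real.exp_neg, one_div]
          apply inv_anti₀ (by positivity)
          have := Real.add_one_le_exp (2 * w)
          linarith
        have k6 : 1 / (1 + 2 * w) ≤ 1 - w := by
          rw [div_le_iff₀ (by positivity)]
          nlinarith
        linarith
      have k7 : Real.exp (-(1/10 * d)) ≤ Real.exp (-(2 / u ^ 2)) ^ m := by
        rw [← Real.exp_nat_mul]
        apply Real.exp_le_exp.2
        have k8 : (m:ℝ) * (2 / u ^ 2) ≤ 1/10 * d := by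
          rw [mul_div_assoc', div_le_iff₀ (by positivity)]
          nlinarith
        linarith
      refine k7.trans (pow_le_pow_left₀ (Real.exp_pos _).le (k1.trans (Ph_le_qu hu0.le)) m)
    rw [g1, div_le_iff₀ (pow_pos hq m)]
    calc Real.exp (1/10 * d) = Real.exp (1/5 * d) * Real.exp (-(1/10 * d)) := by
          rw [← Real.exp_add]; congr 1; ring
      _ ≤ Real.exp (1/5 * d) * qu u ^ m := mul_le_mul_of_nonneg_left g2 (Real.exp_pos _).le
  have harg : 0 < 4 * (1 + s) * (ρ * d) * (d + m + s ^ 2 * (ρ * d) + 4) := by positivity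
  have f2 : Real.log (4 * (1 + s) * (ρ * d) * (d + m + s ^ 2 * (ρ * d) + 4)) ≤
      4 * (1 + s) * ρ * (C + 6) * (d:ℝ) ^ 2 := by
    have g1 := Real.log_le_sub_one_of_pos harg
    have g2 : s ^ 2 * (ρ * d) = 1/5 * d := by rw [← mul_assoc, hsρ]
    have g3 : (d:ℝ) + m + s ^ 2 * (ρ * d) + 4 ≤ (C + 6) * d := by
      rw [g2]; nlinarith
    have g4 : 4 * (1 + s) * (ρ * d) * (d + m + s ^ 2 * (ρ * d) + 4) ≤
        4 * (1 + s) * (ρ * d) * ((C + 6) * d) :=
      mul_le_mul_of_nonneg_left g3 (by positivity)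
    have g5 : 4 * (1 + s) * (ρ * d) * ((C + 6) * d) = 4 * (1 + s) * ρ * (C + 6) * (d:ℝ) ^ 2 := by
      ring
    linarith
  have f2' : 0 ≤ Real.log (4 * (1 + s) * (ρ * d) * (d + m + s ^ 2 * (ρ * d) + 4)) := by
    apply Real.log_nonneg
    have g1 : 1 ≤ (1 + s) * (ρ * d) := by nlinarith
    have g2 : 0 ≤ s ^ 2 * (ρ * d) := by positivity
    nlinarith
  have f3 : 8 * (m:ℝ) * d * (Real.exp (s ^ 2 * (ρ * d) / 2) / qu u ^ m) *
      Real.log (4 * (1 + s) * (ρ * d) * (d + m + s ^ 2 * (ρ * d) + 4)) ≤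
      κ * (d:ℝ) ^ 4 * Real.exp (1/5 * d) := by
    calc _ ≤ (8 * (C * d) * d * Real.exp (1/5 * d)) *
          (4 * (1 + s) * ρ * (C + 6) * (d:ℝ) ^ 2) := by
          apply mul_le_mul _ f2 f2' (by positivity)
          apply mul_le_mul _ f1 (by positivity) (by positivity)
          apply mul_le_mul_of_nonneg_right _ (by linarith)
          linarith
      _ = _ := by rw [hκ]; ring
  have f4 : κ * (d:ℝ) ^ 4 * Real.exp (1/5 * d) =
      (κ * (d:ℝ) ^ 4 * Real.exp (-(1/10 * d))) * Real.exp (3/10) ^ d := by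
    rw [← Real.exp_nat_mul, mul_assoc (κ * (d:ℝ) ^ 4), ← Real.exp_add]
    congr 2
    ring
  have f5 : Real.exp (3/10) ^ d ≤ (3/2) ^ d := by
    apply pow_le_pow_left₀ (Real.exp_pos _).le
    have := Real.exp_bound' (x := 3/10) (by norm_num) (by norm_num) (n := 3) (by norm_num)
    refine this.trans ?_
    norm_num [Finset.sum_range_succ, Nat.factorial]
  have f6 : (κ * (d:ℝ) ^ 4 * Real.exp (-(1/10 * d))) * Real.exp (3/10) ^ d ≤ 1/2 * (3/2) ^ d :=
    mul_le_mul a1 f5 (by positivity) (by norm_num)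
  rw [f4] at f3
  linarith

/-- corners of a polytope -/
theorem poly_corner {d m N : ℕ} (a : Fin N → E d) (b : Fin N → ℝ) (ha : ∀ j, a j ≠ 0)
    {x : E d} (hx : x ∈ frontier {y : E d | ∀ j, ⟪a j, y⟫ ≤ b j})
    (hm : {j | ⟪a j, x⟫ = b j}.ncard ≤ m) :
    ∃ e : Fin m → Fin N, (∀ i, ⟪a (e i), x⟫ = b (e i)) ∧
      ∀ v : E d, (∀ i, ⟪a (e i), v⟫ < 0) →
        ∃ t : ℝ, 0 < t ∧ x + t • v ∈ interior {y : E d | ∀ j, ⟪a j, y⟫ ≤ b j} := by
  classical
  have hKI : {y : E d | ∀ j, ⟪a j, y⟫ ≤ b j} = ⋂ j, {y : E d | ⟪a j, y⟫ ≤ b j} := by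
    ext y
    simp
  have hcl : IsClosed {y : E d | ∀ j, ⟪a j, y⟫ ≤ b j} := by
    rw [hKI]
    exact isClosed_iInter fun j => isClosed_le (by fun_prop) continuous_const
  have hxK : ∀ j, ⟪a j, x⟫ ≤ b j := hcl.frontier_subset hx
  have hsub : (⋂ j, {y : E d | ⟪a j, y⟫ < b j}) ⊆ interior {y : E d | ∀ j, ⟪a j, y⟫ ≤ b j} := by
    apply interior_maximal
    · intro y hy j
      have : ⟪a j, y⟫ < b j := Set.mem_iInter.1 hy j
      exact this.le
    · exact isOpen_iInter_of_finite fun j => isOpen_lt (by fun_prop) continuous_const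
  set s : Finset (Fin N) := Finset.univ.filter fun j => ⟪a j, x⟫ = b j with hs
  have hscard : s.card ≤ m := by
    rwa [Set.ncard_eq_toFinset_card', Set.toFinset_ofPred] at hm
  have hsne : s.Nonempty := by
    by_contra hcon
    rw [Finset.not_nonempty_iff_eq_empty, Finset.filter_eq_empty_iff] at hcon
    exact hx.2 (hsub (Set.mem_iInter.2 fun j =>
      lt_of_le_of_ne (hxK j) (hcon (Finset.mem_univ j))))
  obtain ⟨e, he1, he2⟩ := enum s hsne m hscard
  refine ⟨e, fun i => (Finset.mem_filter.1 (he1 i)).2, fun v hv => ?_⟩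
  have h2 : ∀ j, ∀ᶠ t in 𝓝[>] (0:ℝ), ⟪a j, x + t • v⟫ < b j := by
    intro j
    by_cases hj : ⟪a j, x⟫ = b j
    · obtain ⟨i, hi⟩ := he2 j (Finset.mem_filter.2 ⟨Finset.mem_univ j, hj⟩)
      have hvj : ⟪a j, v⟫ < 0 := by rw [← hi]; exact hv i
      filter_upwards [self_mem_nhdsWithin] with t ht
      have ht' : (0:ℝ) < t := ht
      rw [inner_add_right, inner_smul_right, hj]
      nlinarith
    · have hlt : ⟪a j, x⟫ < b j := lt_of_le_of_ne (hxK j) hj
      have hc : Continuous (fun t : ℝ => ⟪a j, x + t • v⟫) := by fun_prop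
      have h3 : ∀ᶠ t in 𝓝 (0:ℝ), ⟪a j, x + t • v⟫ < b j :=
        hc.continuousAt.eventually (gt_mem_nhds (by simpa using hlt))
      exact h3.filter_mono nhdsWithin_le_nhds
  obtain ⟨t, ht, htpos⟩ := ((Filter.eventually_all.2 h2).and self_mem_nhdsWithin).exists
  exact ⟨t, htpos, hsub (Set.mem_iInter.2 fun j => ht j)⟩

/-- vertices of a polytope containing an ellipsoid -/
theorem poly_seen {d m N : ℕ} (a : Fin N → E d) (b : Fin N → ℝ) (ha : ∀ j, a j ≠ 0)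
    (A : E d ≃L[ℝ] E d) (p : E d) (hb : ContainsEllipsoid A p {y : E d | ∀ j, ⟪a j, y⟫ ≤ b j})
    {x : E d} (hx : x ∈ frontier {y : E d | ∀ j, ⟪a j, y⟫ ≤ b j})
    (hm : {j | ⟪a j, x⟫ = b j}.ncard ≤ m) {R : ℝ} (hR : ‖A (x - p)‖ ≤ R) :
    Seen A m R {y : E d | ∀ j, ⟪a j, y⟫ ≤ b j} x := by
  obtain ⟨e, he, hv⟩ := poly_corner a b ha hx hm
  refine seen_of_corner hb hR ⟨fun i => innerSL ℝ (a (e i)), fun i => ⟨?_, fun z hz => ?_⟩, ?_⟩
  · intro h0
    have h0' : innerSL ℝ (a (e i)) = 0 := h0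
    have h1 : innerSL ℝ (a (e i)) (a (e i)) = 0 := by rw [h0']; rfl
    rw [innerSL_apply_apply] at h1
    exact ha _ (inner_self_eq_zero.1 h1)
  · rw [innerSL_apply_apply, innerSL_apply_apply, he i]
    exact hz (e i)
  · intro v hv'
    refine hv v fun i => ?_
    have := hv' i
    rwa [innerSL_apply_apply] at this

/-- vertices of a polytope with large angles -/
theorem poly_angle {d m N : ℕ} (hm1 : 1 ≤ m) (a : Fin N → E d) (b : Fin N → ℝ)
    (ha : ∀ j, ‖a j‖ = 1) {x : E d} (hx : x ∈ frontier {y : E d | ∀ j, ⟪a j, y⟫ ≤ b j})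
    (hm : {j | ⟪a j, x⟫ = b j}.ncard ≤ m) (τ : ℝ) (hτ1 : τ ≤ 1) (hτ0 : 0 ≤ τ)
    (hang : ∀ i j, ⟪a i, x⟫ = b i → ⟪a j, x⟫ = b j → a i ≠ a j → τ ≤ ⟪a i, a j⟫)
    {R : ℝ} (hR0 : 0 < R) (hR : (m : ℝ) ≤ (1 + τ * (m - 1)) * R ^ 2) :
    Seen (ContinuousLinearEquiv.refl ℝ (E d)) m R {y : E d | ∀ j, ⟪a j, y⟫ ≤ b j} x := by
  have hm0 : (1:ℝ) ≤ m := by exact_mod_cast hm1
  have ha0 : ∀ j, a j ≠ 0 := by
    intro j h0
    have := ha j
    rw [h0, norm_zero] at this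
    exact zero_ne_one this
  obtain ⟨e, he, hv⟩ := poly_corner a b ha0 hx hm
  obtain ⟨w, hw, hw1⟩ := far_hull hm1 (fun i => a (e i)) (1 / R) (by positivity)
    (fun c hc0 hc1 => by
      have h1 := hull_norm (fun i => a (e i)) (fun i => ha (e i)) τ hτ1
        (fun i j hij => hang _ _ (he i) (he j) hij) c hc0 hc1
      have h2 : (1 / R) ^ 2 ≤ (1 + τ * (m - 1)) / m := by
        rw [one_div, inv_pow, inv_eq_one_div, div_le_div_iff₀ (by positivity) (by linarith)]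
        linarith
      exact le_of_sq_le_sq (h2.trans h1) (norm_nonneg _))
  rw [one_div_one_div] at hw
  refine ⟨fun i => innerSL ℝ (a (e i)), w, hw, fun i => ⟨?_, fun z hz => ?_⟩, ?_⟩
  · intro h0
    have h0' : innerSL ℝ (a (e i)) = 0 := h0
    have h1 : innerSL ℝ (a (e i)) (a (e i)) = 0 := by rw [h0']; rfl
    rw [innerSL_apply_apply] at h1
    exact ha0 _ (inner_self_eq_zero.1 h1)
  · rw [innerSL_apply_apply, innerSL_apply_apply]
    have hz' : ‖z‖ ≤ 1 := hz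
    have h1 : ⟪a (e i), z⟫ ≤ 1 := by
      refine (real_inner_le_norm _ _).trans ?_
      rw [ha, one_mul]
      exact hz'
    exact h1.trans (hw1 i)
  · intro v hv'
    refine hv v fun i => ?_
    have := hv' i
    rwa [innerSL_apply_apply] at this

end Pool.Agent.TH84.HC
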