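import Pool.Agent.TH84.HC.Asym

/-!
# Further consequences of the explicit bound
-/

set_option autoImplicit false

open MeasureTheory ProbabilityTheory Filter Topology
open scoped RealInnerProductSpace ENNReal

namespace Pool.Agent.TH84.HC

open Pool.Agent.PZ871 (E gm)

/-- the numerical part of the simple case, with `k` further facets at each vertex -/
theorem bnd_simple_k {d k : ℕ} (hd : 2 ≤ d) {R : ℝ} (hR : 1 ≤ R)
    (h : R ^ 2 ≤ (d : ℝ) - 6 / 5 * k - 4 * Real.pi * Real.log d) :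
    (1 - 33 / (d:ℝ)) * 2 ^ d + bnd d (d + k) R < 2 ^ d := by
  have hR2 : 1 ≤ R ^ 2 := by nlinarith
  have hk0 : (0:ℝ) ≤ k := Nat.cast_nonneg k
  have h33 := dim_large hd (by linarith)
  have hd33 : (33:ℝ) ≤ d := by exact_mod_cast h33
  have hd0 : (0:ℝ) < d := by linarith
  have hlog0 : 0 < Real.log d := Real.log_pos (by linarith)
  have hpl : 0 < 4 * Real.pi * Real.log d := by positivity
  have hRd : R ^ 2 ≤ d := by linarith
  have hkd : (k:ℝ) ≤ 5/6 * d := by linarith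
  have hRk : R ^ 2 + k ≤ d := by linarith
  -- the logarithm is larger than assumed above
  have hl33 : 2 ≤ Real.log d := by
    have h1 : Real.log 8 ≤ Real.log d := Real.log_le_log (by norm_num) (by linarith)
    have h2 : Real.log 8 = 3 * Real.log 2 := by
      rw [show (8:ℝ) = 2 ^ 3 by norm_num, Real.log_pow]; norm_num
    have h3 : 0.6931471803 < Real.log 2 := Real.log_two_gt_d9
    linarith
  have h1 : 2 ^ (d + k) * Real.exp ((R ^ 2 - (d + k : ℕ)) / Real.pi) ≤ 2 ^ d * ((d:ℝ) ^ 4)⁻¹ := by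
    have h2 : (R ^ 2 - (d + k : ℕ)) / Real.pi ≤ -(4 * Real.log d) - 11 / 5 * k / Real.pi := by
      rw [div_le_iff₀ Real.pi_pos]
      have e : (-(4 * Real.log d) - 11 / 5 * k / Real.pi) * Real.pi =
          -(4 * Real.pi * Real.log d) - 11 / 5 * k := by
        field_simp
      rw [e]
      push_cast
      linarith
    have h3 : k * Real.log 2 ≤ 11 / 5 * k / Real.pi := by
      rw [le_div_iff₀ Real.pi_pos]
      have h4 : Real.log 2 < 0.6931471808 := Real.log_two_lt_d9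
      have h5 := Real.pi_lt_d4
      have h6 : Real.log 2 * Real.pi ≤ 11/5 := by
        have h7 : Real.log 2 * Real.pi ≤ 0.6931471808 * 3.1416 :=
          mul_le_mul h4.le h5.le Real.pi_pos.le (by norm_num)
        norm_num at h7 ⊢
        linarith
      nlinarith [mul_le_mul_of_nonneg_left h6 hk0]
    have h4 : Real.exp ((R ^ 2 - (d + k : ℕ)) / Real.pi) ≤
        ((d:ℝ) ^ 4)⁻¹ * ((2:ℝ) ^ k)⁻¹ := by
      refine (Real.exp_le_exp.2 h2).trans ?_
      have h5 : Real.exp (-(4 * Real.log d)) = ((d:ℝ) ^ 4)⁻¹ := by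
        rw [Real.exp_neg]
        have : Real.exp (4 * Real.log d) = (d:ℝ) ^ 4 := by
          rw [mul_comm, Real.exp_mul, Real.exp_log hd0]
          norm_cast
        rw [this]
      have h6 : Real.exp (-(k * Real.log 2)) = ((2:ℝ) ^ k)⁻¹ := by
        rw [Real.exp_neg, mul_comm, Real.exp_mul, Real.exp_log (by norm_num), Real.rpow_natCast]
      rw [← h5, ← h6, ← Real.exp_add]
      apply Real.exp_le_exp.2
      linarith
    have h2k : (0:ℝ) < 2 ^ k := by positivity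
    calc (2:ℝ) ^ (d + k) * Real.exp ((R ^ 2 - (d + k : ℕ)) / Real.pi)
        ≤ 2 ^ (d + k) * (((d:ℝ) ^ 4)⁻¹ * ((2:ℝ) ^ k)⁻¹) :=
          mul_le_mul_of_nonneg_left h4 (by positivity)
      _ = 2 ^ d * ((d:ℝ) ^ 4)⁻¹ := by
          rw [pow_add]
          field_simp
  -- the logarithmic factor
  have hcast : ((d + k : ℕ) : ℝ) = d + k := by push_cast; ring
  have hmd : ((d + k : ℕ) : ℝ) ≤ 2 * d := by rw [hcast]; linarith
  have hm0 : (0:ℝ) ≤ ((d + k : ℕ) : ℝ) := Nat.cast_nonneg _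
  have hlogarg : 8 * R ^ 2 * (d + (d + k : ℕ) + R ^ 2 + 4) ≤ 25 * (d:ℝ) ^ 2 := by
    rw [hcast]
    have h3 : 8 * R ^ 2 * (d + (d + k) + R ^ 2 + 4) ≤ 8 * R ^ 2 * (3 * d + 4) := by
      apply mul_le_mul_of_nonneg_left _ (by positivity)
      linarith
    have h4 : 8 * R ^ 2 * (3 * d + 4) ≤ 8 * (d - 8 * 3) * (3 * d + 4) := by
      apply mul_le_mul_of_nonneg_right _ (by linarith)
      have h5 : 4 * 3 * 2 ≤ 4 * Real.pi * Real.log d := by
        apply mul_le_mul _ hl33 (by norm_num) (by positivity)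
        have := Real.pi_gt_three
        linarith
      linarith
    nlinarith
  have h2 : Real.log (8 * R ^ 2 * (d + (d + k : ℕ) + R ^ 2 + 4)) ≤ 2 * d := by
    have h0 : 0 < 8 * R ^ 2 * (d + (d + k : ℕ) + R ^ 2 + 4) := by positivity
    refine (Real.log_le_log h0 hlogarg).trans ?_
    have h3 : Real.log (25 * (d:ℝ) ^ 2) = 2 * Real.log (5 * d) := by
      rw [show (25:ℝ) * (d:ℝ) ^ 2 = (5 * d) ^ 2 by ring, Real.log_pow]
      norm_num
    have h4 : Real.log (5 * d) ≤ 3/4 * Real.sqrt (5 * d) := log_le_sqrt' (by positivity)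
    have h5 : Real.sqrt (5 * d) ≤ d := by
      rw [Real.sqrt_le_left (by linarith)]
      nlinarith
    rw [h3]
    linarith
  have hlog : 0 ≤ Real.log (8 * R ^ 2 * (d + (d + k : ℕ) + R ^ 2 + 4)) := by
    apply Real.log_nonneg
    nlinarith
  have h4 : bnd d (d + k) R ≤ 1 + 32 / d * 2 ^ d := by
    unfold bnd
    have h5 : 8 * ((d + k : ℕ):ℝ) * d * 2 ^ (d + k) * Real.exp ((R ^ 2 - (d + k : ℕ)) / Real.pi) *
        Real.log (8 * R ^ 2 * (d + (d + k : ℕ) + R ^ 2 + 4)) ≤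
        8 * (2 * (d:ℝ)) * d * (2 ^ d * ((d:ℝ) ^ 4)⁻¹) * (2 * d) := by
      apply mul_le_mul _ h2 hlog (by positivity)
      rw [mul_assoc (8 * ((d + k : ℕ):ℝ) * d)]
      apply mul_le_mul _ h1 (by positivity) (by positivity)
      apply mul_le_mul_of_nonneg_right _ hd0.le
      linarith
    have h6 : 8 * (2 * (d:ℝ)) * d * (2 ^ d * ((d:ℝ) ^ 4)⁻¹) * (2 * d) = 32 / d * 2 ^ d := by
      field_simp
      norm_num
    linarith
  have h7 : (1:ℝ) < 1 / d * 2 ^ d := by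
    have h8 : (d:ℝ) < 2 ^ d := by exact_mod_cast Nat.lt_two_pow_self
    rw [one_div, inv_mul_eq_div, lt_div_iff₀ hd0]
    linarith
  have h8 : (1 - 33 / (d:ℝ)) * 2 ^ d + (1 + 32 / d * 2 ^ d) = 2 ^ d + 1 - 1 / d * 2 ^ d := by
    ring
  linarith

/-- **simple case**, with `k` further facets at each vertex -/
theorem simple_case_k (d k : ℕ) (hd : 2 ≤ d) (K : Set (E d)) (A : E d ≃L[ℝ] E d) (R : ℝ)
    (hK : IsBody K) (hR1 : 1 ≤ R)
    (hR : R ^ 2 ≤ (d : ℝ) - 6 / 5 * k - 4 * Real.pi * Real.log d) (F : Finset (E d))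
    (hFc : (F.card : ℝ) ≤ (1 - 33 / (d:ℝ)) * 2 ^ d)
    (hF : ∀ x ∈ Set.extremePoints ℝ K, x ∉ F → Seen A (d + k) R K x) :
    ∃ T : Finset (E d), T.card < 2 ^ d ∧ K ⊆ ⋃ t ∈ T, (fun x => t + x) '' interior K := by
  obtain ⟨T, hT, hcov⟩ := explicit_F d (d + k) (by omega) R hR1 K A hK F hF
  refine ⟨T, ?_, hcov⟩
  have h1 := bnd_simple_k hd hR1 hR
  have : (T.card : ℝ) < 2 ^ d := by linarith
  exact_mod_cast this

/-- Chernoff's bound for the Gaussian distribution function -/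
theorem Ph_ge_exp {u : ℝ} (hu : 0 ≤ u) : 1 - Real.exp (-(u ^ 2 / 2)) ≤ Ph u := by
  have h1 := measure_ge_le_exp_mul_mgf (μ := g1) (X := id) (t := u) u hu
    (integrable_exp_mul_gaussianReal u)
  have h2 : mgf id g1 u = Real.exp (u ^ 2 / 2) := by
    have : g1 = gaussianReal 0 1 := rfl
    rw [this, mgf_id_gaussianReal]
    simp
  rw [h2, ← Real.exp_add] at h1
  have h3 : -u * u + u ^ 2 / 2 = -(u ^ 2 / 2) := by ring
  rw [h3] at h1
  have h4 : g1.real (Set.Iio u)ᶜ = 1 - Ph u := by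
    rw [measureReal_compl measurableSet_Iio, probReal_univ]
    rfl
  have h5 : (Set.Iio u)ᶜ = {ω : ℝ | u ≤ id ω} := by
    ext x
    simp
  rw [h5] at h4
  linarith

/-- `bu u ≤ 1` -/
theorem bu_le_one {u : ℝ} (hu : 0 ≤ u) : bu u ≤ 1 := by
  unfold bu
  rw [div_le_one (lt_of_lt_of_le (by norm_num) (Ph_half hu))]
  have h1 : ph u ≤ 1/2 := by
    rw [ph_eq]
    have h2 : Real.exp (-(u ^ 2) / 2) ≤ 1 := by
      rw [Real.exp_le_one_iff]
      have := sq_nonneg u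
      linarith
    have h3 : (Real.sqrt (2 * Real.pi))⁻¹ ≤ 1/2 := by
      rw [one_div]
      apply inv_anti₀ (by norm_num)
      rw [Real.le_sqrt (by norm_num) (by positivity)]
      have := Real.pi_gt_three
      linarith
    have h4 : 0 ≤ (Real.sqrt (2 * Real.pi))⁻¹ := by positivity
    calc (Real.sqrt (2 * Real.pi))⁻¹ * Real.exp (-(u ^ 2) / 2) ≤ (Real.sqrt (2 * Real.pi))⁻¹ * 1 :=
          mul_le_mul_of_nonneg_left h2 h4
      _ ≤ 1/2 := by rw [mul_one]; exact h3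
  exact h1.trans (Ph_half hu)

/-- lower bound for `qu u ^ m` -/
theorem qu_pow_ge {u : ℝ} (hu : 0 ≤ u) (h : Real.exp (-(u ^ 2 / 2)) ≤ 1/2) (m : ℕ) :
    Real.exp (-(2 * (m * Real.exp (-(u ^ 2 / 2))))) ≤ qu u ^ m := by
  set w : ℝ := Real.exp (-(u ^ 2 / 2)) with hw
  have hw0 : 0 < w := Real.exp_pos _
  have k5 : Real.exp (-(2 * w)) ≤ 1 / (1 + 2 * w) := by
    rw [Real.exp_neg, one_div]
    apply inv_anti₀ (by positivity)
    have := Real.add_one_le_exp (2 * w)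
    linarith
  have k6 : 1 / (1 + 2 * w) ≤ 1 - w := by
    rw [div_le_iff₀ (by positivity)]
    nlinarith
  have k7 : Real.exp (-(2 * w)) ≤ qu u :=
    (k5.trans k6).trans ((Ph_ge_exp hu).trans (Ph_le_qu hu))
  have k8 : Real.exp (-(2 * (m * w))) = Real.exp (-(2 * w)) ^ m := by
    rw [← Real.exp_nat_mul]
    congr 1
    ring
  rw [k8]
  exact pow_le_pow_left₀ (Real.exp_pos _).le k7 m

/-- the polynomial factor is beaten -/
theorem poly_small5 (κ : ℝ) (hκ : 0 < κ) :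
    ∀ᶠ d : ℕ in atTop, 680 * (d:ℝ) ^ 5 * Real.exp (-(κ * d)) ≤ 1/2 := by
  have h1 := Real.tendsto_pow_mul_exp_neg_atTop_nhds_zero 5
  have h2 : Tendsto (fun d : ℕ => κ * (d:ℝ)) atTop atTop :=
    tendsto_natCast_atTop_atTop.const_mul_atTop hκ
  have h3 := (h1.comp h2).const_mul (680 / κ ^ 5)
  rw [mul_zero] at h3
  have h4 := h3.eventually (ge_mem_nhds (show (0:ℝ) < 1/2 by norm_num))
  filter_upwards [h4] with d hd
  simp only [Function.comp_apply] at hd
  have e : 680 / κ ^ 5 * ((κ * d) ^ 5 * Real.exp (-(κ * d))) =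
      680 * (d:ℝ) ^ 5 * Real.exp (-(κ * d)) := by
    field_simp
  rw [← e]
  exact hd

/-- the bound with the best parameter, for a given exponential rate -/
theorem bndU_rate (δ : ℝ) (hδ : 0 < δ) (hδ1 : δ ≤ 1) : ∃ c : ℝ, 0 < c ∧ ∃ d₀ : ℕ, ∀ d : ℕ,
    d₀ ≤ d → 1 ≤ d ∧ ∀ (m : ℕ) (R : ℝ), 1 ≤ R → R ^ 2 * Real.log (2 + m / d) ≤ c * d →
    ∃ u : ℝ, 0 ≤ u ∧ bndU d m R u ≤ Real.exp (δ * d) := by
  set β : ℝ := Real.log (8 / δ) with hβ
  have h8δ : 1 ≤ 8 / δ := by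
    rw [le_div_iff₀ hδ]; linarith
  have hβ0 : 0 ≤ β := Real.log_nonneg h8δ
  have hβe : Real.exp (-β) = δ / 8 := by
    rw [hβ, Real.exp_neg, Real.exp_log (by positivity), inv_div]
  set κ : ℝ := 8 * β + 8 with hκ
  have hκ8 : 8 ≤ κ := by rw [hκ]; linarith
  set c : ℝ := δ / (2 * κ) with hc
  have hc0 : 0 < c := by rw [hc]; positivity
  have hκc : κ * c = δ / 2 := by rw [hc]; field_simp
  have hc16 : c ≤ δ / 16 := by nlinarith
  refine ⟨c, hc0, ?_⟩
  have e1 := poly_small5 (7/16 * δ) (by positivity)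
  have e2 : ∀ᶠ d : ℕ in atTop, 2 ≤ δ * (d:ℝ) :=
    (tendsto_natCast_atTop_atTop.const_mul_atTop hδ).eventually_ge_atTop 2
  have e3 : ∀ᶠ d : ℕ in atTop, 1 ≤ d := eventually_ge_atTop 1
  obtain ⟨d₀, hd₀⟩ := eventually_atTop.1 (e1.and (e2.and e3))
  refine ⟨d₀, fun d hd => ?_⟩
  obtain ⟨a1, a2, a3⟩ := hd₀ d hd
  refine ⟨a3, fun m R hR1 hRL => ?_⟩
  have hd1 : (1:ℝ) ≤ d := by exact_mod_cast a3
  have hd0 : (0:ℝ) < d := by linarith
  have hm0 : (0:ℝ) ≤ m := Nat.cast_nonneg m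
  have hmd : (0:ℝ) ≤ m / d := by positivity
  set L : ℝ := Real.log (2 + m / d) with hL
  have hLe : Real.exp L = 2 + m / d := Real.exp_log (by positivity)
  have hL12 : 1/2 ≤ L := by
    have h1 : Real.log 2 ≤ L := Real.log_le_log (by norm_num) (by linarith)
    have h2 : 0.6931471803 < Real.log 2 := Real.log_two_gt_d9
    linarith
  have hR2 : 1 ≤ R ^ 2 := by nlinarith
  have hLcd : L ≤ c * d := by nlinarith
  set u : ℝ := Real.sqrt (2 * (L + β)) with hu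
  have hu0 : 0 ≤ u := Real.sqrt_nonneg _
  have hu2 : u ^ 2 = 2 * (L + β) := Real.sq_sqrt (by linarith)
  refine ⟨u, hu0, ?_⟩
  set s : ℝ := su u with hs
  have hs0 : 0 < s := su_pos hu0
  have hs1 : s ≤ u + 1 := by
    have := bu_le_one hu0
    rw [hs]; unfold su; linarith
  have hs2 : s ^ 2 ≤ κ * L := by
    have h1 : s ^ 2 ≤ 2 * u ^ 2 + 2 := by nlinarith [sq_nonneg (u - 1)]
    rw [hu2] at h1
    have h2 : β ≤ 2 * (β * L) := by nlinarith
    rw [hκ]
    nlinarith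
  have hsR : s ^ 2 * R ^ 2 ≤ δ * d / 2 := by
    have h1 : s ^ 2 * R ^ 2 ≤ κ * L * R ^ 2 := mul_le_mul_of_nonneg_right hs2 (by positivity)
    have h2 : κ * L * R ^ 2 = κ * (R ^ 2 * L) := by ring
    have h3 : κ * (R ^ 2 * L) ≤ κ * (c * d) := mul_le_mul_of_nonneg_left hRL (by linarith)
    have h4 : κ * (c * d) = δ * d / 2 := by rw [← mul_assoc, hκc]; ring
    linarith
  have hδd : δ * d ≤ d := by nlinarith
  -- the power of `q`
  have hw : Real.exp (-(u ^ 2 / 2)) = δ / 8 / (2 + m / d) := by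
    rw [hu2, show -(2 * (L + β) / 2) = -β + -L by ring, Real.exp_add, hβe, Real.exp_neg, hLe]
    rfl
  have hw2 : Real.exp (-(u ^ 2 / 2)) ≤ 1/2 := by
    rw [hw, div_le_iff₀ (by positivity)]
    linarith
  have hmw : m * Real.exp (-(u ^ 2 / 2)) ≤ δ / 8 * d := by
    rw [hw, mul_div_assoc', div_le_iff₀ (by positivity)]
    have h1 : (m:ℝ) ≤ d * (2 + m / d) := by
      have : (d:ℝ) * (2 + m / d) = 2 * d + m := by field_simp
      rw [this]; linarith
    have h2 : (m:ℝ) * (δ / 8) ≤ d * (2 + m / d) * (δ / 8) :=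
      mul_le_mul_of_nonneg_right h1 (by positivity)
    linarith
  have hq : Real.exp (-(δ / 4 * d)) ≤ qu u ^ m := by
    refine le_trans (Real.exp_le_exp.2 ?_) (qu_pow_ge hu0 hw2 m)
    linarith
  have hq0 : 0 < qu u ^ m := pow_pos (qu_pos hu0) m
  have f1 : Real.exp (s ^ 2 * R ^ 2 / 2) / qu u ^ m ≤ Real.exp (δ / 2 * d) := by
    rw [div_le_iff₀ hq0]
    calc Real.exp (s ^ 2 * R ^ 2 / 2) ≤ Real.exp (δ / 4 * d) :=
          Real.exp_le_exp.2 (by linarith)
      _ = Real.exp (δ / 2 * d) * Real.exp (-(δ / 4 * d)) := by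
          rw [← Real.exp_add]; congr 1; ring
      _ ≤ Real.exp (δ / 2 * d) * qu u ^ m := mul_le_mul_of_nonneg_left hq (Real.exp_pos _).le
  -- the number of functionals
  set X : ℝ := Real.exp (c * d) with hX
  have hX1 : 1 ≤ X := Real.one_le_exp (by positivity)
  have hXδ : X ≤ Real.exp (δ / 16 * d) :=
    Real.exp_le_exp.2 (mul_le_mul_of_nonneg_right hc16 hd0.le)
  have hmX : (m:ℝ) ≤ d * X := by
    have h1 : Real.exp L ≤ X := Real.exp_le_exp.2 hLcd
    rw [hLe] at h1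
    have h2 : (m:ℝ) = d * (m / d) := by field_simp
    rw [h2]
    apply mul_le_mul_of_nonneg_left _ hd0.le
    linarith
  have hR2d : R ^ 2 ≤ d := by
    have h1 : R ^ 2 * (1/2) ≤ R ^ 2 * L := mul_le_mul_of_nonneg_left hL12 (by positivity)
    have h2 : c * d ≤ 1/16 * d := mul_le_mul_of_nonneg_right (by linarith) hd0.le
    linarith
  have harg : 4 * (1 + s) * R ^ 2 * (d + m + s ^ 2 * R ^ 2 + 4) ≤ 84 * (d:ℝ) ^ 3 * X := by
    have h1 : s ^ 2 ≤ d / 2 := by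
      have : s ^ 2 * 1 ≤ s ^ 2 * R ^ 2 := mul_le_mul_of_nonneg_left hR2 (sq_nonneg s)
      linarith
    have h2 : 4 * (1 + s) ≤ 12 * d := by nlinarith [sq_nonneg (s - 1)]
    have h3 : (d:ℝ) + m + s ^ 2 * R ^ 2 + 4 ≤ 7 * (d * X) := by
      have : (d:ℝ) ≤ d * X := by nlinarith
      linarith
    have h4 : 4 * (1 + s) * R ^ 2 ≤ 12 * d * d := mul_le_mul h2 hR2d (by positivity) (by positivity)
    calc 4 * (1 + s) * R ^ 2 * (d + m + s ^ 2 * R ^ 2 + 4) ≤ 12 * d * d * (7 * (d * X)) :=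
          mul_le_mul h4 h3 (by positivity) (by positivity)
      _ = _ := by ring
  have harg0 : 0 < 4 * (1 + s) * R ^ 2 * (d + m + s ^ 2 * R ^ 2 + 4) := by positivity
  have f2 : Real.log (4 * (1 + s) * R ^ 2 * (d + m + s ^ 2 * R ^ 2 + 4)) ≤ 85 * (d:ℝ) ^ 3 := by
    refine (Real.log_le_log harg0 harg).trans ?_
    rw [Real.log_mul (by positivity) (by positivity), hX, Real.log_exp]
    have h1 := Real.log_le_sub_one_of_pos (show 0 < 84 * (d:ℝ) ^ 3 by positivity)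
    have h2 : c * d ≤ (d:ℝ) ^ 3 := by
      have h3 : c * d ≤ 1 * d := mul_le_mul_of_nonneg_right (by linarith) hd0.le
      have h4 : (d:ℝ) ≤ (d:ℝ) ^ 3 := le_self_pow₀ hd1 (by norm_num)
      linarith
    linarith
  have f2' : 0 ≤ Real.log (4 * (1 + s) * R ^ 2 * (d + m + s ^ 2 * R ^ 2 + 4)) := by
    apply Real.log_nonneg
    have g1 : 1 ≤ (1 + s) * R ^ 2 := by nlinarith
    have g2 : 0 ≤ s ^ 2 * R ^ 2 := by positivity
    nlinarith
  have f3 : 8 * (m:ℝ) * d * (Real.exp (s ^ 2 * R ^ 2 / 2) / qu u ^ m) *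
      Real.log (4 * (1 + s) * R ^ 2 * (d + m + s ^ 2 * R ^ 2 + 4)) ≤
      680 * (d:ℝ) ^ 5 * Real.exp (9/16 * δ * d) := by
    calc _ ≤ (8 * (d * X) * d * Real.exp (δ / 2 * d)) * (85 * (d:ℝ) ^ 3) := by
          apply mul_le_mul _ f2 f2' (by positivity)
          apply mul_le_mul _ f1 (by positivity) (by positivity)
          apply mul_le_mul_of_nonneg_right _ hd0.le
          linarith
      _ = 680 * (d:ℝ) ^ 5 * (X * Real.exp (δ / 2 * d)) := by ring
      _ ≤ 680 * (d:ℝ) ^ 5 * (Real.exp (δ / 16 * d) * Real.exp (δ / 2 * d)) := by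
          apply mul_le_mul_of_nonneg_left _ (by positivity)
          exact mul_le_mul_of_nonneg_right hXδ (Real.exp_pos _).le
      _ = _ := by
          rw [← Real.exp_add]
          congr 2
          ring
  have f4 : 680 * (d:ℝ) ^ 5 * Real.exp (9/16 * δ * d) =
      (680 * (d:ℝ) ^ 5 * Real.exp (-(7/16 * δ * d))) * Real.exp (δ * d) := by
    rw [mul_assoc (680 * (d:ℝ) ^ 5), ← Real.exp_add]
    congr 2
    ring
  have f5 : (680 * (d:ℝ) ^ 5 * Real.exp (-(7/16 * δ * d))) * Real.exp (δ * d) ≤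
      1/2 * Real.exp (δ * d) := mul_le_mul_of_nonneg_right a1 (Real.exp_pos _).le
  have f6 : 2 ≤ Real.exp (δ * d) := by
    have := Real.add_one_le_exp (δ * d)
    linarith
  unfold bndU
  rw [← hs]
  rw [f4] at f3
  linarith

/-- **corners of any order**, uniform asymptotic form -/
theorem asympU (ε : ℝ) (hε : 0 < ε) : ∃ c : ℝ, 0 < c ∧ ∃ d₀ : ℕ, ∀ d : ℕ, d₀ ≤ d →
    ∀ (m : ℕ) (R : ℝ), 1 ≤ R → R ^ 2 * Real.log (2 + m / d) ≤ c * d →
    ∀ (K : Set (E d)) (A : E d ≃L[ℝ] E d), IsBody K → ∀ F : Finset (E d),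
    (∀ x ∈ Set.extremePoints ℝ K, x ∉ F → Seen A m R K x) →
    CoveredBy (F.card + (1 + ε) ^ d) K := by
  have hlog : 0 < Real.log (1 + ε) := Real.log_pos (by linarith)
  set δ : ℝ := min (Real.log (1 + ε)) 1 with hδ
  have hδ0 : 0 < δ := lt_min hlog one_pos
  obtain ⟨c, hc, d₀, h⟩ := bndU_rate δ hδ0 (min_le_right _ _)
  refine ⟨c, hc, d₀, fun d hd m R hR hRL K A hK F hF => ?_⟩
  obtain ⟨hd1, h⟩ := h d hd
  obtain ⟨u, hu, hb⟩ := h m R hR hRL
  obtain ⟨T, hT, hcov⟩ := explicit_FU d m hd1 R hR hu K A hK F hF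
  refine ⟨T, hT.trans (add_le_add le_rfl (hb.trans ?_)), hcov⟩
  have h1 : (1 + ε) ^ d = Real.exp (d * Real.log (1 + ε)) := by
    rw [mul_comm, Real.exp_mul, Real.exp_log (by linarith), Real.rpow_natCast]
  rw [h1]
  apply Real.exp_le_exp.2
  rw [mul_comm]
  exact mul_le_mul_of_nonneg_left (min_le_left _ _) (Nat.cast_nonneg d)

end Pool.Agent.TH84.HC
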