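import Mathlib
import Pool.Agent.PZ871.Defs

/-!
# Illumination, covering, and the local structure of convex bodies
-/

set_option autoImplicit false

open Filter Topology
open scoped RealInnerProductSpace

namespace Pool.Agent.TH84.HC

open Pool.Agent.PZ871 (E)

/-- `K` is covered by at most `N` translates of its interior -/
def CoveredBy {d : ℕ} (N : ℝ) (K : Set (E d)) : Prop :=
  ∃ T : Finset (E d), (T.card : ℝ) ≤ N ∧ K ⊆ ⋃ t ∈ T, (fun x => t + x) '' interior K

/-- `x` is a corner of order `m` of `K`: there are `m` nonzero functionals attaining their maximum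
over `K` at `x` such that every direction on which they are all negative points from `x` into the
interior of `K` -/
def IsCorner {d : ℕ} (m : ℕ) (K : Set (E d)) (x : E d) : Prop :=
  ∃ g : Fin m → (E d →L[ℝ] ℝ),
    (∀ i, g i ≠ 0 ∧ ∀ z ∈ K, g i z ≤ g i x) ∧
    ∀ v : E d, (∀ i, g i v < 0) → ∃ t : ℝ, 0 < t ∧ x + t • v ∈ interior K

/-- moving along an illuminating direction -/
theorem seg_int {d : ℕ} {K : Set (E d)} (hK : Convex ℝ K) {x v : E d} (hx : x ∈ K) {T t : ℝ}
    (ht : 0 < t) (htT : t ≤ T) (h : x + T • v ∈ interior K) : x + t • v ∈ interior K := by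
  have hT : 0 < T := lt_of_lt_of_le ht htT
  have e : x + t • v = (1 - t / T) • x + (t / T) • (x + T • v) := by
    rw [smul_add, smul_smul, div_mul_cancel₀ _ hT.ne', sub_smul, one_smul]
    abel
  rw [e]
  exact hK.combo_self_interior_mem_interior hx h
    (sub_nonneg.2 ((div_le_one hT).2 htT)) (div_pos ht hT) (by ring)

theorem small_int {d : ℕ} {K : Set (E d)} {x : E d} (v : E d) (hx : x ∈ interior K) :
    ∃ t : ℝ, 0 < t ∧ x + t • v ∈ interior K := by
  have hc : Continuous (fun t : ℝ => x + t • v) := by fun_prop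
  have h0 : (fun t : ℝ => x + t • v) 0 ∈ interior K := by simpa using hx
  have h1 : ∀ᶠ t in 𝓝 (0:ℝ), x + t • v ∈ interior K :=
    hc.continuousAt.eventually (isOpen_interior.mem_nhds h0)
  have h2 : ∀ᶠ t in 𝓝[>] (0:ℝ), x + t • v ∈ interior K := h1.filter_mono nhdsWithin_le_nhds
  obtain ⟨t, ht, ht2⟩ := (h2.and self_mem_nhdsWithin).exists
  exact ⟨t, ht2, ht⟩

/-- illumination gives covering -/
theorem cover_of_illum {d : ℕ} {K : Set (E d)} (hK : Convex ℝ K) (hc : IsCompact K)
    (U : Finset (E d)) (hU : U.Nonempty)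
    (h : ∀ x ∈ frontier K, ∃ u ∈ U, ∃ t : ℝ, 0 < t ∧ x + t • u ∈ interior K) :
    CoveredBy (U.card : ℝ) K := by
  classical
  have h1 : ∀ x ∈ K, ∃ u ∈ U, ∃ t : ℝ, 0 < t ∧ x + t • u ∈ interior K := by
    intro x hx
    by_cases hxi : x ∈ interior K
    · obtain ⟨u, hu⟩ := hU
      exact ⟨u, hu, small_int u hxi⟩
    · exact h x ⟨subset_closure hx, hxi⟩
  let O : ℕ → Set (E d) := fun n => ⋃ u ∈ U, {x | x + (1 / ((n:ℝ) + 1)) • u ∈ interior K}
  have hO : ∀ n, IsOpen (O n) := by
    intro n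
    refine isOpen_biUnion fun u _ => ?_
    exact isOpen_interior.preimage (by fun_prop : Continuous fun x : E d => x + (1 / ((n:ℝ) + 1)) • u)
  have hcov : K ⊆ ⋃ n, O n := by
    intro x hx
    obtain ⟨u, hu, t, ht, hxt⟩ := h1 x hx
    obtain ⟨n, hn⟩ := exists_nat_one_div_lt ht
    refine Set.mem_iUnion.2 ⟨n, Set.mem_iUnion₂.2 ⟨u, hu, ?_⟩⟩
    exact seg_int hK hx (by positivity) hn.le hxt
  obtain ⟨s, hs⟩ := hc.elim_finite_subcover O hO hcov
  set N : ℕ := s.sup id with hN
  have hKN : K ⊆ O N := by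
    intro x hx
    obtain ⟨n, hn, hxn⟩ := Set.mem_iUnion₂.1 (hs hx)
    obtain ⟨u, hu, hxu⟩ := Set.mem_iUnion₂.1 hxn
    refine Set.mem_iUnion₂.2 ⟨u, hu, ?_⟩
    have hnN : n ≤ N := Finset.le_sup (f := id) hn
    have hle : (1:ℝ) / ((N:ℝ) + 1) ≤ 1 / ((n:ℝ) + 1) := by
      apply one_div_le_one_div_of_le (by positivity)
      have : (n:ℝ) ≤ N := by exact_mod_cast hnN
      linarith
    exact seg_int hK hx (by positivity) hle hxu
  refine ⟨U.image fun u => -((1 / ((N:ℝ) + 1)) • u), ?_, ?_⟩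
  · exact_mod_cast Finset.card_image_le
  · intro x hx
    obtain ⟨u, hu, hxu⟩ := Set.mem_iUnion₂.1 (hKN hx)
    refine Set.mem_iUnion₂.2 ⟨_, Finset.mem_image_of_mem _ hu, x + (1 / ((N:ℝ) + 1)) • u, hxu, ?_⟩
    simp

/-- the interior is strictly below a supporting functional, hence so is the whole body weakly -/
theorem le_of_int {d : ℕ} {K : Set (E d)} (hK : Convex ℝ K) (hi : (interior K).Nonempty)
    (f : E d →L[ℝ] ℝ) (u : ℝ) (h : ∀ a ∈ interior K, f a < u) : ∀ z ∈ K, f z ≤ u := by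
  intro z hz
  have h1 : z ∈ closure (interior K) := by
    rw [hK.closure_interior_eq_closure_of_nonempty_interior hi]
    exact subset_closure hz
  have h2 : closure (interior K) ⊆ {y | f y ≤ u} :=
    closure_minimal (fun a ha => (h a ha).le) (isClosed_le f.continuous continuous_const)
  exact h2 h1

/-- separation of a boundary ray from the interior -/
theorem sep_ray {d : ℕ} {K : Set (E d)} (hK : Convex ℝ K) (hi : (interior K).Nonempty) {x : E d}
    (hxK : x ∈ K) (v : E d) (hcon : ∀ t : ℝ, 0 < t → x + t • v ∉ interior K) :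
    ∃ f : E d →L[ℝ] ℝ, (∀ a ∈ interior K, f a < f x) ∧ (∀ z ∈ K, f z ≤ f x) ∧ 0 ≤ f v := by
  -- the ray
  let S : Set (E d) := (fun t : ℝ => x + t • v) '' Set.Ioi 0
  have hS : Convex ℝ S := by
    rintro _ ⟨s, hs, rfl⟩ _ ⟨t, ht, rfl⟩ a b ha hb hab
    refine ⟨a * s + b * t, ?_, ?_⟩
    · have hs' : 0 < s := hs
      have ht' : 0 < t := ht
      show 0 < a * s + b * t
      rcases eq_or_lt_of_le ha with h0 | h0
      · have : b = 1 := by linarith
        rw [← h0, this]; linarith
      · have := mul_pos h0 hs'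
        have := mul_nonneg hb ht'.le
        linarith
    · simp only [smul_add, add_smul, smul_smul]
      have : x = a • x + b • x := by rw [← add_smul, hab, one_smul]
      nth_rewrite 1 [this]
      abel
  have hdis : Disjoint (interior K) S := by
    rw [Set.disjoint_right]
    rintro _ ⟨t, ht, rfl⟩
    exact hcon t ht
  obtain ⟨f, u, hfu, huS⟩ := geometric_hahn_banach_open hK.interior isOpen_interior hS hdis
  have hfx : f x ≤ u := le_of_int hK hi f u hfu x hxK
  have hlin : ∀ t : ℝ, 0 < t → u ≤ f x + t * f v := by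
    intro t ht
    have := huS _ ⟨t, ht, rfl⟩
    simpa using this
  have hux : u ≤ f x := by
    have hcont : Continuous (fun t : ℝ => f x + t * f v) := by fun_prop
    have ht : Tendsto (fun t : ℝ => f x + t * f v) (𝓝[>] 0) (𝓝 (f x + 0 * f v)) :=
      (hcont.tendsto 0).mono_left nhdsWithin_le_nhds
    rw [zero_mul, add_zero] at ht
    exact ge_of_tendsto ht (by filter_upwards [self_mem_nhdsWithin] with t ht using hlin t ht)
  refine ⟨f, fun a ha => (hfu a ha).trans_le hux,
    fun z hz => (le_of_int hK hi f u hfu z hz).trans hux, ?_⟩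
  have := hlin 1 one_pos
  linarith

/-- a boundary point whose normal cone is generated by `m` functionals is a corner of order `m` -/
theorem corner_of_normal {d m : ℕ} {K : Set (E d)} (hK : Convex ℝ K) (hc : IsClosed K)
    (hi : (interior K).Nonempty) {x : E d} (hx : x ∈ frontier K) (g : Fin m → (E d →L[ℝ] ℝ))
    (hg : ∀ i, ∀ z ∈ K, g i z ≤ g i x)
    (hgen : ∀ n : E d →L[ℝ] ℝ, (∀ z ∈ K, n z ≤ n x) → ∃ c : Fin m → ℝ, (∀ i, 0 ≤ c i) ∧
        n = ∑ i, c i • g i) : IsCorner m K x := by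
  classical
  have hxK : x ∈ K := hc.frontier_subset hx
  have hxi : x ∉ interior K := hx.2
  obtain ⟨a0, ha0⟩ := hi
  -- a nonzero generator
  have hne : ∃ i0, g i0 ≠ 0 := by
    obtain ⟨f, hf⟩ := geometric_hahn_banach_open_point hK.interior isOpen_interior hxi
    obtain ⟨c, hc0, hfc⟩ := hgen f (le_of_int hK ⟨a0, ha0⟩ f _ hf)
    by_contra hcon
    push Not at hcon
    have hf0 : f = 0 := by
      rw [hfc]
      exact Finset.sum_eq_zero fun i _ => by rw [hcon i, smul_zero]
    have := hf a0 ha0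
    rw [hf0] at this
    simp at this
  obtain ⟨i0, hi0⟩ := hne
  refine ⟨fun i => if g i = 0 then g i0 else g i, ?_, ?_⟩
  · intro i
    by_cases hgi : g i = 0
    · simp only [if_pos hgi]
      exact ⟨hi0, hg i0⟩
    · simp only [if_neg hgi]
      exact ⟨hgi, hg i⟩
  · intro v hv
    by_contra hcon
    push Not at hcon
    obtain ⟨f, hfu, hfz, hfv⟩ := sep_ray hK ⟨a0, ha0⟩ hxK v hcon
    obtain ⟨c, hc0, hfc⟩ := hgen f hfz
    have hterm : ∀ i, c i * g i v ≤ 0 := by
      intro i
      by_cases hgi : g i = 0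
      · rw [hgi]; simp
      · have := hv i
        simp only [if_neg hgi] at this
        exact mul_nonpos_of_nonneg_of_nonpos (hc0 i) this.le
    have hsum : f v = ∑ i, c i * g i v := by
      rw [hfc]
      simp
    have hzero : ∀ i, c i * g i v = 0 := by
      have h1 : ∑ i, c i * g i v = 0 :=
        le_antisymm (Finset.sum_nonpos fun i _ => hterm i) (hsum ▸ hfv)
      intro i
      exact (Finset.sum_eq_zero_iff_of_nonpos fun i _ => hterm i).1 h1 i (Finset.mem_univ i)
    have hf0 : f = 0 := by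
      rw [hfc]
      refine Finset.sum_eq_zero fun i _ => ?_
      by_cases hgi : g i = 0
      · rw [hgi, smul_zero]
      · have h2 := hv i
        simp only [if_neg hgi] at h2
        rcases mul_eq_zero.1 (hzero i) with h3 | h3
        · rw [h3, zero_smul]
        · exact absurd h3 h2.ne
    have h3 := hfu a0 ha0
    rw [hf0] at h3
    simp at h3

/-- enumeration of a small nonempty finite set -/
theorem enum {α : Type*} (s : Finset α) (hs : s.Nonempty) (m : ℕ) (hm : s.card ≤ m) :
    ∃ e : Fin m → α, (∀ i, e i ∈ s) ∧ ∀ a ∈ s, ∃ i, e i = a := by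
  classical
  obtain ⟨a0, ha0⟩ := hs
  refine ⟨fun i => if h : (i : ℕ) < s.card then (s.equivFin.symm ⟨i, h⟩ : α) else a0, ?_, ?_⟩
  · intro i
    by_cases h : (i : ℕ) < s.card
    · simp only [dif_pos h]
      exact (s.equivFin.symm ⟨i, h⟩).2
    · simp only [dif_neg h]
      exact ha0
  · intro a ha
    set j := s.equivFin ⟨a, ha⟩ with hj
    refine ⟨⟨j, lt_of_lt_of_le j.2 hm⟩, ?_⟩
    have h : (j : ℕ) < s.card := j.2
    simp only [dif_pos h]
    have : s.equivFin.symm ⟨j, h⟩ = ⟨a, ha⟩ := by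
      rw [Equiv.symm_apply_eq]
    rw [this]

/-- finite intersections of sets with corners of order one -/
theorem corner_iInter {d m N : ℕ} (C : Fin N → Set (E d)) (hC : ∀ j, Convex ℝ (C j))
    (hcl : ∀ j, IsClosed (C j)) (h1 : ∀ j, ∀ x ∈ frontier (C j), IsCorner 1 (C j) x)
    {x : E d} (hx : x ∈ frontier (⋂ j, C j))
    (hm : {j | x ∈ frontier (C j)}.ncard ≤ m) : IsCorner m (⋂ j, C j) x := by
  classical
  have hclI : IsClosed (⋂ j, C j) := isClosed_iInter hcl
  have hxK : x ∈ ⋂ j, C j := hclI.frontier_subset hx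
  have hxj : ∀ j, x ∈ C j := Set.mem_iInter.1 hxK
  have hint : interior (⋂ j, C j) = ⋂ j, interior (C j) := interior_iInter_of_finite C
  set s : Finset (Fin N) := Finset.univ.filter fun j => x ∈ frontier (C j) with hs
  have hscard : s.card ≤ m := by
    rwa [Set.ncard_eq_toFinset_card' , Set.toFinset_ofPred] at hm
  have hsne : s.Nonempty := by
    by_contra hcon
    rw [Finset.not_nonempty_iff_eq_empty, Finset.filter_eq_empty_iff] at hcon
    apply hx.2
    rw [hint]
    refine Set.mem_iInter.2 fun j => ?_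
    by_contra hj
    exact hcon (Finset.mem_univ j) ⟨subset_closure (hxj j), hj⟩
  obtain ⟨e, he1, he2⟩ := enum s hsne m hscard
  have hfr : ∀ i, x ∈ frontier (C (e i)) := fun i => (Finset.mem_filter.1 (he1 i)).2
  choose g hg1 hg2 using fun i => h1 (e i) x (hfr i)
  refine ⟨fun i => g i 0, ?_, ?_⟩
  · intro i
    refine ⟨(hg1 i 0).1, fun z hz => (hg1 i 0).2 z (Set.mem_iInter.1 hz _)⟩
  · intro v hv
    have h2 : ∀ j, ∃ t : ℝ, 0 < t ∧ x + t • v ∈ interior (C j) := by
      intro j
      by_cases hj : x ∈ frontier (C j)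
      · obtain ⟨i, hi⟩ := he2 j (Finset.mem_filter.2 ⟨Finset.mem_univ j, hj⟩)
        rw [← hi]
        refine hg2 i v fun k => ?_
        rw [Subsingleton.elim k 0]
        exact hv i
      · apply small_int
        by_contra hj2
        exact hj ⟨subset_closure (hxj j), hj2⟩
    choose t ht ht2 using h2
    have hNne : (Finset.univ : Finset (Fin N)).Nonempty := by
      obtain ⟨j, hj⟩ := hsne
      exact ⟨j, Finset.mem_univ j⟩
    refine ⟨Finset.univ.inf' hNne t, ?_, ?_⟩
    · rw [Finset.lt_inf'_iff]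
      exact fun j _ => ht j
    · rw [hint]
      refine Set.mem_iInter.2 fun j => ?_
      refine seg_int (hC j) (hxj j) ?_ (Finset.inf'_le _ (Finset.mem_univ j)) (ht2 j)
      rw [Finset.lt_inf'_iff]
      exact fun j _ => ht j

/-- a half-space -/
theorem corner_halfspace {d : ℕ} (a : E d) (ha : a ≠ 0) (b : ℝ) :
    ∀ x ∈ frontier {x : E d | ⟪a, x⟫ ≤ b}, IsCorner 1 {x : E d | ⟪a, x⟫ ≤ b} x := by
  intro x hx
  have hcl : IsClosed {x : E d | ⟪a, x⟫ ≤ b} := isClosed_le (by fun_prop) continuous_const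
  have hop : IsOpen {x : E d | ⟪a, x⟫ < b} := isOpen_lt (by fun_prop) continuous_const
  have hsub : {x : E d | ⟪a, x⟫ < b} ⊆ interior {x : E d | ⟪a, x⟫ ≤ b} :=
    interior_maximal (fun y hy => by
      have h : ⟪a, y⟫ < b := hy
      exact h.le) hop
  have hxle : ⟪a, x⟫ ≤ b := hcl.frontier_subset hx
  have hxeq : ⟪a, x⟫ = b := by
    by_contra hne
    exact hx.2 (hsub (lt_of_le_of_ne hxle hne))
  refine ⟨fun _ => innerSL ℝ a, ?_, ?_⟩
  · intro i
    refine ⟨?_, ?_⟩
    · intro h0
      apply ha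
      have h0' : innerSL ℝ a = 0 := h0
      have h1 : innerSL ℝ a a = 0 := by rw [h0']; rfl
      rw [innerSL_apply_apply] at h1
      exact inner_self_eq_zero.1 h1
    · intro z hz
      rw [innerSL_apply_apply, innerSL_apply_apply, hxeq]
      exact hz
  · intro v hv
    have h0 := hv 0
    rw [innerSL_apply_apply] at h0
    refine ⟨1, one_pos, hsub ?_⟩
    show ⟪a, x + (1:ℝ) • v⟫ < b
    rw [one_smul, inner_add_right, hxeq]
    linarith

/-- a ball -/
theorem corner_ball {d : ℕ} (c : E d) (ρ : ℝ) (hρ : 0 < ρ) :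
    ∀ x ∈ frontier (Metric.closedBall c ρ), IsCorner 1 (Metric.closedBall c ρ) x := by
  intro x hx
  have hsub : Metric.ball c ρ ⊆ interior (Metric.closedBall c ρ) :=
    interior_maximal Metric.ball_subset_closedBall Metric.isOpen_ball
  have hxle : ‖x - c‖ ≤ ρ := by
    have : x ∈ Metric.closedBall c ρ := Metric.isClosed_closedBall.frontier_subset hx
    rwa [Metric.mem_closedBall, dist_eq_norm] at this
  have hxeq : ‖x - c‖ = ρ := by
    by_contra hne
    apply hx.2
    apply hsub
    rw [Metric.mem_ball, dist_eq_norm]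
    exact lt_of_le_of_ne hxle hne
  refine ⟨fun _ => innerSL ℝ (x - c), ?_, ?_⟩
  · intro i
    refine ⟨?_, ?_⟩
    · intro h0
      have h0' : innerSL ℝ (x - c) = 0 := h0
      have h1 : innerSL ℝ (x - c) (x - c) = 0 := by rw [h0']; rfl
      rw [innerSL_apply_apply, real_inner_self_eq_norm_sq, hxeq] at h1
      have : ρ ^ 2 ≠ 0 := by positivity
      exact this h1
    · intro z hz
      rw [innerSL_apply_apply, innerSL_apply_apply]
      rw [Metric.mem_closedBall, dist_eq_norm] at hz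
      have h1 : ⟪x - c, z - c⟫ ≤ ⟪x - c, x - c⟫ := by
        rw [real_inner_self_eq_norm_sq, sq]
        refine (real_inner_le_norm _ _).trans ?_
        rw [hxeq]
        exact mul_le_mul_of_nonneg_left hz hρ.le
      have e1 : ⟪x - c, z - c⟫ = ⟪x - c, z⟫ - ⟪x - c, c⟫ := inner_sub_right _ _ _
      have e2 : ⟪x - c, x - c⟫ = ⟪x - c, x⟫ - ⟪x - c, c⟫ := inner_sub_right _ _ _
      rw [e1, e2] at h1
      linarith
  · intro v hv
    have h0 := hv 0
    rw [innerSL_apply_apply] at h0
    set β : ℝ := -⟪x - c, v⟫ with hβ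
    have hβ0 : 0 < β := by rw [hβ]; linarith
    refine ⟨β / (‖v‖ ^ 2 + 1), by positivity, hsub ?_⟩
    rw [Metric.mem_ball, dist_eq_norm]
    set t : ℝ := β / (‖v‖ ^ 2 + 1) with ht
    have ht0 : 0 < t := by rw [ht]; positivity
    have e : x + t • v - c = (x - c) + t • v := by abel
    have h1 : ‖x + t • v - c‖ ^ 2 < ρ ^ 2 := by
      rw [e, norm_add_sq_real, inner_smul_right, norm_smul, hxeq, mul_pow, Real.norm_eq_abs, sq_abs]
      have h2 : t * (‖v‖ ^ 2 + 1) = β := by rw [ht]; field_simp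
      have h3 : ⟪x - c, v⟫ = -β := by rw [hβ]; ring
      rw [h3]
      nlinarith [mul_pos ht0 hβ0, mul_pos ht0 ht0]
    exact lt_of_pow_lt_pow_left₀ 2 hρ.le h1

/-- every boundary point is illuminated by all directions that illuminate a suitable extreme
point -/
theorem extreme_dom {d : ℕ} {K : Set (E d)} (hK : Convex ℝ K) (hc : IsCompact K)
    (hi : (interior K).Nonempty) {x : E d} (hx : x ∈ frontier K) :
    ∃ v ∈ Set.extremePoints ℝ K, ∀ y : E d, (∃ t : ℝ, 0 < t ∧ v + t • y ∈ interior K) →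
      ∃ t : ℝ, 0 < t ∧ x + t • y ∈ interior K := by
  have hxK : x ∈ K := hc.isClosed.frontier_subset hx
  let F : Set (E d) := K ∩ ⋂ n : {n : E d →L[ℝ] ℝ // ∀ z ∈ K, n z ≤ n x}, {z | n.1 z = n.1 x}
  have hFc : IsCompact F := hc.inter_right
    (isClosed_iInter fun n => isClosed_eq n.1.continuous continuous_const)
  have hFx : x ∈ F := ⟨hxK, Set.mem_iInter.2 fun n => rfl⟩
  have hF : ∀ z, z ∈ F ↔ z ∈ K ∧ ∀ n : E d →L[ℝ] ℝ, (∀ w ∈ K, n w ≤ n x) → n z = n x := by
    intro z
    constructor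
    · rintro ⟨h1, h2⟩
      exact ⟨h1, fun n hn => Set.mem_iInter.1 h2 ⟨n, hn⟩⟩
    · rintro ⟨h1, h2⟩
      exact ⟨h1, Set.mem_iInter.2 fun n => h2 n.1 n.2⟩
  obtain ⟨v, hv⟩ := hFc.extremePoints_nonempty ⟨x, hFx⟩
  rw [mem_extremePoints] at hv
  obtain ⟨hvF, hvext⟩ := hv
  have hvK : v ∈ K := ((hF v).1 hvF).1
  have hvn : ∀ n : E d →L[ℝ] ℝ, (∀ w ∈ K, n w ≤ n x) → n v = n x := ((hF v).1 hvF).2
  refine ⟨v, ?_, ?_⟩
  · rw [mem_extremePoints]
    refine ⟨hvK, fun x1 h1 x2 h2 hseg => ?_⟩
    have hseg' := hseg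
    obtain ⟨a, b, ha, hb, hab, hv'⟩ := hseg
    have key : ∀ n : E d →L[ℝ] ℝ, (∀ w ∈ K, n w ≤ n x) → n x1 = n x ∧ n x2 = n x := by
      intro n hn
      have e : a * n x1 + b * n x2 = n x := by
        rw [← hvn n hn, ← hv', map_add, map_smul, map_smul, smul_eq_mul, smul_eq_mul]
      have l1 := hn x1 h1
      have l2 := hn x2 h2
      have e2 : a * n x + b * n x = n x := by rw [← add_mul, hab, one_mul]
      constructor
      · by_contra hne
        have : n x1 < n x := lt_of_le_of_ne l1 hne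
        nlinarith
      · by_contra hne
        have : n x2 < n x := lt_of_le_of_ne l2 hne
        nlinarith
    exact hvext x1 ((hF x1).2 ⟨h1, fun n hn => (key n hn).1⟩) x2
      ((hF x2).2 ⟨h2, fun n hn => (key n hn).2⟩) hseg'
  · rintro y ⟨t, ht, hty⟩
    by_contra hcon
    push Not at hcon
    obtain ⟨f, hf1, hf2, hf3⟩ := sep_ray hK hi hxK y hcon
    have h1 := hf1 _ hty
    have h2 := hvn f hf2
    rw [map_add, map_smul, smul_eq_mul, h2] at h1
    nlinarith [mul_nonneg ht.le hf3]

/-- an extreme point of a body in positive dimension is a boundary point -/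
theorem extreme_frontier {d : ℕ} (hd : 1 ≤ d) {K : Set (E d)} {x : E d}
    (hx : x ∈ Set.extremePoints ℝ K) : x ∈ frontier K := by
  rw [mem_extremePoints] at hx
  obtain ⟨hxK, hext⟩ := hx
  refine ⟨subset_closure hxK, fun hxi => ?_⟩
  set e : E d := EuclideanSpace.single (⟨0, hd⟩ : Fin d) (1:ℝ) with he
  have he0 : e ≠ 0 := by
    intro h0
    have : ‖e‖ = 1 := by rw [he]; simp
    rw [h0, norm_zero] at this
    exact zero_ne_one this
  have hc : Continuous (fun t : ℝ => x + t • e) := by fun_prop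
  have hc2 : Continuous (fun t : ℝ => x - t • e) := by fun_prop
  have h1 : ∀ᶠ t in 𝓝 (0:ℝ), x + t • e ∈ interior K :=
    hc.continuousAt.eventually (isOpen_interior.mem_nhds (by simpa using hxi))
  have h2 : ∀ᶠ t in 𝓝 (0:ℝ), x - t • e ∈ interior K :=
    hc2.continuousAt.eventually (isOpen_interior.mem_nhds (by simpa using hxi))
  have h3 : ∀ᶠ t in 𝓝[>] (0:ℝ), x + t • e ∈ interior K ∧ x - t • e ∈ interior K :=
    (h1.and h2).filter_mono nhdsWithin_le_nhds
  obtain ⟨t, ⟨ht1, ht2⟩, ht⟩ := (h3.and self_mem_nhdsWithin).exists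
  have ht' : (0:ℝ) < t := ht
  have h4 := (hext (x + t • e) (interior_subset ht1) (x - t • e) (interior_subset ht2)
    ⟨1/2, 1/2, by norm_num, by norm_num, by norm_num, by
      rw [← smul_add]
      have : x + t • e + (x - t • e) = (2:ℝ) • x := by
        rw [two_smul]; abel
      rw [this, smul_smul]
      norm_num⟩).1
  have h5 : t • e = 0 := by
    have : x + t • e = x + 0 := by rw [h4, add_zero]
    exact add_left_cancel this
  rcases smul_eq_zero.1 h5 with h6 | h6
  · exact ht'.ne' h6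
  · exact he0 h6

/-- every point of a body is illuminated towards an interior point -/
theorem toward_int {d : ℕ} {K : Set (E d)} (hK : Convex ℝ K) {a x : E d} (ha : a ∈ interior K)
    (hx : x ∈ K) : ∃ t : ℝ, 0 < t ∧ x + t • (a - x) ∈ interior K := by
  refine ⟨1, one_pos, ?_⟩
  rw [one_smul, add_sub_cancel]
  exact ha

end Pool.Agent.TH84.HC
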