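import Mathlib
import Pool.Agent.PZ871.Defs
import Pool.Agent.PZ871.Gdens
import Pool.Agent.PZ871.Grot
import Pool.Agent.H902R3.ZA.LBM
import Pool.Agent.H902R3.ZA.PLA
import Pool.Agent.H902R3.ZA.PLN

/-!
# Gaussian tools on Euclidean space: Prekopa-Leindler, Cameron-Martin, reflection, resampling
-/

set_option autoImplicit false

open MeasureTheory ProbabilityTheory
open scoped RealInnerProductSpace ENNReal

namespace Pool.Agent.TH84.HC

open Pool.Agent.PZ871 (E gm)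

/-- the standard Gaussian measure on the line -/
noncomputable abbrev g1 : Measure ℝ := gaussianReal 0 1

instance gm_prob (n : ℕ) : IsProbabilityMeasure (gm n) := by unfold gm; infer_instance

/-- one dimensional Gaussian Prekopa-Leindler inequality -/
theorem pl1 : Pool.Agent.H902R3.ZA.S_PLA :=
  Pool.Agent.H902R3.ZA.PLA_ok Pool.Agent.H902R3.ZA.LBM_ok

/-- lower integrals against the Gaussian measure of `E n` in coordinates -/
theorem lint_pi (n : ℕ) (f : E n → ℝ≥0∞) (hf : Measurable f) :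
    ∫⁻ x, f x ∂(gm n) = ∫⁻ z, f (WithLp.toLp 2 z) ∂(Pool.Agent.H902R3.ZA.gm n) := by
  have hmeas : Measurable (WithLp.toLp 2 : (Fin n → ℝ) → E n) :=
    (PiLp.volume_preserving_toLp (Fin n)).measurable
  have h : gm n = (Pool.Agent.H902R3.ZA.gm n).map (WithLp.toLp 2 : (Fin n → ℝ) → E n) := by
    unfold gm Pool.Agent.H902R3.ZA.gm
    rw [← ProbabilityTheory.map_pi_eq_stdGaussian]
  rw [h, lintegral_map hf hmeas]

/-- Gaussian Prekopa-Leindler inequality on `E n`, general weights -/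
theorem pln (n : ℕ) (s : ℝ) (hs : 0 < s) (hs1 : s < 1) (f g h : E n → ℝ≥0∞)
    (hf : Measurable f) (hg : Measurable g) (hh : Measurable h) (f1 : ∀ x, f x ≤ 1)
    (g1' : ∀ x, g x ≤ 1)
    (H : ∀ x y : E n, f x ^ s * g y ^ (1 - s) ≤ h (s • x + (1 - s) • y)) :
    (∫⁻ x, f x ∂(gm n)) ^ s * (∫⁻ x, g x ∂(gm n)) ^ (1 - s) ≤ ∫⁻ x, h x ∂(gm n) := by
  have hmeas : Measurable (WithLp.toLp 2 : (Fin n → ℝ) → E n) :=
    (PiLp.volume_preserving_toLp (Fin n)).measurable
  rw [lint_pi n f hf, lint_pi n g hg, lint_pi n h hh]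
  refine Pool.Agent.H902R3.ZA.PLN_ok pl1 n s hs hs1 _ _ _ (hf.comp hmeas) (hg.comp hmeas)
    (hh.comp hmeas) (fun x => f1 _) (fun x => g1' _) ?_
  intro x y
  have h1 := H (WithLp.toLp 2 x) (WithLp.toLp 2 y)
  have e : s • (WithLp.toLp 2 x : E n) + (1 - s) • (WithLp.toLp 2 y : E n) =
      WithLp.toLp 2 (fun i => s * x i + (1 - s) * y i) := by
    ext i
    simp
  rwa [e] at h1

/-- density form -/
theorem glint (n : ℕ) (f : E n → ℝ≥0∞) (hf : Measurable f) :
    ∫⁻ x, f x ∂(gm n) =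
      ∫⁻ x, ENNReal.ofReal ((2 * Real.pi) ^ (-(n:ℝ)/2) * Real.exp (-‖x‖^2/2)) * f x := by
  rw [Pool.Agent.PZ871.M_gdens.gdens, lintegral_withDensity_eq_lintegral_mul _ (by fun_prop) hf]
  rfl

/-- Cameron-Martin formula for lower integrals -/
theorem cm_lint (n : ℕ) (b : E n) (f : E n → ℝ≥0∞) (hf : Measurable f) :
    ∫⁻ g, f (g + b) ∂(gm n) =
      ∫⁻ g, ENNReal.ofReal (Real.exp (⟪b, g⟫ - ‖b‖^2/2)) * f g ∂(gm n) := by
  rw [glint n (fun g => f (g + b)) (hf.comp (measurable_add_const b)), glint n _ (by fun_prop),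
    ← lintegral_add_right_eq_self (μ := (volume : Measure (E n)))
      (fun x => ENNReal.ofReal ((2 * Real.pi) ^ (-(n:ℝ)/2) * Real.exp (-‖x‖^2/2)) *
        (ENNReal.ofReal (Real.exp (⟪b, x⟫ - ‖b‖^2/2)) * f x)) b]
  refine lintegral_congr fun x => ?_
  rw [← mul_assoc, ← ENNReal.ofReal_mul (by positivity)]
  congr 2
  rw [mul_assoc, ← Real.exp_add]
  congr 2
  rw [norm_add_sq_real, inner_add_right, real_inner_self_eq_norm_sq, real_inner_comm x b]
  ring

/-- reflection invariance -/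
theorem mp_neg (n : ℕ) : MeasurePreserving (fun x : E n => -x) (gm n) (gm n) := by
  refine ⟨measurable_neg, ?_⟩
  have := ProbabilityTheory.stdGaussian_map (E := E n) (LinearIsometryEquiv.neg ℝ (E := E n))
  exact this

theorem lint_neg (n : ℕ) (f : E n → ℝ≥0∞) (hf : Measurable f) :
    ∫⁻ x, f (-x) ∂(gm n) = ∫⁻ x, f x ∂(gm n) := (mp_neg n).lintegral_comp hf

/-- replacing the `φ` component of a Gaussian vector by an independent one -/
theorem resample_mp (n : ℕ) (φ : E n) (hφ : ‖φ‖ = 1) :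
    MeasurePreserving (fun p : E n × ℝ => p.1 + (p.2 - ⟪p.1, φ⟫) • φ) ((gm n).prod g1) (gm n) := by
  have hm : Measurable (fun p : E n × ℝ => p.1 + (p.2 - ⟪p.1, φ⟫) • φ) := by fun_prop
  refine ⟨hm, ?_⟩
  haveI : IsProbabilityMeasure (((gm n).prod g1).map
      (fun p : E n × ℝ => p.1 + (p.2 - ⟪p.1, φ⟫) • φ)) :=
    Measure.isProbabilityMeasure_map hm.aemeasurable
  apply Measure.ext_of_charFun
  funext v
  have h1 : charFun (((gm n).prod g1).map (fun p : E n × ℝ => p.1 + (p.2 - ⟪p.1, φ⟫) • φ)) v =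
      charFun (gm n) (v - ⟪v, φ⟫ • φ) * charFun g1 ⟪v, φ⟫ := by
    rw [charFun_apply, integral_map hm.aemeasurable (by fun_prop), charFun_apply, charFun_apply,
      ← integral_prod_mul]
    refine integral_congr_ae (Filter.Eventually.of_forall fun p => ?_)
    simp only
    rw [← Complex.exp_add]
    congr 1
    rw [← add_mul, ← Complex.ofReal_add]
    congr 2
    rw [inner_add_left, inner_sub_right, inner_smul_left, inner_smul_right]
    simp only [conj_trivial]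
    have : inner ℝ p.2 ⟪v, φ⟫ = ⟪v, φ⟫ * p.2 := by
      simp
    rw [this, real_inner_comm φ v]
    ring
  rw [h1]
  unfold gm
  rw [charFun_stdGaussian, charFun_stdGaussian, charFun_gaussianReal, ← Complex.exp_add]
  congr 1
  have h2 : ‖v - ⟪v, φ⟫ • φ‖ ^ 2 = ‖v‖ ^ 2 - ⟪v, φ⟫ ^ 2 := by
    rw [norm_sub_sq_real, norm_smul, inner_smul_right, hφ]
    simp only [Real.norm_eq_abs, mul_one, sq_abs]
    ring
  have h3 : (‖v - ⟪v, φ⟫ • φ‖ : ℂ) ^ 2 = (‖v‖ : ℂ) ^ 2 - (⟪v, φ⟫ : ℂ) ^ 2 := by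
    exact_mod_cast congrArg (fun r : ℝ => (r : ℂ)) h2
  rw [h3]
  simp
  ring

theorem resample (n : ℕ) (φ : E n) (hφ : ‖φ‖ = 1) (f : E n → ℝ≥0∞) (hf : Measurable f) :
    ∫⁻ t, ∫⁻ w, f (w + (t - ⟪w, φ⟫) • φ) ∂(gm n) ∂g1 = ∫⁻ w, f w ∂(gm n) := by
  rw [← (resample_mp n φ hφ).lintegral_comp hf, lintegral_prod_symm]
  exact (hf.comp (resample_mp n φ hφ).measurable).aemeasurable

end Pool.Agent.TH84.HC
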