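import Pool.Agent.TH84.HC.Sidak

/-!
# The doubled half-line indicators
-/

set_option autoImplicit false

open MeasureTheory ProbabilityTheory
open scoped RealInnerProductSpace ENNReal

namespace Pool.Agent.TH84.HC

open Pool.Agent.PZ871 (E gm)

/-- the doubled indicators of the half-line `(-∞, s)` -/
noncomputable def hk (s : ℝ) : ℕ → ℝ → ℝ≥0∞
  | 0 => fun a => if a < s then 1 else 0
  | k + 1 => fun a => ∫⁻ b, hk s k ((a + b) / Real.sqrt 2) * hk s k ((a - b) / Real.sqrt 2) ∂g1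

theorem hk_zero (s a : ℝ) : hk s 0 a = if a < s then 1 else 0 := rfl

theorem hk_succ (s : ℝ) (k : ℕ) (a : ℝ) : hk s (k + 1) a =
    ∫⁻ b, hk s k ((a + b) / Real.sqrt 2) * hk s k ((a - b) / Real.sqrt 2) ∂g1 := rfl

theorem hk_meas (s : ℝ) (k : ℕ) : Measurable (hk s k) := by
  induction k with
  | zero => exact Measurable.ite measurableSet_Iio measurable_const measurable_const
  | succ k ih =>
    have h : Measurable (fun p : ℝ × ℝ =>
        hk s k ((p.1 + p.2) / Real.sqrt 2) * hk s k ((p.1 - p.2) / Real.sqrt 2)) :=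
      (ih.comp (by fun_prop)).mul (ih.comp (by fun_prop))
    exact h.lintegral_prod_right

theorem hk_le1 (s : ℝ) (k : ℕ) (a : ℝ) : hk s k a ≤ 1 := by
  induction k generalizing a with
  | zero =>
    rw [hk_zero]
    split_ifs
    · exact le_rfl
    · exact zero_le
  | succ k ih =>
    rw [hk_succ]
    calc ∫⁻ b, hk s k ((a + b) / Real.sqrt 2) * hk s k ((a - b) / Real.sqrt 2) ∂g1
        ≤ ∫⁻ _, 1 ∂g1 := lintegral_mono fun b => by
          calc hk s k ((a + b) / Real.sqrt 2) * hk s k ((a - b) / Real.sqrt 2) ≤ 1 * 1 :=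
                mul_le_mul' (ih _) (ih _)
            _ = 1 := one_mul 1
      _ = 1 := by simp

theorem sqrt2_pos : (0:ℝ) < Real.sqrt 2 := by positivity

theorem hk_anti (s : ℝ) (k : ℕ) : Antitone (hk s k) := by
  induction k with
  | zero =>
    intro a b hab
    rw [hk_zero, hk_zero]
    by_cases h : b < s
    · rw [if_pos h, if_pos (lt_of_le_of_lt hab h)]
    · rw [if_neg h]
      exact zero_le
  | succ k ih =>
    intro a b hab
    rw [hk_succ, hk_succ]
    refine lintegral_mono fun t => mul_le_mul' (ih ?_) (ih ?_)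
    · exact div_le_div_of_nonneg_right (by linarith) sqrt2_pos.le
    · exact div_le_div_of_nonneg_right (by linarith) sqrt2_pos.le

/-- general log-concavity -/
theorem hk_lc (s : ℝ) (k : ℕ) : ∀ θ : ℝ, 0 < θ → θ < 1 → ∀ x y,
    hk s k x ^ θ * hk s k y ^ (1 - θ) ≤ hk s k (θ * x + (1 - θ) * y) := by
  induction k with
  | zero =>
    intro θ h0 h1 x y
    have h1' : (0:ℝ) < 1 - θ := by linarith
    rw [hk_zero, hk_zero, hk_zero]
    by_cases hx : x < s
    · by_cases hy : y < s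
      · have : θ * x + (1 - θ) * y < s := by nlinarith
        rw [if_pos hx, if_pos hy, if_pos this]
        simp
      · rw [if_neg hy, ENNReal.zero_rpow_of_pos h1', mul_zero]
        exact zero_le
    · rw [if_neg hx, ENNReal.zero_rpow_of_pos h0, zero_mul]
      exact zero_le
  | succ k ih =>
    intro θ h0 h1 x y
    have h1' : (0:ℝ) < 1 - θ := by linarith
    rw [hk_succ, hk_succ, hk_succ]
    have hm : ∀ a : ℝ, Measurable (fun b : ℝ =>
        hk s k ((a + b) / Real.sqrt 2) * hk s k ((a - b) / Real.sqrt 2)) := fun a =>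
      ((hk_meas s k).comp (by fun_prop)).mul ((hk_meas s k).comp (by fun_prop))
    have hl : ∀ a b : ℝ,
        hk s k ((a + b) / Real.sqrt 2) * hk s k ((a - b) / Real.sqrt 2) ≤ 1 := fun a b => by
      calc hk s k ((a + b) / Real.sqrt 2) * hk s k ((a - b) / Real.sqrt 2) ≤ 1 * 1 :=
            mul_le_mul' (hk_le1 _ _ _) (hk_le1 _ _ _)
        _ = 1 := one_mul 1
    refine pl1 θ h0 h1 _ _ _ (hm x) (hm y) (hm _) (hl x) (hl y) ?_
    intro u v
    rw [ENNReal.mul_rpow_of_nonneg _ _ h0.le, ENNReal.mul_rpow_of_nonneg _ _ h1'.le]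
    have a1 := ih θ h0 h1 ((x + u) / Real.sqrt 2) ((y + v) / Real.sqrt 2)
    have a2 := ih θ h0 h1 ((x - u) / Real.sqrt 2) ((y - v) / Real.sqrt 2)
    have e1 : θ * ((x + u) / Real.sqrt 2) + (1 - θ) * ((y + v) / Real.sqrt 2) =
        (θ * x + (1 - θ) * y + (θ * u + (1 - θ) * v)) / Real.sqrt 2 := by ring
    have e2 : θ * ((x - u) / Real.sqrt 2) + (1 - θ) * ((y - v) / Real.sqrt 2) =
        (θ * x + (1 - θ) * y - (θ * u + (1 - θ) * v)) / Real.sqrt 2 := by ring
    rw [e1] at a1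
    rw [e2] at a2
    calc hk s k ((x + u) / Real.sqrt 2) ^ θ * hk s k ((x - u) / Real.sqrt 2) ^ θ *
          (hk s k ((y + v) / Real.sqrt 2) ^ (1 - θ) * hk s k ((y - v) / Real.sqrt 2) ^ (1 - θ))
        = (hk s k ((x + u) / Real.sqrt 2) ^ θ * hk s k ((y + v) / Real.sqrt 2) ^ (1 - θ)) *
          (hk s k ((x - u) / Real.sqrt 2) ^ θ * hk s k ((y - v) / Real.sqrt 2) ^ (1 - θ)) := by
          ring
      _ ≤ _ := mul_le_mul' a1 a2

/-- the integrand of the doubling is even and log-concave -/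
theorem hk_LC (s : ℝ) (k : ℕ) (a : ℝ) :
    LC (fun b : ℝ => hk s k ((a + b) / Real.sqrt 2) * hk s k ((a - b) / Real.sqrt 2)) where
  meas := ((hk_meas s k).comp (by fun_prop)).mul ((hk_meas s k).comp (by fun_prop))
  le1 := fun b => by
    calc hk s k ((a + b) / Real.sqrt 2) * hk s k ((a - b) / Real.sqrt 2) ≤ 1 * 1 :=
          mul_le_mul' (hk_le1 _ _ _) (hk_le1 _ _ _)
      _ = 1 := one_mul 1
  even := fun b => by
    rw [mul_comm, sub_neg_eq_add, ← sub_eq_add_neg]
  lc := fun θ h0 h1 u v => by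
    have h1' : (0:ℝ) < 1 - θ := by linarith
    rw [ENNReal.mul_rpow_of_nonneg _ _ h0.le, ENNReal.mul_rpow_of_nonneg _ _ h1'.le]
    have a1 := hk_lc s k θ h0 h1 ((a + u) / Real.sqrt 2) ((a + v) / Real.sqrt 2)
    have a2 := hk_lc s k θ h0 h1 ((a - u) / Real.sqrt 2) ((a - v) / Real.sqrt 2)
    have e1 : θ * ((a + u) / Real.sqrt 2) + (1 - θ) * ((a + v) / Real.sqrt 2) =
        (a + (θ • u + (1 - θ) • v)) / Real.sqrt 2 := by simp only [smul_eq_mul]; ring
    have e2 : θ * ((a - u) / Real.sqrt 2) + (1 - θ) * ((a - v) / Real.sqrt 2) =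
        (a - (θ • u + (1 - θ) • v)) / Real.sqrt 2 := by simp only [smul_eq_mul]; ring
    rw [e1] at a1
    rw [e2] at a2
    calc hk s k ((a + u) / Real.sqrt 2) ^ θ * hk s k ((a - u) / Real.sqrt 2) ^ θ *
          (hk s k ((a + v) / Real.sqrt 2) ^ (1 - θ) * hk s k ((a - v) / Real.sqrt 2) ^ (1 - θ))
        = (hk s k ((a + u) / Real.sqrt 2) ^ θ * hk s k ((a + v) / Real.sqrt 2) ^ (1 - θ)) *
          (hk s k ((a - u) / Real.sqrt 2) ^ θ * hk s k ((a - v) / Real.sqrt 2) ^ (1 - θ)) := by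
          ring
      _ ≤ _ := mul_le_mul' a1 a2

/-- the shift rule -/
theorem hk_shift (s η : ℝ) (k : ℕ) (a : ℝ) :
    hk (s + η) k a = hk s k (a - η * Real.sqrt 2 ^ k) := by
  induction k generalizing a with
  | zero =>
    rw [hk_zero, hk_zero, pow_zero, mul_one]
    by_cases h : a < s + η
    · rw [if_pos h, if_pos (by linarith)]
    · rw [if_neg h, if_neg (by linarith)]
  | succ k ih =>
    rw [hk_succ, hk_succ]
    refine lintegral_congr fun b => ?_
    rw [ih, ih]
    have e : Real.sqrt 2 * Real.sqrt 2 = 2 := Real.mul_self_sqrt (by norm_num)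
    have e1 : (a + b) / Real.sqrt 2 - η * Real.sqrt 2 ^ k =
        (a - η * Real.sqrt 2 ^ (k + 1) + b) / Real.sqrt 2 := by
      rw [pow_succ]
      field_simp
      ring
    have e2 : (a - b) / Real.sqrt 2 - η * Real.sqrt 2 ^ k =
        (a - η * Real.sqrt 2 ^ (k + 1) - b) / Real.sqrt 2 := by
      rw [pow_succ]
      field_simp
      ring
    rw [e1, e2]

end Pool.Agent.TH84.HC
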