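import Pool.Agent.TH84.HC.Low

/-!
# The Gaussian measure of a cone seen from far
-/

set_option autoImplicit false

open MeasureTheory ProbabilityTheory
open scoped RealInnerProductSpace ENNReal

namespace Pool.Agent.TH84.HC

open Pool.Agent.PZ871 (E gm)

/-- the exponential integral of the doubled indicators -/
noncomputable def JJ {n : ℕ} {ι : Type} [Fintype ι] (φ : ι → E n) (s : ℝ) (k : ℕ) (v : E n) :
    ℝ≥0∞ :=
  ∫⁻ y, (∏ i, hk s k ⟪y, φ i⟫) * ENNReal.ofReal (Real.exp ⟪v, y⟫) ∂(gm n)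

theorem prod_meas {n : ℕ} {ι : Type} [Fintype ι] (φ : ι → E n) (s : ℝ) (k : ℕ) :
    Measurable (fun y : E n => ∏ i, hk s k ⟪y, φ i⟫) :=
  Finset.measurable_prod _ fun i _ => (hk_meas s k).comp (by fun_prop)

theorem J_step {n : ℕ} {ι : Type} [Fintype ι] (φ : ι → E n) (hφ : ∀ i, ‖φ i‖ = 1) (s : ℝ) (k : ℕ)
    (v : E n) : JJ φ s (k + 1) (Real.sqrt 2 • v) ≤ (JJ φ s k v) ^ 2 := by
  set F : E n → ℝ≥0∞ := fun y => (∏ i, hk s k ⟪y, φ i⟫) * ENNReal.ofReal (Real.exp ⟪v, y⟫) with hF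
  have hFm : Measurable F := (prod_meas φ s k).mul (by fun_prop)
  have e2 : Real.sqrt 2 * Real.sqrt 2 = 2 := Real.mul_self_sqrt (by norm_num)
  set a : ℝ := 1 / Real.sqrt 2 with ha
  have haa : a ^ 2 + a ^ 2 = 1 := by
    rw [ha, div_pow, Real.sq_sqrt (by norm_num)]
    norm_num
  have hrot := Pool.Agent.PZ871.M_grot.grot n a a haa
  have hΨ : Measurable (fun p : E n × E n => F p.1 * F p.2) :=
    (hFm.comp measurable_fst).mul (hFm.comp measurable_snd)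
  have h1 : (JJ φ s k v) ^ 2 = ∫⁻ u, ∫⁻ w, F (a • u + a • w) * F (a • u - a • w) ∂(gm n) ∂(gm n) := by
    have h2 : (JJ φ s k v) ^ 2 = ∫⁻ p, F p.1 * F p.2 ∂((gm n).prod (gm n)) := by
      rw [lintegral_prod_mul hFm.aemeasurable hFm.aemeasurable, sq]
      rfl
    rw [h2, ← hrot.lintegral_comp hΨ]
    exact lintegral_prod _ (hΨ.comp hrot.measurable).aemeasurable
  rw [h1]
  unfold JJ
  refine lintegral_mono fun u => ?_
  have h3 : ∀ w : E n, F (a • u + a • w) * F (a • u - a • w) =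
      ENNReal.ofReal (Real.exp ⟪Real.sqrt 2 • v, u⟫) *
      ∏ i, (hk s k ((⟪u, φ i⟫ + ⟪w, φ i⟫) / Real.sqrt 2) *
        hk s k ((⟪u, φ i⟫ - ⟪w, φ i⟫) / Real.sqrt 2)) := by
    intro w
    simp only [hF]
    have q1 : ∀ i, ⟪a • u + a • w, φ i⟫ = (⟪u, φ i⟫ + ⟪w, φ i⟫) / Real.sqrt 2 := by
      intro i
      rw [inner_add_left, inner_smul_left, inner_smul_left, ha]
      simp only [conj_trivial]
      ring
    have q2 : ∀ i, ⟪a • u - a • w, φ i⟫ = (⟪u, φ i⟫ - ⟪w, φ i⟫) / Real.sqrt 2 := by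
      intro i
      rw [inner_sub_left, inner_smul_left, inner_smul_left, ha]
      simp only [conj_trivial]
      ring
    have q3 : ENNReal.ofReal (Real.exp ⟪v, a • u + a • w⟫) *
        ENNReal.ofReal (Real.exp ⟪v, a • u - a • w⟫) =
        ENNReal.ofReal (Real.exp ⟪Real.sqrt 2 • v, u⟫) := by
      rw [← ENNReal.ofReal_mul (Real.exp_pos _).le, ← Real.exp_add]
      congr 2
      rw [inner_add_right, inner_sub_right, inner_smul_right, inner_smul_right, inner_smul_left]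
      simp only [conj_trivial]
      have : a + a = Real.sqrt 2 := by
        rw [ha]
        field_simp
        linarith
      rw [← this]
      ring
    simp only [q1, q2]
    rw [← q3, Finset.prod_mul_distrib]
    ring
  simp only [h3]
  have hm : Measurable (fun w : E n =>
      ∏ i, (hk s k ((⟪u, φ i⟫ + ⟪w, φ i⟫) / Real.sqrt 2) *
        hk s k ((⟪u, φ i⟫ - ⟪w, φ i⟫) / Real.sqrt 2))) :=
    Finset.measurable_prod _ fun i _ =>
      ((hk_meas s k).comp (by fun_prop)).mul ((hk_meas s k).comp (by fun_prop))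
  rw [lintegral_const_mul _ hm, mul_comm]
  refine mul_le_mul' le_rfl ?_
  exact sidak Finset.univ (fun i b => hk s k ((⟪u, φ i⟫ + b) / Real.sqrt 2) *
    hk s k ((⟪u, φ i⟫ - b) / Real.sqrt 2)) φ (fun i _ => hk_LC s k _) (fun i _ => hφ i)

theorem J_iter {n : ℕ} {ι : Type} [Fintype ι] (φ : ι → E n) (hφ : ∀ i, ‖φ i‖ = 1) (s : ℝ) (k : ℕ)
    (v : E n) : JJ φ s k (Real.sqrt 2 ^ k • v) ≤ (JJ φ s 0 v) ^ 2 ^ k := by
  induction k with
  | zero => simp
  | succ k ih =>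
    have h := J_step φ hφ s k (Real.sqrt 2 ^ k • v)
    rw [smul_smul, ← pow_succ'] at h
    calc JJ φ s (k + 1) (Real.sqrt 2 ^ (k + 1) • v) ≤ (JJ φ s k (Real.sqrt 2 ^ k • v)) ^ 2 := h
      _ ≤ ((JJ φ s 0 v) ^ 2 ^ k) ^ 2 := pow_le_pow_left' ih 2
      _ = _ := by rw [← pow_mul, ← pow_succ]

/-- indicator of `[-1,1]` -/
noncomputable def bx (t : ℝ) : ℝ≥0∞ := (Set.Icc (-1:ℝ) 1).indicator 1 t

theorem bx_LC : LC bx where
  meas := measurable_one.indicator measurableSet_Icc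
  le1 := fun x => Set.indicator_le_self' (fun _ _ => zero_le) x
  even := fun x => by
    unfold bx
    by_cases h : x ∈ Set.Icc (-1:ℝ) 1
    · rw [Set.indicator_of_mem h, Set.indicator_of_mem (by
        constructor <;> linarith [h.1, h.2])]
      rfl
    · rw [Set.indicator_of_notMem h, Set.indicator_of_notMem (by
        intro h'
        exact h ⟨by linarith [h'.2], by linarith [h'.1]⟩)]
  lc := fun s h0 h1 x y => by
    unfold bx
    by_cases hx : x ∈ Set.Icc (-1:ℝ) 1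
    · by_cases hy : y ∈ Set.Icc (-1:ℝ) 1
      · have : s • x + (1 - s) • y ∈ Set.Icc (-1:ℝ) 1 :=
          (convex_Icc (-1:ℝ) 1) hx hy h0.le (by linarith) (by ring)
        rw [Set.indicator_of_mem hx, Set.indicator_of_mem hy, Set.indicator_of_mem this]
        simp
      · rw [Set.indicator_of_notMem hy, ENNReal.zero_rpow_of_pos (by linarith), mul_zero]
        exact zero_le
    · rw [Set.indicator_of_notMem hx, ENNReal.zero_rpow_of_pos h0, zero_mul]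
      exact zero_le

/-- Gaussian mass of `[-1,1]` -/
noncomputable def p1 : ℝ := g1.real (Set.Icc (-1:ℝ) 1)

theorem p1_pos : 0 < p1 := by
  unfold p1
  rw [Measure.real, ENNReal.toReal_pos_iff]
  refine ⟨?_, measure_lt_top _ _⟩
  rw [pos_iff_ne_zero]
  intro h
  have h2 := gaussianReal_absolutelyContinuous' 0 one_ne_zero h
  rw [Real.volume_Icc] at h2
  norm_num at h2

theorem bx_int : ∫⁻ t, bx t ∂g1 = ENNReal.ofReal p1 := by
  unfold bx p1
  rw [lintegral_indicator_one measurableSet_Icc, Measure.real,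
    ENNReal.ofReal_toReal (measure_ne_top _ _)]

theorem J_low {n : ℕ} {ι : Type} [Fintype ι] (φ : ι → E n) (hφ : ∀ i, ‖φ i‖ = 1) (s : ℝ) (k : ℕ)
    (v : E n) : (hk s k 1 * ENNReal.ofReal p1) ^ Fintype.card ι ≤ JJ φ s k v := by
  set S : E n → ℝ≥0∞ := fun y => ∏ i, bx ⟪y, φ i⟫ with hS
  have hSm : Measurable S := Finset.measurable_prod _ fun i _ => bx_LC.meas.comp (by fun_prop)
  have hSe : ∀ y, S (-y) = S y := by
    intro y
    simp only [hS, inner_neg_left, bx_LC.even]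
  have h1 : ∫⁻ y, S y ∂(gm n) ≤ ∫⁻ y, S y * ENNReal.ofReal (Real.exp ⟪v, y⟫) ∂(gm n) := by
    have hm : Measurable (fun y : E n => S y * ENNReal.ofReal (Real.exp ⟪v, y⟫)) :=
      hSm.mul (by fun_prop)
    have h2 : ∫⁻ y, S y * ENNReal.ofReal (Real.exp (-⟪v, y⟫)) ∂(gm n) =
        ∫⁻ y, S y * ENNReal.ofReal (Real.exp ⟪v, y⟫) ∂(gm n) := by
      rw [← lint_neg n _ hm]
      refine lintegral_congr fun y => ?_
      rw [hSe, inner_neg_right]
    have h3 : 2 * ∫⁻ y, S y ∂(gm n) ≤ 2 * ∫⁻ y, S y * ENNReal.ofReal (Real.exp ⟪v, y⟫) ∂(gm n) := by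
      calc 2 * ∫⁻ y, S y ∂(gm n) = ∫⁻ y, 2 * S y ∂(gm n) := (lintegral_const_mul _ hSm).symm
        _ ≤ ∫⁻ y, (S y * ENNReal.ofReal (Real.exp ⟪v, y⟫) +
              S y * ENNReal.ofReal (Real.exp (-⟪v, y⟫))) ∂(gm n) := by
            refine lintegral_mono fun y => ?_
            rw [← mul_add, ← ENNReal.ofReal_add (Real.exp_pos _).le (Real.exp_pos _).le, mul_comm]
            refine mul_le_mul' le_rfl ?_
            have h4 : (2:ℝ) ≤ Real.exp ⟪v, y⟫ + Real.exp (-⟪v, y⟫) := by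
              have := Real.one_le_cosh ⟪v, y⟫
              rw [Real.cosh_eq] at this
              linarith
            calc (2:ℝ≥0∞) = ENNReal.ofReal 2 := by simp
              _ ≤ _ := ENNReal.ofReal_le_ofReal h4
        _ = 2 * ∫⁻ y, S y * ENNReal.ofReal (Real.exp ⟪v, y⟫) ∂(gm n) := by
            rw [lintegral_add_left hm, h2, two_mul]
    exact (ENNReal.mul_le_mul_iff_right (by norm_num) (by norm_num)).1 h3
  have h5 : (ENNReal.ofReal p1) ^ Fintype.card ι ≤ ∫⁻ y, S y ∂(gm n) := by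
    have := sidak Finset.univ (fun _ : ι => bx) φ (fun i _ => bx_LC) (fun i _ => hφ i)
    simpa [bx_int, Finset.prod_const, Finset.card_univ] using this
  calc (hk s k 1 * ENNReal.ofReal p1) ^ Fintype.card ι
      = hk s k 1 ^ Fintype.card ι * (ENNReal.ofReal p1) ^ Fintype.card ι := mul_pow _ _ _
    _ ≤ hk s k 1 ^ Fintype.card ι * ∫⁻ y, S y * ENNReal.ofReal (Real.exp ⟪v, y⟫) ∂(gm n) :=
        mul_le_mul' le_rfl (h5.trans h1)
    _ = ∫⁻ y, hk s k 1 ^ Fintype.card ι * (S y * ENNReal.ofReal (Real.exp ⟪v, y⟫)) ∂(gm n) :=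
        (lintegral_const_mul _ (hSm.mul (by fun_prop))).symm
    _ ≤ JJ φ s k v := by
        unfold JJ
        refine lintegral_mono fun y => ?_
        rw [← mul_assoc]
        refine mul_le_mul' ?_ le_rfl
        simp only [hS]
        rw [← Finset.card_univ, ← Finset.prod_const, ← Finset.prod_mul_distrib]
        refine Finset.prod_le_prod' fun i _ => ?_
        unfold bx
        by_cases h : ⟪y, φ i⟫ ∈ Set.Icc (-1:ℝ) 1
        · rw [Set.indicator_of_mem h, Pi.one_apply, mul_one]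
          exact hk_anti s k h.2
        · rw [Set.indicator_of_notMem h, mul_zero]
          exact zero_le

theorem cone_meas {n : ℕ} {ι : Type} [Fintype ι] (φ : ι → E n) (η : ℝ) :
    MeasurableSet {y : E n | ∀ i, ⟪y, φ i⟫ < -η} := by
  have : {y : E n | ∀ i, ⟪y, φ i⟫ < -η} = ⋂ i, {y : E n | ⟪y, φ i⟫ < -η} := by
    ext y
    simp
  rw [this]
  exact MeasurableSet.iInter fun i => measurableSet_lt (by fun_prop) (by fun_prop)

theorem cone_low {n : ℕ} {ι : Type} [Fintype ι] (φ : ι → E n) (x : E n)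
    (hx : ∀ i, 1 ≤ ⟪x, φ i⟫) (s η : ℝ) (hs : 0 < s) (hη : 0 ≤ η) :
    ENNReal.ofReal (Real.exp (-((s + η) ^ 2 * ‖x‖ ^ 2 / 2))) * JJ φ s 0 ((s + η) • x) ≤
      (gm n) {y | ∀ i, ⟪y, φ i⟫ < -η} := by
  have hC := cone_meas φ η
  have h := cm_lint n ((s + η) • x) (fun y => ∏ i, hk s 0 ⟪y, φ i⟫) (prod_meas φ s 0)
  have h1 : ∫⁻ g, ENNReal.ofReal (Real.exp (⟪(s + η) • x, g⟫ - ‖(s + η) • x‖^2/2)) *
      (∏ i, hk s 0 ⟪g, φ i⟫) ∂(gm n) =
      ENNReal.ofReal (Real.exp (-((s + η) ^ 2 * ‖x‖ ^ 2 / 2))) * JJ φ s 0 ((s + η) • x) := by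
    unfold JJ
    have hm : Measurable (fun y : E n =>
        (∏ i, hk s 0 ⟪y, φ i⟫) * ENNReal.ofReal (Real.exp ⟪(s + η) • x, y⟫)) :=
      (prod_meas φ s 0).mul (by fun_prop)
    rw [← lintegral_const_mul _ hm]
    refine lintegral_congr fun g => ?_
    have e : ENNReal.ofReal (Real.exp (⟪(s + η) • x, g⟫ - ‖(s + η) • x‖^2/2)) =
        ENNReal.ofReal (Real.exp (-((s + η) ^ 2 * ‖x‖ ^ 2 / 2))) *
          ENNReal.ofReal (Real.exp ⟪(s + η) • x, g⟫) := by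
      rw [← ENNReal.ofReal_mul (Real.exp_pos _).le, ← Real.exp_add, norm_smul, mul_pow,
        Real.norm_eq_abs, sq_abs]
      congr 2
      ring
    rw [e]
    ring
  rw [← h1, ← h, ← lintegral_indicator_one hC]
  refine lintegral_mono fun g => ?_
  by_cases hg : ∀ i, ⟪g + (s + η) • x, φ i⟫ < s
  · have hmem : g ∈ {y : E n | ∀ i, ⟪y, φ i⟫ < -η} := by
      intro i
      have h2 := hg i
      rw [inner_add_left, inner_smul_left] at h2
      simp only [conj_trivial] at h2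
      have h3 : (s + η) * 1 ≤ (s + η) * ⟪x, φ i⟫ :=
        mul_le_mul_of_nonneg_left (hx i) (by linarith)
      linarith
    rw [Set.indicator_of_mem hmem, Pi.one_apply]
    exact Finset.prod_le_one' fun i _ => hk_le1 _ _ _
  · push Not at hg
    obtain ⟨i, hi⟩ := hg
    have : ∏ i, hk s 0 ⟪g + (s + η) • x, φ i⟫ = 0 :=
      Finset.prod_eq_zero (Finset.mem_univ i) (by rw [hk_zero, if_neg (by linarith)])
    rw [this]
    exact zero_le

/-- the inequality at level `k` -/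
theorem key_k {n : ℕ} {ι : Type} [Fintype ι] {u : ℝ} (hu : 0 ≤ u) (φ : ι → E n)
    (hφ : ∀ i, ‖φ i‖ = 1) (x : E n) (hx : ∀ i, 1 ≤ ⟪x, φ i⟫) (η : ℝ) (hη : 0 ≤ η) (k : ℕ) :
    Real.exp (-((su u + 3 / Real.sqrt 2 ^ k + η) ^ 2 * ‖x‖ ^ 2 / 2)) ^ 2 ^ k *
      (3/4 * qu u ^ 2 ^ k * Real.exp (-(2 * (bu u * Real.sqrt 2 ^ k))) * p1) ^ Fintype.card ι ≤
      ((gm n).real {y | ∀ i, ⟪y, φ i⟫ < -η}) ^ 2 ^ k := by
  set s : ℝ := su u + 3 / Real.sqrt 2 ^ k with hs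
  have hsp : 0 < s := by have := su_pos hu; positivity
  have h1 := cone_low φ x hx s η hsp hη
  have h2 := J_iter φ hφ s k ((s + η) • x)
  have h3 := J_low φ hφ s k (Real.sqrt 2 ^ k • (s + η) • x)
  have h4 : hk s k 1 = hk (su u) k (-2) := by
    rw [hs, hk_shift]
    congr 1
    have : Real.sqrt 2 ^ k ≠ 0 := (pow_pos sqrt2_pos k).ne'
    field_simp
    norm_num
  rw [h4] at h3
  have h5 := hk_low hu k
  have q0 : 0 < qu u := qu_pos hu
  have p0 : 0 < p1 := p1_pos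
  have h6 : ENNReal.ofReal ((3/4 * qu u ^ 2 ^ k * Real.exp (-(2 * (bu u * Real.sqrt 2 ^ k))) *
      p1) ^ Fintype.card ι) ≤ (JJ φ s 0 ((s + η) • x)) ^ 2 ^ k := by
    rw [ENNReal.ofReal_pow (by positivity), ENNReal.ofReal_mul (by positivity)]
    exact ((pow_le_pow_left' (mul_le_mul' h5 le_rfl) _).trans h3).trans h2
  have h7 : ENNReal.ofReal (Real.exp (-((s + η) ^ 2 * ‖x‖ ^ 2 / 2)) ^ 2 ^ k *
      (3/4 * qu u ^ 2 ^ k * Real.exp (-(2 * (bu u * Real.sqrt 2 ^ k))) * p1) ^ Fintype.card ι) ≤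
      ((gm n) {y | ∀ i, ⟪y, φ i⟫ < -η}) ^ 2 ^ k := by
    rw [ENNReal.ofReal_mul (by positivity), ENNReal.ofReal_pow (by positivity)]
    calc _ ≤ ENNReal.ofReal (Real.exp (-((s + η) ^ 2 * ‖x‖ ^ 2 / 2))) ^ 2 ^ k *
          (JJ φ s 0 ((s + η) • x)) ^ 2 ^ k := mul_le_mul' le_rfl h6
      _ = (ENNReal.ofReal (Real.exp (-((s + η) ^ 2 * ‖x‖ ^ 2 / 2))) *
            JJ φ s 0 ((s + η) • x)) ^ 2 ^ k := (mul_pow _ _ _).symm
      _ ≤ _ := pow_le_pow_left' h1 _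
  have h8 : ((gm n) {y | ∀ i, ⟪y, φ i⟫ < -η}) ^ 2 ^ k =
      ENNReal.ofReal (((gm n).real {y | ∀ i, ⟪y, φ i⟫ < -η}) ^ 2 ^ k) := by
    rw [ENNReal.ofReal_pow measureReal_nonneg, Measure.real,
      ENNReal.ofReal_toReal (measure_ne_top _ _)]
  rw [h8] at h7
  exact (ENNReal.ofReal_le_ofReal_iff (pow_nonneg measureReal_nonneg _)).1 h7

/-- **Key inequality**, with a parameter `u` and a margin `η`. -/
theorem keyU {n : ℕ} {ι : Type} [Fintype ι] {u : ℝ} (hu : 0 ≤ u) (φ : ι → E n)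
    (hφ : ∀ i, ‖φ i‖ = 1) (x : E n) (hx : ∀ i, 1 ≤ ⟪x, φ i⟫) (η : ℝ) (hη : 0 ≤ η) :
    Real.exp (-((su u + η) ^ 2 * ‖x‖ ^ 2 / 2)) * qu u ^ Fintype.card ι ≤
      (gm n).real {y | ∀ i, ⟪y, φ i⟫ < -η} := by
  set P : ℝ := (gm n).real {y | ∀ i, ⟪y, φ i⟫ < -η} with hP
  set m : ℕ := Fintype.card ι with hm
  have hk0 := key_k hu φ hφ x hx η hη 0
  have q0 : 0 < qu u := qu_pos hu
  have p0 : 0 < p1 := p1_pos
  have hPpos : 0 < P := by
    have : 0 < P ^ 2 ^ 0 := lt_of_lt_of_le (by positivity) hk0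
    simpa using this
  have hlog : ∀ k : ℕ, (-((su u + 3 * ((Real.sqrt 2)⁻¹) ^ k + η) ^ 2 * ‖x‖ ^ 2 / 2)) +
      m * (Real.log (3/4 * p1) * (((Real.sqrt 2)⁻¹) ^ k) ^ 2 + Real.log (qu u) -
        2 * bu u * ((Real.sqrt 2)⁻¹) ^ k) ≤ Real.log P := by
    intro k
    have h1 := key_k hu φ hφ x hx η hη k
    rw [← hP, ← hm] at h1
    have h2 := Real.log_le_log (by positivity) h1
    have e0 : Real.log (3/4 * qu u ^ 2 ^ k * Real.exp (-(2 * (bu u * Real.sqrt 2 ^ k))) * p1) =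
        Real.log (3/4 * p1) + (((2 ^ k : ℕ) : ℝ) * Real.log (qu u) +
          -(2 * (bu u * Real.sqrt 2 ^ k))) := by
      have h34 : (0:ℝ) < 3/4 * p1 := by positivity
      have hqe : 0 < qu u ^ 2 ^ k * Real.exp (-(2 * (bu u * Real.sqrt 2 ^ k))) := by positivity
      rw [show 3/4 * qu u ^ 2 ^ k * Real.exp (-(2 * (bu u * Real.sqrt 2 ^ k))) * p1 =
        (3/4 * p1) * (qu u ^ 2 ^ k * Real.exp (-(2 * (bu u * Real.sqrt 2 ^ k)))) by ring,
        Real.log_mul h34.ne' hqe.ne', Real.log_mul (pow_pos q0 _).ne' (Real.exp_pos _).ne',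
        Real.log_pow, Real.log_exp]
    rw [Real.log_mul (by positivity) (by positivity), Real.log_pow, Real.log_exp, Real.log_pow,
      Real.log_pow, e0] at h2
    set r : ℝ := ((Real.sqrt 2)⁻¹) ^ k with hr
    have hr0 : 0 < r := pow_pos (inv_pos.2 sqrt2_pos) k
    have hR : Real.sqrt 2 ^ k = r⁻¹ := by rw [hr, inv_pow, inv_inv]
    have hN : ((2 ^ k : ℕ) : ℝ) = (r⁻¹) ^ 2 := by
      rw [← hR, ← pow_mul, mul_comm, pow_mul, Real.sq_sqrt (by norm_num)]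
      push_cast
      rfl
    rw [hN, hR] at h2
    have h3 := mul_le_mul_of_nonneg_left h2 (sq_nonneg r)
    have hrr : r * r⁻¹ = 1 := mul_inv_cancel₀ hr0.ne'
    have e1 : r ^ 2 * (r⁻¹ ^ 2 * -((su u + 3 / r⁻¹ + η) ^ 2 * ‖x‖ ^ 2 / 2) +
        ↑m * (Real.log (3 / 4 * p1) + (r⁻¹ ^ 2 * Real.log (qu u) + -(2 * (bu u * r⁻¹))))) =
        (-((su u + 3 * r + η) ^ 2 * ‖x‖ ^ 2 / 2)) +
      m * (Real.log (3/4 * p1) * r ^ 2 + Real.log (qu u) - 2 * bu u * r) := by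
      field_simp
      ring
    have e2 : r ^ 2 * (r⁻¹ ^ 2 * Real.log P) = Real.log P := by
      field_simp
    rw [e1, e2] at h3
    exact h3
  have hr : Filter.Tendsto (fun k : ℕ => ((Real.sqrt 2)⁻¹) ^ k) Filter.atTop (nhds 0) := by
    apply tendsto_pow_atTop_nhds_zero_of_lt_one (inv_nonneg.2 sqrt2_pos.le)
    apply inv_lt_one_of_one_lt₀
    rw [Real.lt_sqrt (by norm_num)]
    norm_num
  have hcont : Continuous (fun r : ℝ => (-((su u + 3 * r + η) ^ 2 * ‖x‖ ^ 2 / 2)) +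
      m * (Real.log (3/4 * p1) * r ^ 2 + Real.log (qu u) - 2 * bu u * r)) := by fun_prop
  have hlim := (hcont.tendsto 0).comp hr
  have hle : (-((su u + 3 * 0 + η) ^ 2 * ‖x‖ ^ 2 / 2)) +
      m * (Real.log (3/4 * p1) * 0 ^ 2 + Real.log (qu u) - 2 * bu u * 0) ≤ Real.log P :=
    le_of_tendsto' hlim hlog
  have h9 : -((su u + η) ^ 2 * ‖x‖ ^ 2 / 2) + m * Real.log (qu u) ≤ Real.log P := by
    refine le_trans (le_of_eq ?_) hle
    ring
  have h10 := Real.exp_le_exp.2 h9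
  rw [Real.exp_log hPpos, Real.exp_add] at h10
  have e3 : Real.exp (↑m * Real.log (qu u)) = qu u ^ m := by
    rw [mul_comm, Real.exp_mul, Real.exp_log q0, Real.rpow_natCast]
  rw [e3] at h10
  exact h10

/-- **Key inequality**, with a margin `η`. -/
theorem key {n : ℕ} {ι : Type} [Fintype ι] (φ : ι → E n) (hφ : ∀ i, ‖φ i‖ = 1) (x : E n)
    (hx : ∀ i, 1 ≤ ⟪x, φ i⟫) (η : ℝ) (hη : 0 ≤ η) :
    Real.exp ((Fintype.card ι : ℝ) / Real.pi - (cc + η) ^ 2 * ‖x‖ ^ 2 / 2) / 2 ^ Fintype.card ι ≤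
      (gm n).real {y | ∀ i, ⟪y, φ i⟫ < -η} := by
  refine le_trans (le_of_eq ?_) (keyU le_rfl φ hφ x hx η hη)
  rw [su_zero, qu_zero, div_pow, ← Real.exp_nat_mul, mul_div_assoc', ← Real.exp_add]
  congr 2
  ring

/-- the key inequality without margin -/
theorem key0 {n : ℕ} {ι : Type} [Fintype ι] (φ : ι → E n) (hφ : ∀ i, ‖φ i‖ = 1) (x : E n)
    (hx : ∀ i, 1 ≤ ⟪x, φ i⟫) :
    Real.exp (((Fintype.card ι : ℝ) - ‖x‖ ^ 2) / Real.pi) / 2 ^ Fintype.card ι ≤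
      (gm n).real {y | ∀ i, ⟪y, φ i⟫ < 0} := by
  have h := key φ hφ x hx 0 le_rfl
  simp only [neg_zero, add_zero, cc_sq] at h
  have e : (Fintype.card ι : ℝ) / Real.pi - 2 / Real.pi * ‖x‖ ^ 2 / 2 =
      ((Fintype.card ι : ℝ) - ‖x‖ ^ 2) / Real.pi := by ring
  rwa [e] at h

/-- the key inequality with margin `1 / ((1 + su u) R ^ 2)` -/
theorem keyUR {n : ℕ} {ι : Type} [Fintype ι] {u : ℝ} (hu : 0 ≤ u) (φ : ι → E n)
    (hφ : ∀ i, ‖φ i‖ = 1) (x : E n) (hx : ∀ i, 1 ≤ ⟪x, φ i⟫) (R : ℝ) (hR : 1 ≤ R)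
    (hxR : ‖x‖ ≤ R) :
    Real.exp (-(su u ^ 2 * R ^ 2 / 2)) * qu u ^ Fintype.card ι / 4 ≤
      (gm n).real {y | ∀ i, ⟪y, φ i⟫ < -(1 / ((1 + su u) * R ^ 2))} := by
  have hR0 : 0 < R := by linarith
  have hs := su_pos hu
  have hq := qu_pos hu
  set s : ℝ := su u with hsd
  have h := keyU hu φ hφ x hx (1 / ((1 + s) * R ^ 2)) (by positivity)
  refine le_trans ?_ h
  have h4 : Real.exp (-1) ≥ 1/4 := by
    have h3 : Real.exp 1 < 2.7182818286 := Real.exp_one_lt_d9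
    rw [Real.exp_neg, ge_iff_le, one_div]
    exact inv_anti₀ (Real.exp_pos _) (by linarith)
  have hx2 : ‖x‖ ^ 2 ≤ R ^ 2 := pow_le_pow_left₀ (norm_nonneg _) hxR 2
  have h6 : (s + 1 / ((1 + s) * R ^ 2)) ^ 2 * ‖x‖ ^ 2 / 2 ≤ s ^ 2 * R ^ 2 / 2 + 1 := by
    have h7 : (s + 1 / ((1 + s) * R ^ 2)) ^ 2 * ‖x‖ ^ 2 ≤
        (s + 1 / ((1 + s) * R ^ 2)) ^ 2 * R ^ 2 :=
      mul_le_mul_of_nonneg_left hx2 (sq_nonneg _)
    set w : ℝ := 1 / (1 + s) with hw
    have hw0 : 0 < w := by rw [hw]; positivity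
    have hw1 : w ≤ 1 := by rw [hw, div_le_one (by linarith)]; linarith
    have hsw : s * w = 1 - w := by
      rw [hw]
      field_simp
      ring
    have h8 : (s + 1 / ((1 + s) * R ^ 2)) ^ 2 * R ^ 2 = s ^ 2 * R ^ 2 + 2 * (s * w) +
        w ^ 2 * (1 / R ^ 2) := by
      rw [hw]
      field_simp
      ring
    have h9 : 1 / R ^ 2 ≤ 1 := by
      rw [div_le_one (by positivity)]
      nlinarith
    have h10 : w ^ 2 * (1 / R ^ 2) ≤ w := by
      have h11 : 0 < 1 / R ^ 2 := by positivity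
      nlinarith [mul_le_mul hw1 h9 h11.le (by norm_num)]
    rw [h8, hsw] at h7
    linarith
  have h12 : Real.exp (-(s ^ 2 * R ^ 2 / 2)) / 4 ≤
      Real.exp (-((s + 1 / ((1 + s) * R ^ 2)) ^ 2 * ‖x‖ ^ 2 / 2)) := by
    calc Real.exp (-(s ^ 2 * R ^ 2 / 2)) / 4 = Real.exp (-(s ^ 2 * R ^ 2 / 2)) * (1/4) := by ring
      _ ≤ Real.exp (-(s ^ 2 * R ^ 2 / 2)) * Real.exp (-1) :=
          mul_le_mul_of_nonneg_left h4 (Real.exp_pos _).le
      _ = Real.exp (-(s ^ 2 * R ^ 2 / 2) + -1) := by rw [← Real.exp_add]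
      _ ≤ _ := Real.exp_le_exp.2 (by linarith)
  calc Real.exp (-(s ^ 2 * R ^ 2 / 2)) * qu u ^ Fintype.card ι / 4
      = Real.exp (-(s ^ 2 * R ^ 2 / 2)) / 4 * qu u ^ Fintype.card ι := by ring
    _ ≤ _ := mul_le_mul_of_nonneg_right h12 (pow_nonneg hq.le _)

end Pool.Agent.TH84.HC
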