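import Pool.Agent.TH84.HC.Mom

/-!
# The base of the moment recursion and the lower bound for the doubled indicators
-/

set_option autoImplicit false

open MeasureTheory ProbabilityTheory
open scoped RealInnerProductSpace ENNReal

namespace Pool.Agent.TH84.HC

open Pool.Agent.PZ871 (E gm)

theorem g1_null (a : ℝ) : g1 {a} = 0 :=
  gaussianReal_absolutelyContinuous 0 one_ne_zero (by simp)

theorem mp_neg1 : MeasurePreserving (fun x : ℝ => -x) g1 g1 :=
  Pool.Agent.H902R3.ZA.ROTaux.mp_neg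

theorem even_half (f : ℝ → ℝ) (hf : Integrable f g1) (he : ∀ x, f (-x) = f x) :
    ∫ x in Set.Iio 0, f x ∂g1 = (1/2) * ∫ x, f x ∂g1 := by
  have h1 : ∫ x in Set.Iio 0, f x ∂g1 + ∫ x in (Set.Iio 0)ᶜ, f x ∂g1 = ∫ x, f x ∂g1 :=
    integral_add_compl measurableSet_Iio hf
  have h2 : ∫ x in (Set.Iio 0)ᶜ, f x ∂g1 = ∫ x in Set.Iic 0, f x ∂g1 := by
    have e := mp_neg1.setIntegral_preimage_emb (Homeomorph.neg ℝ).measurableEmbedding f (Set.Iic 0)
    have e2 : (fun x : ℝ => -x) ⁻¹' (Set.Iic 0) = (Set.Iio 0)ᶜ := by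
      ext x
      simp
    rw [e2] at e
    rw [← e]
    exact integral_congr_ae (Filter.Eventually.of_forall fun x => (he x).symm)
  have h3 : ∫ x in Set.Iic 0, f x ∂g1 = ∫ x in Set.Iio 0, f x ∂g1 := by
    apply setIntegral_congr_set
    have : (Set.Iic (0:ℝ)) = Set.Iio 0 ∪ {0} := by
      ext x
      simp [le_iff_lt_or_eq, or_comm]
    rw [this]
    have hn : ({0} : Set ℝ) =ᵐ[g1] (∅ : Set ℝ) := ae_eq_empty.2 (g1_null 0)
    simpa using (Filter.EventuallyEq.refl (ae g1) (Set.Iio (0:ℝ))).union hn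
  rw [h2, h3] at h1
  linarith

theorem half_mass : ∫ _ in Set.Iio (0:ℝ), (1:ℝ) ∂g1 = 1/2 := by
  rw [even_half (fun _ => 1) (integrable_const 1) (fun _ => rfl)]
  simp

theorem sq_int : Integrable (fun x : ℝ => x ^ 2) g1 := by
  have h := memLp_id_gaussianReal (μ := 0) (v := 1) 2
  have := h.integrable_sq
  simpa using this

theorem id_int : Integrable (fun x : ℝ => x) g1 := by
  have h := memLp_id_gaussianReal (μ := 0) (v := 1) 1
  exact h.integrable (by norm_num)

theorem half_sq : ∫ x in Set.Iio (0:ℝ), x ^ 2 ∂g1 = 1/2 := by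
  rw [even_half (fun x => x ^ 2) sq_int (fun x => by ring)]
  have h := variance_fun_id_gaussianReal (μ := 0) (v := 1)
  rw [variance_eq_integral (by fun_prop)] at h
  simp only [integral_id_gaussianReal, sub_zero, NNReal.coe_one] at h
  rw [h]
  norm_num

/-- the distribution function of the Gaussian measure -/
noncomputable def Ph (u : ℝ) : ℝ := g1.real (Set.Iio u)

/-- the density of the Gaussian measure -/
noncomputable def ph (u : ℝ) : ℝ := gaussianPDFReal 0 1 u

theorem ph_eq (u : ℝ) : ph u = (Real.sqrt (2 * Real.pi))⁻¹ * Real.exp (-(u ^ 2) / 2) := by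
  unfold ph
  rw [gaussianPDFReal_def]
  simp

theorem ph_pos (u : ℝ) : 0 < ph u := by
  rw [ph_eq]
  positivity

theorem ph_deriv (x : ℝ) : HasDerivAt ph (-(x * ph x)) x := by
  have e : ph = (fun y : ℝ => (Real.sqrt (2 * Real.pi))⁻¹ * Real.exp (-(y ^ 2) / 2)) := by
    funext y
    exact ph_eq y
  rw [ph_eq x, e]
  have a : HasDerivAt (fun y : ℝ => y ^ 2) (2 * x) x := by simpa using hasDerivAt_pow 2 x
  have a2 : HasDerivAt (fun y : ℝ => -(y ^ 2) / 2) (-(2 * x) / 2) x := a.neg.div_const 2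
  have a3 : HasDerivAt (fun y : ℝ => Real.exp (-(y ^ 2) / 2))
    (Real.exp (-(x ^ 2) / 2) * (-(2 * x) / 2)) x := a2.exp
  have h : HasDerivAt (fun y : ℝ => (Real.sqrt (2 * Real.pi))⁻¹ * Real.exp (-(y ^ 2) / 2))
    ((Real.sqrt (2 * Real.pi))⁻¹ * (Real.exp (-(x ^ 2) / 2) * (-(2 * x) / 2))) x :=
    a3.const_mul _
  convert h using 1
  ring

theorem sq_tendsto : Filter.Tendsto (fun y : ℝ => y ^ 2 / 2) Filter.atBot Filter.atTop := by
  apply Filter.Tendsto.atTop_div_const (by norm_num)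
  exact (Filter.tendsto_pow_atTop (by norm_num : (2:ℕ) ≠ 0)).comp
    Filter.tendsto_abs_atBot_atTop |>.congr (fun x => by simp)

theorem ph_lim : Filter.Tendsto ph Filter.atBot (nhds 0) := by
  have e : ph = (fun y : ℝ => (Real.sqrt (2 * Real.pi))⁻¹ * Real.exp (-(y ^ 2 / 2))) := by
    funext y
    rw [ph_eq]
    simp [neg_div]
  rw [e]
  have h6 := (Real.tendsto_exp_neg_atTop_nhds_zero.comp sq_tendsto).const_mul
    ((Real.sqrt (2 * Real.pi))⁻¹)
  simpa using h6

theorem idph_lim : Filter.Tendsto (fun y : ℝ => y * ph y) Filter.atBot (nhds 0) := by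
  -- `|y| ph y ≤ C exp (-y²/4) → 0`
  have e : ∀ y : ℝ, |y * ph y| ≤ 2 * ((Real.sqrt (2 * Real.pi))⁻¹ *
      Real.exp (-((y ^ 2 / 2) / 2))) := by
    intro y
    rw [ph_eq, abs_mul, abs_of_pos (show 0 < (Real.sqrt (2 * Real.pi))⁻¹ *
      Real.exp (-(y ^ 2) / 2) by positivity)]
    have h1 : Real.exp (-(y ^ 2) / 2) = Real.exp (-((y ^ 2 / 2) / 2)) *
        Real.exp (-(y ^ 2 / 4)) := by
      rw [← Real.exp_add]; congr 1; ring
    have h2 : |y| * Real.exp (-(y ^ 2 / 4)) ≤ 2 := by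
      have h3 : |y| ≤ 1 + y ^ 2 / 4 := by
        have := sq_nonneg (|y| / 2 - 1)
        have h4 : |y| ^ 2 = y ^ 2 := sq_abs y
        nlinarith
      have h5 : 1 + y ^ 2 / 4 ≤ Real.exp (y ^ 2 / 4) := by
        have := Real.add_one_le_exp (y ^ 2 / 4)
        linarith
      have h6 : Real.exp (y ^ 2 / 4) * Real.exp (-(y ^ 2 / 4)) = 1 := by
        rw [← Real.exp_add]; simp
      have h7 : |y| * Real.exp (-(y ^ 2 / 4)) ≤ Real.exp (y ^ 2 / 4) * Real.exp (-(y ^ 2 / 4)) :=
        mul_le_mul_of_nonneg_right (h3.trans h5) (Real.exp_pos _).le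
      linarith
    rw [h1]
    have h8 : 0 < (Real.sqrt (2 * Real.pi))⁻¹ * Real.exp (-((y ^ 2 / 2) / 2)) := by positivity
    calc |y| * ((Real.sqrt (2 * Real.pi))⁻¹ * (Real.exp (-((y ^ 2 / 2) / 2)) *
          Real.exp (-(y ^ 2 / 4))))
        = (|y| * Real.exp (-(y ^ 2 / 4))) * ((Real.sqrt (2 * Real.pi))⁻¹ *
          Real.exp (-((y ^ 2 / 2) / 2))) := by ring
      _ ≤ 2 * ((Real.sqrt (2 * Real.pi))⁻¹ * Real.exp (-((y ^ 2 / 2) / 2))) :=
          mul_le_mul_of_nonneg_right h2 h8.le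
  have h9 : Filter.Tendsto (fun y : ℝ => (y ^ 2 / 2) / 2) Filter.atBot Filter.atTop :=
    sq_tendsto.atTop_div_const (by norm_num)
  have h10 := ((Real.tendsto_exp_neg_atTop_nhds_zero.comp h9).const_mul
    ((Real.sqrt (2 * Real.pi))⁻¹)).const_mul 2
  rw [mul_zero, mul_zero] at h10
  exact squeeze_zero_norm (fun y => by rw [Real.norm_eq_abs]; exact e y) h10

theorem to_pdf (u : ℝ) (f : ℝ → ℝ) :
    ∫ x in Set.Iio u, f x ∂g1 = ∫ x in Set.Iic u, f x * ph x := by
  rw [integral_Iic_eq_integral_Iio, ← integral_indicator measurableSet_Iio,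
    ← integral_indicator measurableSet_Iio, integral_gaussianReal_eq_integral_smul one_ne_zero]
  refine integral_congr_ae (Filter.Eventually.of_forall fun x => ?_)
  simp only [smul_eq_mul]
  by_cases hx : x ∈ Set.Iio u
  · rw [Set.indicator_of_mem hx, Set.indicator_of_mem hx]
    unfold ph
    ring
  · rw [Set.indicator_of_notMem hx, Set.indicator_of_notMem hx]
    ring

theorem pdf_int {f : ℝ → ℝ} (h : Integrable f g1) : Integrable (fun x : ℝ => f x * ph x) := by
  unfold g1 at h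
  rw [gaussianReal_of_var_ne_zero 0 one_ne_zero, integrable_withDensity_iff_integrable_smul'
    (measurable_gaussianPDF _ _) (Filter.Eventually.of_forall fun x => gaussianPDF_lt_top)] at h
  refine h.congr (Filter.Eventually.of_forall fun x => ?_)
  simp only [toReal_gaussianPDF, smul_eq_mul]
  unfold ph
  ring

theorem mean_u (u : ℝ) : ∫ x in Set.Iio u, x ∂g1 = - ph u := by
  have h2 : Integrable (fun x : ℝ => x * ph x) := pdf_int id_int
  have h3 : ∀ x : ℝ, HasDerivAt (fun y : ℝ => - ph y) (x * ph x) x := by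
    intro x
    have := (ph_deriv x).neg
    rwa [neg_neg] at this
  have h4 : Filter.Tendsto (fun y : ℝ => - ph y) Filter.atBot (nhds 0) := by
    simpa using ph_lim.neg
  rw [to_pdf u (fun x => x), integral_Iic_of_hasDerivAt_of_tendsto
    (h3 u).continuousAt.continuousWithinAt (fun x _ => h3 x) h2.integrableOn h4]
  simp

theorem mass_u (u : ℝ) : ∫ _ in Set.Iio u, (1:ℝ) ∂g1 = Ph u := by
  unfold Ph
  simp [Measure.real]

theorem sq_u (u : ℝ) : ∫ x in Set.Iio u, x ^ 2 ∂g1 = Ph u - u * ph u := by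
  have h2 : Integrable (fun x : ℝ => (x ^ 2 - 1) * ph x) :=
    pdf_int (sq_int.sub (integrable_const 1))
  have h3 : ∀ x : ℝ, HasDerivAt (fun y : ℝ => - (y * ph y)) ((x ^ 2 - 1) * ph x) x := by
    intro x
    have h' : HasDerivAt (fun y : ℝ => y * ph y) (1 * ph x + x * (-(x * ph x))) x :=
      (hasDerivAt_id x).mul (ph_deriv x)
    have e : (x ^ 2 - 1) * ph x = -(1 * ph x + x * (-(x * ph x))) := by ring
    rw [e]
    exact h'.neg
  have h4 : Filter.Tendsto (fun y : ℝ => - (y * ph y)) Filter.atBot (nhds 0) := by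
    simpa using idph_lim.neg
  have h5 : ∫ x in Set.Iio u, (x ^ 2 - 1) ∂g1 = - (u * ph u) := by
    rw [to_pdf u (fun x => x ^ 2 - 1), integral_Iic_of_hasDerivAt_of_tendsto
      (h3 u).continuousAt.continuousWithinAt (fun x _ => h3 x) h2.integrableOn h4]
    simp
  rw [integral_sub sq_int.integrableOn (integrable_const (1:ℝ)), mass_u] at h5
  linarith

theorem Ph_zero : Ph 0 = 1/2 := by
  rw [← mass_u, half_mass]

theorem Ph_half {u : ℝ} (hu : 0 ≤ u) : 1/2 ≤ Ph u := by
  rw [← Ph_zero]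
  exact measureReal_mono (Set.Iio_subset_Iio hu) (measure_ne_top _ _)

theorem Ph_le_one (u : ℝ) : Ph u ≤ 1 := measureReal_le_one

/-- the tilt -/
noncomputable def bu (u : ℝ) : ℝ := ph u / Ph u

/-- the threshold -/
noncomputable def su (u : ℝ) : ℝ := u + bu u

/-- the constant replacing `exp (1 / π) / 2` -/
noncomputable def qu (u : ℝ) : ℝ := Ph u * Real.exp (bu u ^ 2 / 2)

theorem bu_pos {u : ℝ} (hu : 0 ≤ u) : 0 < bu u :=
  div_pos (ph_pos u) (lt_of_lt_of_le (by norm_num) (Ph_half hu))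

theorem su_pos {u : ℝ} (hu : 0 ≤ u) : 0 < su u := by
  unfold su
  have := bu_pos hu
  linarith

theorem qu_half {u : ℝ} (hu : 0 ≤ u) : 1/2 ≤ qu u := by
  unfold qu
  have h1 : 1 ≤ Real.exp (bu u ^ 2 / 2) := Real.one_le_exp (by positivity)
  have h2 := Ph_half hu
  nlinarith

theorem qu_pos {u : ℝ} (hu : 0 ≤ u) : 0 < qu u := lt_of_lt_of_le (by norm_num) (qu_half hu)

theorem Ph_le_qu {u : ℝ} (hu : 0 ≤ u) : Ph u ≤ qu u := by
  unfold qu
  have h1 : 1 ≤ Real.exp (bu u ^ 2 / 2) := Real.one_le_exp (by positivity)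
  have h2 := Ph_half hu
  nlinarith

theorem base {u : ℝ} (hu : 0 ≤ u) : Mo (mu (su u) (bu u) 0) (qu u) := by
  have e0 : su u - bu u = u := by unfold su; ring
  rw [mu_zero, e0]
  set b : ℝ := bu u with hb
  have hPp : 0 < Ph u := lt_of_lt_of_le (by norm_num) (Ph_half hu)
  have hbP : b * Ph u = ph u := by rw [hb]; unfold bu; field_simp
  set ν : Measure ℝ := (g1.restrict (Set.Iio u)).map (fun x => x + b) with hν
  have hm : Measurable (fun x : ℝ => x + b) := by fun_prop
  have I0 : IntegrableOn (fun _ : ℝ => (1:ℝ)) (Set.Iio u) g1 := (integrable_const 1).integrableOn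
  have I1 : IntegrableOn (fun x : ℝ => x) (Set.Iio u) g1 := id_int.integrableOn
  have I2 : IntegrableOn (fun x : ℝ => x ^ 2) (Set.Iio u) g1 := sq_int.integrableOn
  have hmass : g1 (Set.Iio u) = ENNReal.ofReal (Ph u) := by
    unfold Ph
    rw [Measure.real, ENNReal.ofReal_toReal (measure_ne_top _ _)]
  have hexp : (0:ℝ) ≤ Real.exp (b ^ 2 / 2) := (Real.exp_pos _).le
  have i2 : Integrable (fun a : ℝ => a ^ 2) ν := by
    rw [hν, integrable_map_measure (by fun_prop) hm.aemeasurable]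
    have e : ((fun a : ℝ => a ^ 2) ∘ fun x : ℝ => x + b) =
        fun x : ℝ => x ^ 2 + (2 * b) * x + b ^ 2 * 1 := by
      funext x
      simp only [Function.comp_apply]
      ring
    rw [e]
    exact (I2.add (I1.const_mul _)).add (I0.const_mul _)
  refine ⟨?_, (qu_pos hu).le, ?_, ?_, ?_⟩
  · rw [Measure.smul_apply, hν, Measure.map_apply hm MeasurableSet.univ, Set.preimage_univ,
      Measure.restrict_apply MeasurableSet.univ, Set.univ_inter, hmass, smul_eq_mul,
      ← ENNReal.ofReal_mul hexp]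
    unfold qu
    congr 1
    ring
  · exact i2.smul_measure ENNReal.ofReal_ne_top
  · rw [integral_smul_measure, hν, integral_map hm.aemeasurable (by fun_prop)]
    have e : (fun x : ℝ => x + b) = fun x : ℝ => x + b * 1 := by funext x; ring
    rw [e, integral_add I1 (I0.const_mul _), integral_const_mul, mean_u, mass_u, hbP]
    simp
  · rw [integral_smul_measure, hν, integral_map hm.aemeasurable (by fun_prop),
      ENNReal.toReal_ofReal hexp]
    have e : (fun x : ℝ => (x + b) ^ 2) = fun x : ℝ => x ^ 2 + (2 * b) * x + b ^ 2 * 1 := by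
      funext x; ring
    have J : IntegrableOn (fun x : ℝ => x ^ 2 + (2 * b) * x) (Set.Iio u) g1 :=
      I2.add (I1.const_mul _)
    rw [e, integral_add J (I0.const_mul _), integral_add I2 (I1.const_mul _),
      integral_const_mul, integral_const_mul, sq_u, mean_u, mass_u, smul_eq_mul]
    unfold qu
    rw [← hb, mul_comm (Ph u)]
    refine mul_le_mul_of_nonneg_left ?_ hexp
    have h1 : b ^ 2 * Ph u = b * ph u := by rw [← hbP]; ring
    rw [h1]
    have h2 := ph_pos u
    have h3 := bu_pos hu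
    nlinarith [mul_nonneg hu h2.le, mul_pos h3 h2]

theorem mo_k {u : ℝ} (hu : 0 ≤ u) (k : ℕ) : Mo (mu (su u) (bu u) k) (qu u ^ 2 ^ k) :=
  mo_all (base hu) k

/-- the lower bound for the doubled indicators -/
theorem hk_low {u : ℝ} (hu : 0 ≤ u) (k : ℕ) :
    ENNReal.ofReal (3/4 * qu u ^ 2 ^ k * Real.exp (-(2 * (bu u * Real.sqrt 2 ^ k))))
    ≤ hk (su u) k (-2) := by
  have M := mo_k hu k
  set Q : ℝ := qu u ^ 2 ^ k with hQ
  set b : ℝ := bu u * Real.sqrt 2 ^ k with hb
  have hb0 : 0 < b := mul_pos (bu_pos hu) (pow_pos sqrt2_pos _)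
  have hfin : IsFiniteMeasure (mu (su u) (bu u) k) :=
    ⟨by rw [M.mass]; exact ENNReal.ofReal_lt_top⟩
  have hreal : (mu (su u) (bu u) k).real Set.univ = Q := by
    rw [Measure.real, M.mass, ENNReal.toReal_ofReal M.pos]
  -- Chebyshev
  have h1 : 4 * (mu (su u) (bu u) k).real {a : ℝ | 4 ≤ a ^ 2} ≤ Q :=
    le_trans (mul_meas_ge_le_integral_of_nonneg
      (Filter.Eventually.of_forall fun a : ℝ => sq_nonneg a) M.int 4) M.var
  have hms : MeasurableSet {a : ℝ | 4 ≤ a ^ 2} := measurableSet_le (by fun_prop) (by fun_prop)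
  have h2 : 3/4 * Q ≤ (mu (su u) (bu u) k).real {a : ℝ | 4 ≤ a ^ 2}ᶜ := by
    have := measureReal_compl (μ := mu (su u) (bu u) k) hms
    rw [this, hreal]
    linarith
  have h3 : (mu (su u) (bu u) k) {a : ℝ | 4 ≤ a ^ 2}ᶜ ≤
      ENNReal.ofReal (Real.exp (2 * b)) * hk (su u) k (-2) := by
    have e := lint_mu (su u) (bu u) k (({a : ℝ | 4 ≤ a ^ 2}ᶜ).indicator 1)
      (measurable_one.indicator hms.compl)
    rw [lintegral_indicator_one hms.compl] at e
    rw [e]
    calc ∫⁻ a, hk (su u) k a * ENNReal.ofReal (Real.exp (bu u * Real.sqrt 2 ^ k * a)) *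
          ({a : ℝ | 4 ≤ a ^ 2}ᶜ).indicator 1 a ∂g1
        ≤ ∫⁻ _, ENNReal.ofReal (Real.exp (2 * b)) * hk (su u) k (-2) ∂g1 := by
          refine lintegral_mono fun a => ?_
          by_cases ha : a ∈ {a : ℝ | 4 ≤ a ^ 2}ᶜ
          · rw [Set.indicator_of_mem ha, Pi.one_apply, mul_one, mul_comm]
            have ha' : a ^ 2 < 4 := not_le.1 ha
            have h4 : -2 ≤ a := by nlinarith
            have h5 : a ≤ 2 := by nlinarith
            refine mul_le_mul' (ENNReal.ofReal_le_ofReal (Real.exp_le_exp.2 ?_))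
              (hk_anti (su u) k h4)
            nlinarith
          · rw [Set.indicator_of_notMem ha, mul_zero]
            exact zero_le
      _ = ENNReal.ofReal (Real.exp (2 * b)) * hk (su u) k (-2) := by simp
  have h4 : ENNReal.ofReal (3/4 * Q) ≤ ENNReal.ofReal (Real.exp (2 * b)) * hk (su u) k (-2) := by
    refine le_trans ?_ h3
    rw [← ENNReal.ofReal_toReal (measure_ne_top (mu (su u) (bu u) k) {a : ℝ | 4 ≤ a ^ 2}ᶜ)]
    exact ENNReal.ofReal_le_ofReal h2
  have hQ0 : 0 ≤ Q := M.pos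
  calc ENNReal.ofReal (3/4 * Q * Real.exp (-(2 * b)))
      = ENNReal.ofReal (3/4 * Q) * ENNReal.ofReal (Real.exp (-(2 * b))) :=
        ENNReal.ofReal_mul (by positivity)
    _ ≤ ENNReal.ofReal (Real.exp (2 * b)) * hk (su u) k (-2) *
          ENNReal.ofReal (Real.exp (-(2 * b))) := mul_le_mul' h4 le_rfl
    _ = (ENNReal.ofReal (Real.exp (2 * b)) * ENNReal.ofReal (Real.exp (-(2 * b)))) *
          hk (su u) k (-2) := by ring
    _ = hk (su u) k (-2) := by
        rw [← ENNReal.ofReal_mul (Real.exp_pos _).le, ← Real.exp_add]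
        simp

/-- the constant `sqrt (2 / π)` -/
noncomputable def cc : ℝ := Real.sqrt (2 / Real.pi)

theorem cc_pos : 0 < cc := by unfold cc; positivity

theorem cc_sq : cc ^ 2 = 2 / Real.pi := Real.sq_sqrt (by positivity)

theorem cc_eq : (Real.sqrt (2 * Real.pi))⁻¹ = cc / 2 := by
  have h : Real.sqrt (2 * Real.pi) * cc = 2 := by
    unfold cc
    rw [← Real.sqrt_mul (by positivity)]
    have : 2 * Real.pi * (2 / Real.pi) = 2 ^ 2 := by field_simp
    rw [this, Real.sqrt_sq (by norm_num)]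
  have h0 : Real.sqrt (2 * Real.pi) ≠ 0 := by positivity
  field_simp
  linarith

theorem bu_zero : bu 0 = cc := by
  unfold bu
  rw [Ph_zero, ph_eq, cc_eq]
  simp

theorem su_zero : su 0 = cc := by unfold su; rw [bu_zero, zero_add]

theorem qu_zero : qu 0 = Real.exp (1 / Real.pi) / 2 := by
  unfold qu
  rw [bu_zero, cc_sq, Ph_zero]
  have : 2 / Real.pi / 2 = 1 / Real.pi := by field_simp
  rw [this]
  ring

end Pool.Agent.TH84.HC
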