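import Pool.Agent.TH84.HC.Univ
import Pool.Agent.TH84.HC.Cover

/-!
# The covering theorem
-/

set_option autoImplicit false

open MeasureTheory ProbabilityTheory Filter Topology
open scoped RealInnerProductSpace ENNReal

namespace Pool.Agent.TH84.HC

open Pool.Agent.PZ871 (E gm)

/-- `K` is a convex body -/
def IsBody {d : ℕ} (K : Set (E d)) : Prop :=
  Convex ℝ K ∧ IsCompact K ∧ (interior K).Nonempty

/-- `K` contains the ellipsoid `{z | ‖A (z - p)‖ ≤ 1}` -/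
def ContainsEllipsoid {d : ℕ} (A : E d ≃L[ℝ] E d) (p : E d) (K : Set (E d)) : Prop :=
  ∀ z, ‖A (z - p)‖ ≤ 1 → z ∈ K

/-- The corner of `K` at `x` is seen from distance `R` by `m` half-spaces, relative to the ellipsoid
`{z | ‖A z‖ ≤ 1}`: there are `m` nonzero functionals `g i` such that every direction on which they are
all negative points from `x` into the interior of `K`, and a point `w` with `‖A w‖ ≤ R` such that the
cone `{z | g i z ≤ g i w for all i}` with apex `w` contains the ellipsoid. -/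
def Seen {d : ℕ} (A : E d ≃L[ℝ] E d) (m : ℕ) (R : ℝ) (K : Set (E d)) (x : E d) : Prop :=
  ∃ (g : Fin m → (E d →L[ℝ] ℝ)) (w : E d), ‖A w‖ ≤ R ∧
    (∀ i, g i ≠ 0 ∧ ∀ z, ‖A z‖ ≤ 1 → g i z ≤ g i w) ∧
    ∀ v : E d, (∀ i, g i v < 0) → ∃ t : ℝ, 0 < t ∧ x + t • v ∈ interior K

/-- the explicit bound with a parameter -/
noncomputable def bndU (d m : ℕ) (R u : ℝ) : ℝ :=
  1 + 8 * m * d * (Real.exp (su u ^ 2 * R ^ 2 / 2) / qu u ^ m) *
    Real.log (4 * (1 + su u) * R ^ 2 * (d + m + su u ^ 2 * R ^ 2 + 4))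

/-- the explicit bound -/
noncomputable def bnd (d m : ℕ) (R : ℝ) : ℝ :=
  1 + 8 * m * d * 2 ^ m * Real.exp ((R ^ 2 - m) / Real.pi) *
    Real.log (8 * R ^ 2 * (d + m + R ^ 2 + 4))

theorem bndU_zero (d m : ℕ) (hd : 1 ≤ d) (R : ℝ) (hR : 1 ≤ R) : bndU d m R 0 ≤ bnd d m R := by
  unfold bndU bnd
  have hR2 : 1 ≤ R ^ 2 := by nlinarith
  have hd0 : (1:ℝ) ≤ d := by exact_mod_cast hd
  have hcc : cc ≤ 8/10 := by
    have h1 : cc ^ 2 ≤ (8/10) ^ 2 := by
      rw [cc_sq, div_le_iff₀ Real.pi_pos]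
      nlinarith [Real.pi_gt_d2]
    exact le_of_sq_le_sq h1 (by norm_num)
  have hc0 := cc_pos
  rw [su_zero, qu_zero]
  have e1 : Real.exp (cc ^ 2 * R ^ 2 / 2) / (Real.exp (1 / Real.pi) / 2) ^ m =
      2 ^ m * Real.exp ((R ^ 2 - m) / Real.pi) := by
    rw [div_pow, ← Real.exp_nat_mul, div_div_eq_mul_div, mul_comm, mul_div_assoc, ← Real.exp_sub,
      cc_sq]
    congr 2
    ring
  rw [e1]
  have h1 : Real.log (4 * (1 + cc) * R ^ 2 * (d + m + cc ^ 2 * R ^ 2 + 4)) ≤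
      Real.log (8 * R ^ 2 * (d + m + R ^ 2 + 4)) := by
    apply Real.log_le_log (by positivity)
    have h2 : cc ^ 2 * R ^ 2 ≤ R ^ 2 := by
      have : cc ^ 2 ≤ 1 := by nlinarith
      nlinarith
    have h3 : 4 * (1 + cc) * R ^ 2 ≤ 8 * R ^ 2 := by nlinarith
    have hm0 : (0:ℝ) ≤ m := Nat.cast_nonneg m
    exact mul_le_mul h3 (by linarith) (by positivity) (by positivity)
  have h4 : 0 ≤ 8 * (m:ℝ) * d * (2 ^ m * Real.exp ((R ^ 2 - m) / Real.pi)) := by positivity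
  have h5 := mul_le_mul_of_nonneg_left h1 h4
  linarith

/-- a corner of a body containing an ellipsoid, at bounded distance, is seen -/
theorem seen_of_corner {d m : ℕ} {K : Set (E d)} {A : E d ≃L[ℝ] E d} {p : E d} {R : ℝ}
    (hb : ContainsEllipsoid A p K) {x : E d} (hxR : ‖A (x - p)‖ ≤ R) (hx : IsCorner m K x) :
    Seen A m R K x := by
  obtain ⟨g, hg, hgv⟩ := hx
  refine ⟨g, x - p, hxR, fun i => ⟨(hg i).1, fun z hz => ?_⟩, hgv⟩
  have hz' : p + z ∈ K := by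
    apply hb
    rwa [add_sub_cancel_left]
  have h1 := (hg i).2 _ hz'
  rw [map_add] at h1
  rw [map_sub]
  linarith

/-- the functionals of a seen corner give an admissible tuple -/
theorem adm_of_seen {d m : ℕ} (A : E d ≃L[ℝ] E d) (R : ℝ) (g : Fin m → (E d →L[ℝ] ℝ)) (w : E d)
    (hw : ‖A w‖ ≤ R) (hg : ∀ i, g i ≠ 0 ∧ ∀ z, ‖A z‖ ≤ 1 → g i z ≤ g i w) :
    ∃ φ : Fin m → E d, Adm R φ ∧ ∀ u : E d, (∀ i, ⟪u, φ i⟫ < 0) → ∀ i, g i (A.symm u) < 0 := by
  -- the Riesz vectors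
  let f : Fin m → (E d →L[ℝ] ℝ) := fun i => (g i).comp (A.symm : E d →L[ℝ] E d)
  let ψ : Fin m → E d := fun i => (InnerProductSpace.toDual ℝ (E d)).symm (f i)
  have hψ : ∀ i y, ⟪ψ i, y⟫ = g i (A.symm y) := by
    intro i y
    have := InnerProductSpace.toDual_symm_apply (𝕜 := ℝ) (x := y) (y := f i)
    rw [this]
    rfl
  have hψ0 : ∀ i, ψ i ≠ 0 := by
    intro i h0
    apply (hg i).1
    ext z
    have := hψ i (A z)
    rw [h0, inner_zero_left, ContinuousLinearEquiv.symm_apply_apply] at this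
    simpa using this.symm
  have hn : ∀ i, 0 < ‖ψ i‖ := fun i => norm_pos_iff.2 (hψ0 i)
  refine ⟨fun i => (‖ψ i‖)⁻¹ • ψ i, ⟨?_, A w, hw, ?_⟩, ?_⟩
  · intro i
    rw [norm_smul, norm_inv, norm_norm, inv_mul_cancel₀ (hn i).ne']
  · intro i
    set φ : E d := (‖ψ i‖)⁻¹ • ψ i with hφ
    have hφ1 : ‖φ‖ = 1 := by
      rw [hφ, norm_smul, norm_inv, norm_norm, inv_mul_cancel₀ (hn i).ne']
    have h1 := (hg i).2 (A.symm φ) (by rw [ContinuousLinearEquiv.apply_symm_apply, hφ1])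
    have h3 : g i w = ⟪ψ i, A w⟫ := by
      rw [hψ, ContinuousLinearEquiv.symm_apply_apply]
    have h4 : g i (A.symm φ) = ‖ψ i‖ := by
      rw [← hψ, hφ, inner_smul_right, real_inner_self_eq_norm_sq]
      field_simp
    have h5 : ‖ψ i‖ ≤ ⟪ψ i, A w⟫ := by
      rw [← h4, ← h3]
      exact h1
    have h6 : ⟪A w, φ⟫ = (‖ψ i‖)⁻¹ * ⟪ψ i, A w⟫ := by
      rw [hφ, inner_smul_right, real_inner_comm]
    rw [h6, ← inv_mul_cancel₀ (hn i).ne']
    exact mul_le_mul_of_nonneg_left h5 (inv_nonneg.2 (hn i).le)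
  · intro u hu i
    have h1 := hu i
    rw [inner_smul_right] at h1
    have h2 : ⟪u, ψ i⟫ < 0 := by
      by_contra hc
      push Not at hc
      have := mul_nonneg (inv_nonneg.2 (hn i).le) hc
      linarith
    rw [← hψ, real_inner_comm]
    exact h2

/-- **The covering theorem**, explicit form with a universal set of directions. -/
theorem explicitU (d m : ℕ) (hd : 1 ≤ d) (R : ℝ) (hR : 1 ≤ R) {u : ℝ} (hu : 0 ≤ u) :
    ∃ U : Finset (E d), (U.card : ℝ) ≤ bndU d m R u ∧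
      ∀ (K : Set (E d)) (A : E d ≃L[ℝ] E d), IsBody K → ∀ W : Finset (E d),
        (∀ x ∈ Set.extremePoints ℝ K, Seen A m R K x ∨
          ∃ w ∈ W, ∃ t : ℝ, 0 < t ∧ x + t • w ∈ interior K) →
        (∀ x ∈ frontier K, (∃ u ∈ U, ∃ t : ℝ, 0 < t ∧ x + t • A.symm u ∈ interior K) ∨
          ∃ w ∈ W, ∃ t : ℝ, 0 < t ∧ x + t • w ∈ interior K) ∧
        CoveredBy ((U.card : ℝ) + W.card) K := by
  classical
  obtain ⟨U, hU, hsel⟩ := universalU d m hd R hR hu
  refine ⟨U, hU, ?_⟩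
  intro K A hK W hW
  have hne : U.Nonempty := by
    obtain ⟨u, hu, _⟩ := hsel _ (adm_single hd m hR)
    exact ⟨u, hu⟩
  have hill : ∀ x ∈ frontier K, (∃ u ∈ U, ∃ t : ℝ, 0 < t ∧ x + t • A.symm u ∈ interior K) ∨
      ∃ w ∈ W, ∃ t : ℝ, 0 < t ∧ x + t • w ∈ interior K := by
    intro x hx
    obtain ⟨v, hv, hdom⟩ := extreme_dom hK.1 hK.2.1 hK.2.2 hx
    rcases hW v hv with ⟨g, w, hwR, hg, hgv⟩ | ⟨w, hw, hwt⟩
    · obtain ⟨φ, hφ, hneg⟩ := adm_of_seen A R g w hwR hg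
      obtain ⟨u, hu, huneg⟩ := hsel φ hφ
      exact Or.inl ⟨u, hu, hdom _ (hgv _ (hneg u huneg))⟩
    · exact Or.inr ⟨w, hw, hdom _ hwt⟩
  refine ⟨hill, ?_⟩
  obtain ⟨T, hT, hcov⟩ := cover_of_illum hK.1 hK.2.1 ((U.image fun u => A.symm u) ∪ W)
    ((hne.image _).mono Finset.subset_union_left) (fun x hx => by
      rcases hill x hx with ⟨u, hu, h⟩ | ⟨w, hw, h⟩
      · exact ⟨_, Finset.mem_union_left _ (Finset.mem_image_of_mem _ hu), h⟩
      · exact ⟨w, Finset.mem_union_right _ hw, h⟩)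
  refine ⟨T, hT.trans ?_, hcov⟩
  have h1 := Finset.card_union_le (U.image fun u => A.symm u) W
  have h2 : (U.image fun u => A.symm u).card ≤ U.card := Finset.card_image_le
  exact_mod_cast h1.trans (by omega)

/-- the same with a finite set of exceptional extreme points -/
theorem explicit_FU (d m : ℕ) (hd : 1 ≤ d) (R : ℝ) (hR : 1 ≤ R) {u : ℝ} (hu : 0 ≤ u)
    (K : Set (E d)) (A : E d ≃L[ℝ] E d) (hK : IsBody K) (F : Finset (E d))
    (hF : ∀ x ∈ Set.extremePoints ℝ K, x ∉ F → Seen A m R K x) :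
    ∃ T : Finset (E d), (T.card : ℝ) ≤ F.card + bndU d m R u ∧
      K ⊆ ⋃ t ∈ T, (fun x => t + x) '' interior K := by
  classical
  obtain ⟨U, hU, h⟩ := explicitU d m hd R hR hu
  obtain ⟨a, ha⟩ := hK.2.2
  obtain ⟨T, hT, hcov⟩ := (h K A hK (F.image fun x => a - x) (fun x hx => by
    by_cases hxF : x ∈ F
    · exact Or.inr ⟨_, Finset.mem_image_of_mem _ hxF, toward_int hK.1 ha hx.1⟩
    · exact Or.inl (hF x hx hxF))).2
  refine ⟨T, hT.trans ?_, hcov⟩
  have h1 : ((F.image fun x => a - x).card : ℝ) ≤ F.card := by exact_mod_cast Finset.card_image_le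
  linarith

theorem explicit_F (d m : ℕ) (hd : 1 ≤ d) (R : ℝ) (hR : 1 ≤ R) (K : Set (E d))
    (A : E d ≃L[ℝ] E d) (hK : IsBody K) (F : Finset (E d))
    (hF : ∀ x ∈ Set.extremePoints ℝ K, x ∉ F → Seen A m R K x) :
    ∃ T : Finset (E d), (T.card : ℝ) ≤ F.card + bnd d m R ∧
      K ⊆ ⋃ t ∈ T, (fun x => t + x) '' interior K := by
  obtain ⟨T, hT, h⟩ := explicit_FU d m hd R hR le_rfl K A hK F hF
  exact ⟨T, hT.trans (add_le_add le_rfl (bndU_zero d m hd R hR)), h⟩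

/-- the nearest point of the convex hull of unit vectors which pairwise have large inner products -/
theorem far_hull {d m : ℕ} (hm : 1 ≤ m) (a : Fin m → E d) (ρ : ℝ) (hρ : 0 < ρ)
    (h : ∀ c : Fin m → ℝ, (∀ i, 0 ≤ c i) → ∑ i, c i = 1 → ρ ≤ ‖∑ i, c i • a i‖) :
    ∃ w : E d, ‖w‖ ≤ 1 / ρ ∧ ∀ i, 1 ≤ ⟪a i, w⟫ := by
  classical
  let S : Set (E d) := convexHull ℝ (Set.range a)
  have hSc : Convex ℝ S := convex_convexHull ℝ _
  have hfin : (Set.range a).Finite := Set.finite_range a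
  have hScomp : IsCompact S := hfin.isCompact_convexHull ℝ
  have hSne : S.Nonempty := ⟨a ⟨0, hm⟩, subset_convexHull ℝ _ ⟨_, rfl⟩⟩
  obtain ⟨v, hvS, hv⟩ := hScomp.exists_isMinOn hSne continuous_norm.continuousOn
  have hmin : ∀ y ∈ S, ‖v‖ ≤ ‖y‖ := fun y hy => hv hy
  -- the norm of the nearest point
  have hvρ : ρ ≤ ‖v‖ := by
    have hv2 : v ∈ convexHull ℝ (Set.range a) := hvS
    rw [convexHull_range_eq_exists_affineCombination] at hv2
    obtain ⟨s, c, hc0, hc1, hcv⟩ := hv2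
    have e1 : s.affineCombination ℝ a c = ∑ i ∈ s, c i • a i :=
      s.affineCombination_eq_linear_combination a c hc1
    rw [e1] at hcv
    have h2 := h (fun i => if i ∈ s then c i else 0) (fun i => by
      by_cases hi : i ∈ s
      · simp only [if_pos hi]; exact hc0 i hi
      · simp only [if_neg hi]; exact le_rfl) (by
      rw [Finset.sum_ite_mem, Finset.univ_inter]; exact hc1)
    have e2 : ∑ i, (if i ∈ s then c i else 0) • a i = ∑ i ∈ s, c i • a i := by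
      rw [← Finset.sum_subset (Finset.subset_univ s) (fun i _ hi => by simp [hi])]
      exact Finset.sum_congr rfl fun i hi => by rw [if_pos hi]
    rw [e2, hcv] at h2
    exact h2
  have hv0 : 0 < ‖v‖ := lt_of_lt_of_le hρ hvρ
  -- the obtuse angle property
  have hang : ∀ y ∈ S, ‖v‖ ^ 2 ≤ ⟪y, v⟫ := by
    intro y hy
    by_contra hc
    push Not at hc
    -- move slightly towards `y`
    have hquad : ∀ t : ℝ, 0 < t → t ≤ 1 → ‖v‖ ^ 2 ≤ ‖v‖ ^ 2 + 2 * t * (⟪y, v⟫ - ‖v‖ ^ 2) +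
        t ^ 2 * ‖y - v‖ ^ 2 := by
      intro t ht ht1
      have hmem : (1 - t) • v + t • y ∈ S := hSc hvS hy (by linarith) ht.le (by ring)
      have h3 := hmin _ hmem
      have h4 := pow_le_pow_left₀ (norm_nonneg _) h3 2
      have e : (1 - t) • v + t • y = v + t • (y - v) := by
        rw [smul_sub, sub_smul, one_smul]; abel
      rw [e, norm_add_sq_real, inner_smul_right, norm_smul, mul_pow, Real.norm_eq_abs, sq_abs,
        inner_sub_right, real_inner_self_eq_norm_sq, real_inner_comm y v] at h4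
      linarith
    set β : ℝ := ‖v‖ ^ 2 - ⟪y, v⟫ with hβ
    have hβ0 : 0 < β := by rw [hβ]; linarith
    set q : ℝ := ‖y - v‖ ^ 2 + β with hq
    have hq0 : 0 < q := by rw [hq]; positivity
    have ht1 : β / q ≤ 1 := by
      rw [div_le_one hq0, hq]
      have := sq_nonneg ‖y - v‖
      linarith
    have h5 := hquad (β / q) (div_pos hβ0 hq0) ht1
    have h6 : (β / q) ^ 2 * ‖y - v‖ ^ 2 ≤ (β / q) * β := by
      have h7 : (β / q) * ‖y - v‖ ^ 2 ≤ β := by
        rw [div_mul_eq_mul_div, div_le_iff₀ hq0]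
        have h8 : ‖y - v‖ ^ 2 ≤ q := by rw [hq]; linarith
        nlinarith
      have h9 := mul_le_mul_of_nonneg_left h7 (div_pos hβ0 hq0).le
      calc (β / q) ^ 2 * ‖y - v‖ ^ 2 = (β / q) * ((β / q) * ‖y - v‖ ^ 2) := by ring
        _ ≤ _ := h9
    have h10 : ⟪y, v⟫ - ‖v‖ ^ 2 = -β := by rw [hβ]; ring
    rw [h10] at h5
    have h11 : 0 < (β / q) * β := mul_pos (div_pos hβ0 hq0) hβ0
    nlinarith
  refine ⟨(‖v‖ ^ 2)⁻¹ • v, ?_, fun i => ?_⟩
  · rw [norm_smul, norm_inv, norm_pow, norm_norm]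
    have e : (‖v‖ ^ 2)⁻¹ * ‖v‖ = 1 / ‖v‖ := by
      field_simp
    rw [e]
    exact one_div_le_one_div_of_le hρ hvρ
  · rw [inner_smul_right]
    have h1 := hang (a i) (subset_convexHull ℝ _ ⟨i, rfl⟩)
    have h2 : (‖v‖ ^ 2)⁻¹ * ‖v‖ ^ 2 = 1 := inv_mul_cancel₀ (by positivity)
    rw [← h2]
    exact mul_le_mul_of_nonneg_left h1 (by positivity)

/-- convex combinations of unit vectors with pairwise inner products at least `τ` -/
theorem hull_norm {d m : ℕ} (a : Fin m → E d) (ha : ∀ i, ‖a i‖ = 1) (τ : ℝ) (h1 : τ ≤ 1)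
    (h : ∀ i j, a i ≠ a j → τ ≤ ⟪a i, a j⟫) (c : Fin m → ℝ) (hc0 : ∀ i, 0 ≤ c i)
    (hc1 : ∑ i, c i = 1) : (1 + τ * (m - 1)) / m ≤ ‖∑ i, c i • a i‖ ^ 2 := by
  classical
  have hm0 : 0 < m := by
    rcases Nat.eq_zero_or_pos m with h0 | h0
    · subst h0; simp at hc1
    · exact h0
  have hm : (0:ℝ) < m := by exact_mod_cast hm0
  have e1 : ‖∑ i, c i • a i‖ ^ 2 = ∑ i, ∑ j, c i * c j * ⟪a i, a j⟫ := by
    rw [← real_inner_self_eq_norm_sq, sum_inner]
    refine Finset.sum_congr rfl fun i _ => ?_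
    rw [inner_sum]
    refine Finset.sum_congr rfl fun j _ => ?_
    rw [inner_smul_left, inner_smul_right]
    simp only [conj_trivial]
    ring
  have e2 : ∑ i, ∑ j, c i * c j * (τ + if i = j then 1 - τ else 0) ≤
      ∑ i, ∑ j, c i * c j * ⟪a i, a j⟫ := by
    refine Finset.sum_le_sum fun i _ => Finset.sum_le_sum fun j _ => ?_
    refine mul_le_mul_of_nonneg_left ?_ (mul_nonneg (hc0 i) (hc0 j))
    by_cases hij : a i = a j
    · rw [← hij, real_inner_self_eq_norm_sq, ha]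
      split_ifs <;> linarith
    · have hne : i ≠ j := fun hh => hij (by rw [hh])
      rw [if_neg hne, add_zero]
      exact h i j hij
  have e3 : ∑ i, ∑ j, c i * c j * (τ + if i = j then 1 - τ else 0) =
      τ + (1 - τ) * ∑ i, c i ^ 2 := by
    have e4 : ∀ i, ∑ j, c i * c j * (τ + if i = j then 1 - τ else 0) =
        τ * c i + (1 - τ) * c i ^ 2 := by
      intro i
      simp only [mul_add]
      rw [Finset.sum_add_distrib]
      have f1 : ∑ j, c i * c j * τ = τ * c i := by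
        rw [← Finset.sum_mul, ← Finset.mul_sum, hc1]
        ring
      have f2 : ∑ j, c i * c j * (if i = j then 1 - τ else 0) = (1 - τ) * c i ^ 2 := by
        simp only [mul_ite, mul_zero]
        rw [Finset.sum_ite_eq Finset.univ i]
        simp
        ring
      rw [f1, f2]
    simp only [e4]
    rw [Finset.sum_add_distrib, ← Finset.mul_sum, ← Finset.mul_sum, hc1]
    ring
  have e5 : 1 / (m:ℝ) ≤ ∑ i, c i ^ 2 := by
    have := sq_sum_le_card_mul_sum_sq (s := (Finset.univ : Finset (Fin m))) (f := c)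
    rw [hc1, Finset.card_univ, Fintype.card_fin] at this
    rw [div_le_iff₀ hm]
    linarith
  rw [e1]
  refine le_trans ?_ e2
  rw [e3]
  have e6 := mul_le_mul_of_nonneg_left e5 (by linarith : 0 ≤ 1 - τ)
  have e7 : (1 + τ * (m - 1)) / m = τ + (1 - τ) * (1 / m) := by
    field_simp
    ring
  rw [e7]
  linarith

end Pool.Agent.TH84.HC
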