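import Pool.Agent.TH84.HC.Hk
import Pool.Agent.H902R3.ZA.ROT

/-!
# Moments of the tilted doubled indicators
-/

set_option autoImplicit false

open MeasureTheory ProbabilityTheory
open scoped RealInnerProductSpace ENNReal

namespace Pool.Agent.TH84.HC

open Pool.Agent.PZ871 (E gm)

/-- the tilted measure -/
noncomputable def mu (s b : ℝ) (k : ℕ) : Measure ℝ :=
  g1.withDensity (fun a => hk s k a * ENNReal.ofReal (Real.exp (b * Real.sqrt 2 ^ k * a)))

theorem wmeas (s b : ℝ) (k : ℕ) :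
    Measurable (fun a => hk s k a * ENNReal.ofReal (Real.exp (b * Real.sqrt 2 ^ k * a))) :=
  (hk_meas s k).mul (by fun_prop)

theorem lint_mu (s b : ℝ) (k : ℕ) (f : ℝ → ℝ≥0∞) (hf : Measurable f) :
    ∫⁻ a, f a ∂(mu s b k) =
      ∫⁻ a, hk s k a * ENNReal.ofReal (Real.exp (b * Real.sqrt 2 ^ k * a)) * f a ∂g1 := by
  unfold mu
  rw [lintegral_withDensity_eq_lintegral_mul _ (wmeas s b k) hf]
  rfl

theorem mu_succ (s β : ℝ) (k : ℕ) :
    ((mu s β k).prod (mu s β k)).map (fun p : ℝ × ℝ => (p.1 + p.2) / Real.sqrt 2) = mu s β (k + 1) := by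
  have hsum : Measurable (fun p : ℝ × ℝ => (p.1 + p.2) / Real.sqrt 2) := by fun_prop
  refine Measure.ext_of_lintegral _ fun f hf => ?_
  rw [lintegral_map hf hsum, lint_mu s β (k + 1) f hf]
  unfold mu
  rw [prod_withDensity (wmeas s β k) (wmeas s β k)]
  have hW : Measurable (fun z : ℝ × ℝ =>
      (hk s k z.1 * ENNReal.ofReal (Real.exp (β * Real.sqrt 2 ^ k * z.1))) *
      (hk s k z.2 * ENNReal.ofReal (Real.exp (β * Real.sqrt 2 ^ k * z.2)))) :=
    ((wmeas s β k).comp measurable_fst).mul ((wmeas s β k).comp measurable_snd)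
  have hF : Measurable (fun z : ℝ × ℝ => f ((z.1 + z.2) / Real.sqrt 2)) := hf.comp hsum
  have hΨ := (hW.mul hF).comp (Pool.Agent.H902R3.ZA.ROTaux.mp_R1).measurable
  rw [lintegral_withDensity_eq_lintegral_mul _ hW hF,
    ← (Pool.Agent.H902R3.ZA.ROTaux.mp_R1).lintegral_comp (hW.mul hF)]
  refine (lintegral_prod _ hΨ.aemeasurable).trans ?_
  refine lintegral_congr fun a => ?_
  rw [hk_succ]
  have hm : Measurable (fun b : ℝ =>
      hk s k ((a + b) / Real.sqrt 2) * hk s k ((a - b) / Real.sqrt 2)) :=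
    ((hk_meas s k).comp (by fun_prop)).mul ((hk_meas s k).comp (by fun_prop))
  rw [← lintegral_mul_const _ hm, ← lintegral_mul_const _ (hm.mul_const _)]
  refine lintegral_congr fun b => ?_
  change (hk s k ((a + b) / Real.sqrt 2) *
      ENNReal.ofReal (Real.exp (β * Real.sqrt 2 ^ k * ((a + b) / Real.sqrt 2)))) *
    (hk s k ((a - b) / Real.sqrt 2) *
      ENNReal.ofReal (Real.exp (β * Real.sqrt 2 ^ k * ((a - b) / Real.sqrt 2)))) *
    f (((a + b) / Real.sqrt 2 + (a - b) / Real.sqrt 2) / Real.sqrt 2) = _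
  have e : Real.sqrt 2 * Real.sqrt 2 = 2 := Real.mul_self_sqrt (by norm_num)
  have e1 : ((a + b) / Real.sqrt 2 + (a - b) / Real.sqrt 2) / Real.sqrt 2 = a := by
    rw [← add_div, div_div, e]
    ring
  have e2 : ENNReal.ofReal (Real.exp (β * Real.sqrt 2 ^ k * ((a + b) / Real.sqrt 2))) *
      ENNReal.ofReal (Real.exp (β * Real.sqrt 2 ^ k * ((a - b) / Real.sqrt 2))) =
      ENNReal.ofReal (Real.exp (β * Real.sqrt 2 ^ (k + 1) * a)) := by
    rw [← ENNReal.ofReal_mul (Real.exp_pos _).le, ← Real.exp_add]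
    congr 2
    rw [← mul_add, ← add_div, pow_succ]
    have : (a + b + (a - b)) / Real.sqrt 2 = Real.sqrt 2 * a := by
      rw [div_eq_iff sqrt2_pos.ne']
      linear_combination (-a) * e
    rw [this]
    ring
  rw [e1, ← e2]
  ring

/-- the moment data -/
structure Mo (μ : Measure ℝ) (m : ℝ) : Prop where
  mass : μ Set.univ = ENNReal.ofReal m
  pos : 0 ≤ m
  int : Integrable (fun a : ℝ => a ^ 2) μ
  mean : ∫ a, a ∂μ = 0
  var : ∫ a, a ^ 2 ∂μ ≤ m

theorem Mo.step {μ : Measure ℝ} {m : ℝ} (h : Mo μ m) :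
    Mo ((μ.prod μ).map (fun p : ℝ × ℝ => (p.1 + p.2) / Real.sqrt 2)) (m ^ 2) := by
  have : IsFiniteMeasure μ := ⟨by rw [h.mass]; exact ENNReal.ofReal_lt_top⟩
  have hm : Measurable (fun p : ℝ × ℝ => (p.1 + p.2) / Real.sqrt 2) := by fun_prop
  have hreal : μ.real Set.univ = m := by
    rw [Measure.real, h.mass, ENNReal.toReal_ofReal h.pos]
  have i1 : Integrable (fun a : ℝ => a) μ := by
    have : MemLp (fun a : ℝ => a) 2 μ := by
      rw [memLp_two_iff_integrable_sq (by fun_prop)]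
      exact h.int
    exact this.integrable (by norm_num)
  have i0 : Integrable (fun _ : ℝ => (1 : ℝ)) μ := integrable_const 1
  have e : Real.sqrt 2 ^ 2 = 2 := Real.sq_sqrt (by norm_num)
  have hsq : (fun p : ℝ × ℝ => ((p.1 + p.2) / Real.sqrt 2) ^ 2) =
      (fun p : ℝ × ℝ => (1/2) * (p.1 ^ 2 * 1) + p.1 * p.2 + (1/2) * (1 * p.2 ^ 2)) := by
    funext p
    rw [div_pow, e]
    ring
  have j1 : Integrable (fun p : ℝ × ℝ => p.1 ^ 2 * 1) (μ.prod μ) :=
    Integrable.mul_prod (f := fun a : ℝ => a ^ 2) (g := fun _ : ℝ => (1:ℝ)) h.int i0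
  have j2 : Integrable (fun p : ℝ × ℝ => p.1 * p.2) (μ.prod μ) :=
    Integrable.mul_prod (f := fun a : ℝ => a) (g := fun a : ℝ => a) i1 i1
  have j3 : Integrable (fun p : ℝ × ℝ => 1 * p.2 ^ 2) (μ.prod μ) :=
    Integrable.mul_prod (f := fun _ : ℝ => (1:ℝ)) (g := fun a : ℝ => a ^ 2) i0 h.int
  refine ⟨?_, by positivity, ?_, ?_, ?_⟩
  · rw [Measure.map_apply hm MeasurableSet.univ, Set.preimage_univ, ← Set.univ_prod_univ,
      Measure.prod_prod, h.mass, sq m, ENNReal.ofReal_mul h.pos]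
  · rw [integrable_map_measure (by fun_prop) hm.aemeasurable]
    have : ((fun a : ℝ => a ^ 2) ∘ fun p : ℝ × ℝ => (p.1 + p.2) / Real.sqrt 2) =
      (fun p : ℝ × ℝ => ((p.1 + p.2) / Real.sqrt 2) ^ 2) := rfl
    rw [this, hsq]
    exact ((j1.const_mul _).add j2).add (j3.const_mul _)
  · rw [integral_map hm.aemeasurable (by fun_prop)]
    have h1 : (fun p : ℝ × ℝ => (p.1 + p.2) / Real.sqrt 2) =
        (fun p : ℝ × ℝ => (1 / Real.sqrt 2) * (p.1 * 1) + (1 / Real.sqrt 2) * (1 * p.2)) := by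
      funext p
      ring
    have k1 : Integrable (fun p : ℝ × ℝ => p.1 * 1) (μ.prod μ) :=
      Integrable.mul_prod (f := fun a : ℝ => a) (g := fun _ : ℝ => (1:ℝ)) i1 i0
    have k2 : Integrable (fun p : ℝ × ℝ => 1 * p.2) (μ.prod μ) :=
      Integrable.mul_prod (f := fun _ : ℝ => (1:ℝ)) (g := fun a : ℝ => a) i0 i1
    rw [h1, integral_add (k1.const_mul _) (k2.const_mul _), integral_const_mul,
      integral_const_mul, integral_prod_mul (fun a : ℝ => a) (fun _ : ℝ => (1:ℝ)),
      integral_prod_mul (fun _ : ℝ => (1:ℝ)) (fun a : ℝ => a), h.mean]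
    ring
  · have j12 : Integrable (fun p : ℝ × ℝ => (1/2) * (p.1 ^ 2 * 1) + p.1 * p.2) (μ.prod μ) :=
      (j1.const_mul _).add j2
    rw [integral_map hm.aemeasurable (by fun_prop), hsq,
      integral_add j12 (j3.const_mul _),
      integral_add (j1.const_mul _) j2, integral_const_mul, integral_const_mul,
      integral_prod_mul (fun a : ℝ => a ^ 2) (fun _ : ℝ => (1:ℝ)),
      integral_prod_mul (fun a : ℝ => a) (fun a : ℝ => a),
      integral_prod_mul (fun _ : ℝ => (1:ℝ)) (fun a : ℝ => a ^ 2), h.mean]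
    have : ∫ _ : ℝ, (1:ℝ) ∂μ = m := by
      rw [integral_const, hreal]
      simp
    rw [this]
    nlinarith [h.var, h.pos, mul_le_mul_of_nonneg_left h.var h.pos]

theorem mo_all {s b q : ℝ} (h : Mo (mu s b 0) q) (k : ℕ) : Mo (mu s b k) (q ^ 2 ^ k) := by
  induction k with
  | zero => simpa using h
  | succ k ih =>
    have := ih.step
    rw [mu_succ, ← pow_mul, ← pow_succ] at this
    exact this

/-- one dimensional Cameron-Martin formula -/
theorem cm1 (c : ℝ) (f : ℝ → ℝ≥0∞) (hf : Measurable f) :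
    ∫⁻ x, f (x + c) ∂g1 = ∫⁻ x, ENNReal.ofReal (Real.exp (c * x - c ^ 2 / 2)) * f x ∂g1 := by
  have hg : ∀ F : ℝ → ℝ≥0∞, Measurable F →
      ∫⁻ x, F x ∂g1 = ∫⁻ x, ENNReal.ofReal (gaussianPDFReal 0 1 x) * F x := by
    intro F hF
    unfold g1
    rw [gaussianReal_of_var_ne_zero 0 (by norm_num),
      lintegral_withDensity_eq_lintegral_mul _ (measurable_gaussianPDF _ _) hF]
    rfl
  have hpm : Measurable (fun x => ENNReal.ofReal (gaussianPDFReal 0 1 x)) :=
    measurable_gaussianPDF 0 1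
  rw [hg (fun x => f (x + c)) (hf.comp (by fun_prop)), hg _ (by fun_prop),
    ← lintegral_add_right_eq_self (μ := (volume : Measure ℝ))
      (fun x => ENNReal.ofReal (gaussianPDFReal 0 1 x) *
        (ENNReal.ofReal (Real.exp (c * x - c ^ 2 / 2)) * f x)) c]
  refine lintegral_congr fun x => ?_
  rw [← mul_assoc, ← ENNReal.ofReal_mul (gaussianPDFReal_nonneg _ _ _)]
  congr 2
  rw [gaussianPDFReal_def]
  simp only [NNReal.coe_one, sub_zero, mul_one]
  rw [mul_assoc, ← Real.exp_add]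
  congr 2
  ring

theorem mu_zero (s b : ℝ) : mu s b 0 = ENNReal.ofReal (Real.exp (b ^ 2 / 2)) •
    ((g1.restrict (Set.Iio (s - b))).map (fun x => x + b)) := by
  refine Measure.ext_of_lintegral _ fun f hf => ?_
  rw [lint_mu s b 0 f hf, lintegral_smul_measure, lintegral_map hf (by fun_prop),
    ← lintegral_indicator measurableSet_Iio]
  have h1 : ∀ x : ℝ, (Set.Iio (s - b)).indicator (fun x => f (x + b)) x =
      (fun y : ℝ => (Set.Iio s).indicator f y) (x + b) := by
    intro x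
    by_cases hx : x < s - b
    · rw [Set.indicator_of_mem (by exact hx)]
      simp only
      rw [Set.indicator_of_mem (by show x + b < s; linarith)]
    · rw [Set.indicator_of_notMem (by exact hx)]
      simp only
      rw [Set.indicator_of_notMem (by show ¬ (x + b < s); linarith)]
  simp only [h1]
  rw [cm1 b (fun y : ℝ => (Set.Iio s).indicator f y) (hf.indicator measurableSet_Iio), smul_eq_mul,
    ← lintegral_const_mul _ (by
      exact (by fun_prop : Measurable fun x : ℝ => ENNReal.ofReal (Real.exp (b * x - b ^ 2 / 2))).mul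
        (hf.indicator measurableSet_Iio))]
  refine lintegral_congr fun x => ?_
  rw [hk_zero, pow_zero, mul_one]
  by_cases hx : x < s
  · rw [if_pos hx, one_mul, Set.indicator_of_mem (by exact hx), ← mul_assoc,
      ← ENNReal.ofReal_mul (Real.exp_pos _).le, ← Real.exp_add]
    congr 3
    ring
  · rw [if_neg hx, Set.indicator_of_notMem (by exact hx)]
    simp

end Pool.Agent.TH84.HC
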