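import Pool.Agent.TH84.HC.Gauss

/-!
# The Sidak inequality for even log-concave functions
-/

set_option autoImplicit false

open MeasureTheory ProbabilityTheory
open scoped RealInnerProductSpace ENNReal

namespace Pool.Agent.TH84.HC

open Pool.Agent.PZ871 (E gm)

/-- even log-concave function with values in `[0,1]` -/
structure LC {V : Type*} [AddCommGroup V] [Module ℝ V] [MeasurableSpace V] (g : V → ℝ≥0∞) :
    Prop where
  meas : Measurable g
  le1 : ∀ x, g x ≤ 1
  even : ∀ x, g (-x) = g x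
  lc : ∀ s : ℝ, 0 < s → s < 1 → ∀ x y, g x ^ s * g y ^ (1 - s) ≤ g (s • x + (1 - s) • y)

theorem LC.one {V : Type*} [AddCommGroup V] [Module ℝ V] [MeasurableSpace V] :
    LC (fun _ : V => (1 : ℝ≥0∞)) where
  meas := measurable_const
  le1 := fun _ => le_rfl
  even := fun _ => rfl
  lc := fun s _ _ _ _ => by simp

theorem LC.mul {V : Type*} [AddCommGroup V] [Module ℝ V] [MeasurableSpace V] {f g : V → ℝ≥0∞}
    (hf : LC f) (hg : LC g) : LC (fun x => f x * g x) where
  meas := hf.meas.mul hg.meas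
  le1 := fun x => by
    calc f x * g x ≤ 1 * 1 := mul_le_mul' (hf.le1 x) (hg.le1 x)
      _ = 1 := one_mul 1
  even := fun x => by rw [hf.even, hg.even]
  lc := fun s h0 h1 x y => by
    have a := hf.lc s h0 h1 x y
    have b := hg.lc s h0 h1 x y
    rw [ENNReal.mul_rpow_of_nonneg _ _ h0.le, ENNReal.mul_rpow_of_nonneg _ _ (by linarith : (0:ℝ) ≤ 1 - s)]
    calc f x ^ s * g x ^ s * (f y ^ (1 - s) * g y ^ (1 - s))
        = (f x ^ s * f y ^ (1 - s)) * (g x ^ s * g y ^ (1 - s)) := by ring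
      _ ≤ _ := mul_le_mul' a b

theorem LC.comp_inner {n : ℕ} {f : ℝ → ℝ≥0∞} (hf : LC f) (φ : E n) :
    LC (fun w : E n => f ⟪w, φ⟫) where
  meas := hf.meas.comp (by fun_prop)
  le1 := fun x => hf.le1 _
  even := fun x => by rw [inner_neg_left, hf.even]
  lc := fun s h0 h1 x y => by
    have := hf.lc s h0 h1 ⟪x, φ⟫ ⟪y, φ⟫
    rw [inner_add_left, inner_smul_left, inner_smul_left]
    simpa using this

theorem LC.prod {ι V : Type*} [AddCommGroup V] [Module ℝ V] [MeasurableSpace V]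
    (s : Finset ι) (f : ι → V → ℝ≥0∞) (h : ∀ i ∈ s, LC (f i)) :
    LC (fun x => ∏ i ∈ s, f i x) := by
  classical
  induction s using Finset.induction_on with
  | empty => simpa using LC.one
  | insert a s ha ih =>
    have h1 := h a (Finset.mem_insert_self a s)
    have h2 := ih (fun i hi => h i (Finset.mem_insert_of_mem hi))
    have := h1.mul h2
    simpa only [Finset.prod_insert ha] using this

/-- an even log-concave function on the line is nonincreasing in `|t|` -/
theorem LC.mono {F : ℝ → ℝ≥0∞} (hF : LC F) {t1 t2 : ℝ} (h : |t1| ≤ |t2|) : F t2 ≤ F t1 := by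
  have key : ∀ a b : ℝ, 0 ≤ a → a ≤ b → F b ≤ F a := by
    intro a b ha hab
    rcases eq_or_lt_of_le hab with e | hlt
    · rw [e]
    · have hb : 0 < b := lt_of_le_of_lt ha hlt
      have hs0 : 0 < (1 + a / b) / 2 := by positivity
      have hab1 : a / b < 1 := (div_lt_one hb).2 hlt
      have hs1 : (1 + a / b) / 2 < 1 := by linarith
      have h1 := hF.lc _ hs0 hs1 b (-b)
      rw [hF.even, ← ENNReal.rpow_add_of_nonneg _ _ hs0.le (by linarith)] at h1
      have e1 : (1 + a / b) / 2 + (1 - (1 + a / b) / 2) = 1 := by ring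
      rw [e1, ENNReal.rpow_one] at h1
      have e2 : ((1 + a / b) / 2) • b + (1 - (1 + a / b) / 2) • (-b) = a := by
        simp only [smul_eq_mul]
        field_simp
        ring
      rwa [e2] at h1
  have habs : ∀ t : ℝ, F |t| = F t := by
    intro t
    rcases abs_cases t with ⟨h1, _⟩ | ⟨h1, _⟩
    · rw [h1]
    · rw [h1, hF.even]
  have := key |t1| |t2| (abs_nonneg _) h
  rwa [habs, habs] at this

/-- sections of a Gaussian integral -/
theorem LC.sec {n : ℕ} {g : E n → ℝ≥0∞} (hg : LC g) (φ : E n) :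
    LC (fun t : ℝ => ∫⁻ w, g (w + (t - ⟪w, φ⟫) • φ) ∂(gm n)) where
  meas := by
    have h : Measurable (fun p : ℝ × E n => g (p.2 + (p.1 - ⟪p.2, φ⟫) • φ)) :=
      hg.meas.comp (by fun_prop)
    exact h.lintegral_prod_right
  le1 := fun t => by
    calc ∫⁻ w, g (w + (t - ⟪w, φ⟫) • φ) ∂(gm n) ≤ ∫⁻ _, 1 ∂(gm n) :=
          lintegral_mono fun w => hg.le1 _
      _ = 1 := by simp
  even := fun t => by
    have hm : Measurable (fun w : E n => g (w + (t - ⟪w, φ⟫) • φ)) :=
      hg.meas.comp (by fun_prop)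
    rw [← lint_neg n _ hm]
    refine lintegral_congr fun w => ?_
    rw [← hg.even]
    congr 1
    rw [inner_neg_left, neg_add, ← neg_smul]
    congr 2
    ring
  lc := fun s h0 h1 t1 t2 => by
    refine pln n s h0 h1 _ _ _ (hg.meas.comp (by fun_prop)) (hg.meas.comp (by fun_prop))
      (hg.meas.comp (by fun_prop)) (fun x => hg.le1 _) (fun x => hg.le1 _) ?_
    intro x y
    have := hg.lc s h0 h1 (x + (t1 - ⟪x, φ⟫) • φ) (y + (t2 - ⟪y, φ⟫) • φ)
    have e : s • (x + (t1 - ⟪x, φ⟫) • φ) + (1 - s) • (y + (t2 - ⟪y, φ⟫) • φ) =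
        s • x + (1 - s) • y + (s • t1 + (1 - s) • t2 - ⟪s • x + (1 - s) • y, φ⟫) • φ := by
      rw [inner_add_left, inner_smul_left, inner_smul_left]
      simp only [conj_trivial, smul_eq_mul, smul_add, smul_smul]
      module
    rw [e] at this
    exact this

theorem rearr {a b c d : ℝ≥0∞} (h1 : a ≤ b) (h2 : c ≤ d) : a * d + b * c ≤ a * c + b * d := by
  obtain ⟨x, rfl⟩ := exists_add_of_le h1
  obtain ⟨y, rfl⟩ := exists_add_of_le h2
  have : a * (c + y) + (a + x) * c + x * y = a * c + (a + x) * (c + y) := by ring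
  rw [← this]
  exact le_self_add

/-- Chebyshev's association inequality -/
theorem assoc {F G : ℝ → ℝ≥0∞} (hF : LC F) (hG : LC G) :
    (∫⁻ t, F t ∂g1) * (∫⁻ t, G t ∂g1) ≤ ∫⁻ t, F t * G t ∂g1 := by
  have hp : ∀ s t : ℝ, F s * G t + F t * G s ≤ F s * G s + F t * G t := by
    intro s t
    rcases le_total |s| |t| with h | h
    · have a := hF.mono h
      have b := hG.mono h
      have := rearr a b
      calc F s * G t + F t * G s = F t * G s + F s * G t := add_comm _ _
        _ ≤ F t * G t + F s * G s := this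
        _ = _ := add_comm _ _
    · exact rearr (hF.mono h) (hG.mono h)
  have h1 : ∫⁻ s, ∫⁻ t, (F s * G t + F t * G s) ∂g1 ∂g1 ≤
      ∫⁻ s, ∫⁻ t, (F s * G s + F t * G t) ∂g1 ∂g1 :=
    lintegral_mono fun s => lintegral_mono fun t => hp s t
  have e1 : ∫⁻ s, ∫⁻ t, (F s * G t + F t * G s) ∂g1 ∂g1 =
      2 * ((∫⁻ t, F t ∂g1) * (∫⁻ t, G t ∂g1)) := by
    have : ∀ s, ∫⁻ t, (F s * G t + F t * G s) ∂g1 =
        F s * (∫⁻ t, G t ∂g1) + (∫⁻ t, F t ∂g1) * G s := by
      intro s
      rw [lintegral_add_left (hG.meas.const_mul _), lintegral_const_mul _ hG.meas,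
        lintegral_mul_const _ hF.meas]
    simp only [this]
    rw [lintegral_add_left (hF.meas.mul_const _), lintegral_mul_const _ hF.meas,
      lintegral_const_mul _ hG.meas]
    ring
  have e2 : ∫⁻ s, ∫⁻ t, (F s * G s + F t * G t) ∂g1 ∂g1 = 2 * ∫⁻ t, F t * G t ∂g1 := by
    have : ∀ s, ∫⁻ t, (F s * G s + F t * G t) ∂g1 = F s * G s + ∫⁻ t, F t * G t ∂g1 := by
      intro s
      rw [lintegral_add_left measurable_const, lintegral_const]
      simp
    simp only [this]
    have hm : Measurable (fun t => F t * G t) := hF.meas.mul hG.meas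
    rw [lintegral_add_left hm, lintegral_const]
    simp only [measure_univ, mul_one]
    ring
  rw [e1, e2] at h1
  exact (ENNReal.mul_le_mul_iff_right (by norm_num) (by norm_num)).1 h1

/-- the Sidak inequality -/
theorem sidak {n : ℕ} {ι : Type*} (s : Finset ι) (f : ι → ℝ → ℝ≥0∞) (φ : ι → E n)
    (hf : ∀ i ∈ s, LC (f i)) (hφ : ∀ i ∈ s, ‖φ i‖ = 1) :
    ∏ i ∈ s, ∫⁻ t, f i t ∂g1 ≤ ∫⁻ w, ∏ i ∈ s, f i ⟪w, φ i⟫ ∂(gm n) := by
  classical
  induction s using Finset.induction_on with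
  | empty => simp
  | insert a s ha ih =>
    have hfa := hf a (Finset.mem_insert_self a s)
    have hφa := hφ a (Finset.mem_insert_self a s)
    have ih' := ih (fun i hi => hf i (Finset.mem_insert_of_mem hi))
      (fun i hi => hφ i (Finset.mem_insert_of_mem hi))
    set g : E n → ℝ≥0∞ := fun w => ∏ i ∈ s, f i ⟪w, φ i⟫ with hg
    have hgLC : LC g := LC.prod s (fun i w => f i ⟪w, φ i⟫)
      (fun i hi => (hf i (Finset.mem_insert_of_mem hi)).comp_inner (φ i))
    have hG := hgLC.sec (φ a)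
    have h1 := assoc hfa hG
    rw [resample n (φ a) hφa g hgLC.meas] at h1
    rw [Finset.prod_insert ha]
    simp only [Finset.prod_insert ha]
    calc (∫⁻ t, f a t ∂g1) * ∏ i ∈ s, ∫⁻ t, f i t ∂g1
        ≤ (∫⁻ t, f a t ∂g1) * ∫⁻ w, g w ∂(gm n) := mul_le_mul' le_rfl ih'
      _ ≤ ∫⁻ t, f a t * ∫⁻ w, g (w + (t - ⟪w, φ a⟫) • φ a) ∂(gm n) ∂g1 := h1
      _ = ∫⁻ w, f a ⟪w, φ a⟫ * g w ∂(gm n) := by
        rw [← resample n (φ a) hφa (fun w => f a ⟪w, φ a⟫ * g w)
          ((hfa.comp_inner (φ a)).meas.mul hgLC.meas)]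
        refine lintegral_congr fun t => ?_
        have hm : Measurable (fun w : E n => g (w + (t - ⟪w, φ a⟫) • φ a)) :=
          hgLC.meas.comp (by fun_prop)
        rw [← lintegral_const_mul _ hm]
        refine lintegral_congr fun w => ?_
        have e : ⟪w + (t - ⟪w, φ a⟫) • φ a, φ a⟫ = t := by
          rw [inner_add_left, inner_smul_left, real_inner_self_eq_norm_sq, hφa]
          simp
        simp only [e]

end Pool.Agent.TH84.HC
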