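import Pool.Agent.TH84.HC.Key

/-!
# Gaussian tail, and the choice of few directions hitting finitely many events
-/

set_option autoImplicit false

open MeasureTheory ProbabilityTheory
open scoped RealInnerProductSpace ENNReal

namespace Pool.Agent.TH84.HC

open Pool.Agent.PZ871 (E gm)

theorem expmom (n : ℕ) :
    ∫⁻ y, ENNReal.ofReal (Real.exp (‖y‖ ^ 2 / 4)) ∂(gm n) = ENNReal.ofReal (2 ^ ((n : ℝ) / 2)) := by
  rw [glint n _ (by fun_prop)]
  have h1 : ∫ v : E n, Real.exp (-(1/4) * ‖v‖ ^ 2) = (Real.pi / (1/4)) ^ ((n : ℝ) / 2) := by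
    have := GaussianFourier.integral_rexp_neg_mul_sq_norm (V := E n) (b := 1/4) (by norm_num)
    rw [this]
    congr 2
    simp
  have hi : Integrable (fun v : E n => Real.exp (-(1/4) * ‖v‖ ^ 2)) := by
    by_contra hc
    rw [integral_undef hc] at h1
    have : (0:ℝ) < (Real.pi / (1/4)) ^ ((n : ℝ) / 2) := by positivity
    linarith
  have e : ∀ x : E n, ENNReal.ofReal ((2 * Real.pi) ^ (-(n:ℝ)/2) * Real.exp (-‖x‖^2/2)) *
      ENNReal.ofReal (Real.exp (‖x‖ ^ 2 / 4)) =
      ENNReal.ofReal ((2 * Real.pi) ^ (-(n:ℝ)/2) * Real.exp (-(1/4) * ‖x‖ ^ 2)) := by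
    intro x
    rw [← ENNReal.ofReal_mul (by positivity), mul_assoc, ← Real.exp_add]
    congr 3
    ring
  simp only [e]
  rw [← ofReal_integral_eq_lintegral_ofReal (hi.const_mul _)
    (Filter.Eventually.of_forall fun x => by positivity), integral_const_mul, h1]
  congr 1
  have e2 : Real.pi / (1/4) = (2 * Real.pi) * 2 := by ring
  rw [e2, Real.mul_rpow (x := 2 * Real.pi) (y := 2) (by positivity) (by norm_num), ← mul_assoc,
    ← Real.rpow_add (by positivity)]
  have e3 : -(n:ℝ)/2 + (n:ℝ)/2 = 0 := by ring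
  rw [e3, Real.rpow_zero, one_mul]

theorem tail (n : ℕ) (r : ℝ) (hr : 0 ≤ r) :
    (gm n).real {y | r ≤ ‖y‖} ≤ 2 ^ ((n : ℝ) / 2) * Real.exp (-(r ^ 2 / 4)) := by
  have h1 := mul_meas_ge_le_lintegral (μ := gm n)
    (f := fun y : E n => ENNReal.ofReal (Real.exp (‖y‖ ^ 2 / 4))) (by fun_prop)
    (ENNReal.ofReal (Real.exp (r ^ 2 / 4)))
  rw [expmom] at h1
  have h2 : {y : E n | r ≤ ‖y‖} ⊆ {x : E n | ENNReal.ofReal (Real.exp (r ^ 2 / 4)) ≤
      ENNReal.ofReal (Real.exp (‖x‖ ^ 2 / 4))} := by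
    intro y hy
    have hy' : r ≤ ‖y‖ := hy
    apply ENNReal.ofReal_le_ofReal
    apply Real.exp_le_exp.2
    have := pow_le_pow_left₀ hr hy' 2
    linarith
  have h3 : ENNReal.ofReal (Real.exp (r ^ 2 / 4)) * (gm n) {y | r ≤ ‖y‖} ≤
      ENNReal.ofReal (2 ^ ((n : ℝ) / 2)) :=
    (mul_le_mul' le_rfl (measure_mono h2)).trans h1
  have h4 : (gm n) {y | r ≤ ‖y‖} = ENNReal.ofReal ((gm n).real {y | r ≤ ‖y‖}) := by
    rw [Measure.real, ENNReal.ofReal_toReal (measure_ne_top _ _)]
  rw [h4, ← ENNReal.ofReal_mul (Real.exp_pos _).le,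
    ENNReal.ofReal_le_ofReal_iff (by positivity)] at h3
  have h5 : (gm n).real {y | r ≤ ‖y‖} =
      (Real.exp (r ^ 2 / 4) * (gm n).real {y | r ≤ ‖y‖}) * Real.exp (-(r ^ 2 / 4)) := by
    rw [mul_comm (Real.exp (r ^ 2 / 4)), mul_assoc, ← Real.exp_add]
    simp
  rw [h5]
  exact mul_le_mul_of_nonneg_right h3 (Real.exp_pos _).le

/-- a few points hit all of finitely many events of probability at least `p`: greedy choice -/
theorem greedy {Ω : Type*} [MeasurableSpace Ω] (μ : Measure Ω) [IsProbabilityMeasure μ]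
    {ι : Type} [Fintype ι] [DecidableEq Ω] (C : ι → Set Ω) (hC : ∀ i, MeasurableSet (C i)) (p : ℝ)
    (hp : ∀ i, p ≤ μ.real (C i)) (hp1 : p ≤ 1) (M : ℕ) :
    ∃ (U : Finset Ω) (B : Finset ι), U.card ≤ M ∧ (B.card : ℝ) ≤ Fintype.card ι * (1 - p) ^ M ∧
      ∀ i, i ∉ B → ∃ u ∈ U, u ∈ C i := by
  classical
  induction M with
  | zero =>
    refine ⟨∅, Finset.univ, by simp, by simp, fun i hi => absurd (Finset.mem_univ i) hi⟩
  | succ M ih =>
    obtain ⟨U, B, hU, hB, hh⟩ := ih
    -- the expected number of hit elements of `B`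
    have h1 : ∫ y, (∑ i ∈ B, (C i).indicator (fun _ => (1:ℝ)) y) ∂μ = ∑ i ∈ B, μ.real (C i) := by
      rw [integral_finsetSum _ (fun i _ => (integrable_const (1:ℝ)).indicator (hC i))]
      refine Finset.sum_congr rfl fun i _ => ?_
      rw [integral_indicator (hC i)]
      simp
    have hint : Integrable (fun y => ∑ i ∈ B, (C i).indicator (fun _ => (1:ℝ)) y) μ :=
      integrable_finsetSum _ fun i _ => (integrable_const (1:ℝ)).indicator (hC i)
    obtain ⟨y, hy⟩ := exists_integral_le hint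
    rw [h1] at hy
    have h2 : (B.card : ℝ) * p ≤ ∑ i ∈ B, μ.real (C i) := by
      rw [← nsmul_eq_mul]
      exact Finset.card_nsmul_le_sum _ _ _ fun i _ => hp i
    have h3 : ∑ i ∈ B, (C i).indicator (fun _ => (1:ℝ)) y = ((B.filter fun i => y ∈ C i).card : ℝ) := by
      rw [Finset.card_filter]
      push_cast
      refine Finset.sum_congr rfl fun i _ => ?_
      simp [Set.indicator_apply]
    refine ⟨insert y U, B.filter fun i => y ∉ C i, (Finset.card_insert_le _ _).trans (by omega),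
      ?_, ?_⟩
    · have h4 : ((B.filter fun i => y ∈ C i).card : ℝ) + ((B.filter fun i => y ∉ C i).card : ℝ) =
          B.card := by
        exact_mod_cast Finset.card_filter_add_card_filter_not (s := B) (fun i => y ∈ C i)
      rw [h3] at hy
      calc ((B.filter fun i => y ∉ C i).card : ℝ) ≤ B.card * (1 - p) := by linarith
        _ ≤ (Fintype.card ι * (1 - p) ^ M) * (1 - p) :=
            mul_le_mul_of_nonneg_right hB (by linarith)
        _ = _ := by rw [pow_succ]; ring
    · intro i hi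
      by_cases hiB : i ∈ B
      · have : y ∈ C i := by
          by_contra hc
          exact hi (Finset.mem_filter.2 ⟨hiB, hc⟩)
        exact ⟨y, Finset.mem_insert_self _ _, this⟩
      · obtain ⟨u, hu, hu2⟩ := hh i hiB
        exact ⟨u, Finset.mem_insert_of_mem hu, hu2⟩

/-- the selection lemma -/
theorem select {Ω : Type*} [MeasurableSpace Ω] (μ : Measure Ω) [IsProbabilityMeasure μ]
    {ι : Type} [Fintype ι] (C : ι → Set Ω) (hC : ∀ i, MeasurableSet (C i)) (p F : ℝ)
    (hp0 : 0 < p) (hp : ∀ i, p ≤ μ.real (C i)) (hp1 : p ≤ 1) (hF : 1 ≤ F)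
    (hcard : (Fintype.card ι : ℝ) ≤ F) :
    ∃ U : Finset Ω, (U.card : ℝ) ≤ 1 + Real.log F / p ∧ ∀ i, ∃ u ∈ U, u ∈ C i := by
  classical
  set M : ℕ := ⌊Real.log F / p⌋₊ + 1 with hM
  obtain ⟨U, B, hU, hB, hh⟩ := greedy μ C hC p hp hp1 M
  have hlog : 0 ≤ Real.log F := Real.log_nonneg hF
  have hM1 : Real.log F / p < M := by
    rw [hM]
    push_cast
    exact Nat.lt_floor_add_one _
  have hM2 : (M : ℝ) ≤ 1 + Real.log F / p := by
    rw [hM]
    push_cast
    have := Nat.floor_le (div_nonneg hlog hp0.le)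
    linarith
  have h1 : (1 - p) ^ M ≤ Real.exp (-(p * M)) := by
    have h2 : 1 - p ≤ Real.exp (-p) := by
      have := Real.add_one_le_exp (-p)
      linarith
    calc (1 - p) ^ M ≤ Real.exp (-p) ^ M := pow_le_pow_left₀ (by linarith) h2 M
      _ = Real.exp (-(p * M)) := by
        rw [← Real.exp_nat_mul]
        congr 1
        ring
  have h3 : Real.exp (-(p * M)) < 1 / F := by
    have h4 : Real.log F < p * M := by
      rw [div_lt_iff₀ hp0] at hM1
      linarith
    rw [Real.exp_neg, one_div]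
    apply inv_strictAnti₀ (by linarith)
    rw [← Real.exp_log (show (0:ℝ) < F by linarith)]
    exact Real.exp_lt_exp.2 h4
  have hB0 : (B.card : ℝ) < 1 := by
    calc (B.card : ℝ) ≤ Fintype.card ι * (1 - p) ^ M := hB
      _ ≤ F * Real.exp (-(p * M)) := by
        refine mul_le_mul hcard h1 (pow_nonneg (by linarith) _) (by linarith)
      _ < F * (1 / F) := mul_lt_mul_of_pos_left h3 (by linarith)
      _ = 1 := by field_simp
  have hB1 : B.card = 0 := by
    have : B.card < 1 := by exact_mod_cast hB0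
    omega
  rw [Finset.card_eq_zero] at hB1
  refine ⟨U, le_trans (by exact_mod_cast hU) hM2, fun i => hh i (by simp [hB1])⟩

end Pool.Agent.TH84.HC
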