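import Pool.Agent.TH84.HC.Tail

/-!
# A universal set of directions
-/

set_option autoImplicit false

open MeasureTheory ProbabilityTheory
open scoped RealInnerProductSpace ENNReal

namespace Pool.Agent.TH84.HC

open Pool.Agent.PZ871 (E gm)

theorem coord_bound {d : ℕ} (v : E d) (j : Fin d) : |v j| ≤ ‖v‖ := by
  have h := EuclideanSpace.real_norm_sq_eq v
  have h2 : (v j) ^ 2 ≤ ∑ i, (v i) ^ 2 :=
    Finset.single_le_sum (f := fun i => (v i) ^ 2) (fun i _ => sq_nonneg _) (Finset.mem_univ j)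
  rw [← h] at h2
  exact abs_le_of_sq_le_sq h2 (norm_nonneg _)

theorem norm_close {d : ℕ} (u v : E d) (δ : ℝ) (hδ : 0 ≤ δ) (h : ∀ j, |u j - v j| ≤ δ) :
    ‖u - v‖ ≤ δ * Real.sqrt d := by
  have h1 := EuclideanSpace.real_norm_sq_eq (u - v)
  have h2 : ‖u - v‖ ^ 2 ≤ (δ * Real.sqrt d) ^ 2 := by
    rw [h1, mul_pow, Real.sq_sqrt (Nat.cast_nonneg d)]
    calc ∑ i, ((u - v) i) ^ 2 ≤ ∑ _i : Fin d, δ ^ 2 := by
          refine Finset.sum_le_sum fun i _ => ?_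
          rw [PiLp.sub_apply, ← sq_abs]
          exact pow_le_pow_left₀ (abs_nonneg _) (h i) 2
      _ = δ ^ 2 * d := by simp [Finset.sum_const, mul_comm]
  exact le_of_sq_le_sq h2 (by positivity)

/-- admissible tuples of unit vectors -/
def Adm {d m : ℕ} (R : ℝ) (φ : Fin m → E d) : Prop :=
  (∀ i, ‖φ i‖ = 1) ∧ ∃ w : E d, ‖w‖ ≤ R ∧ ∀ i, 1 ≤ ⟪w, φ i⟫

/-- the event of a tuple -/
def Ev {d m : ℕ} (η r : ℝ) (ψ : Fin m → E d) : Set (E d) :=
  {y | ∀ i, ⟪y, ψ i⟫ < -η} ∩ {y | ‖y‖ < r}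

theorem Ev_meas {d m : ℕ} (η r : ℝ) (ψ : Fin m → E d) : MeasurableSet (Ev η r ψ) :=
  (cone_meas ψ η).inter (measurableSet_lt (by fun_prop) (by fun_prop))

theorem Ev_prob {d m : ℕ} (R : ℝ) (hR : 1 ≤ R) {u : ℝ} (hu : 0 ≤ u) (ψ : Fin m → E d)
    (hψ : Adm R ψ) (r : ℝ) (hr : 0 ≤ r)
    (hr2 : 4 * ((d : ℝ) + m + su u ^ 2 * R ^ 2 + 3) ≤ r ^ 2) :
    Real.exp (-(su u ^ 2 * R ^ 2 / 2)) * qu u ^ m / 8 ≤
      (gm d).real (Ev (1 / ((1 + su u) * R ^ 2)) r ψ) := by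
  obtain ⟨h1, w, hw, h2⟩ := hψ
  have hk := keyUR hu ψ h1 w h2 R hR hw
  rw [Fintype.card_fin] at hk
  have ht := tail d r hr
  have hsub : {y : E d | ∀ i, ⟪y, ψ i⟫ < -(1 / ((1 + su u) * R ^ 2))} ⊆
      Ev (1 / ((1 + su u) * R ^ 2)) r ψ ∪ {y | r ≤ ‖y‖} := by
    intro y hy
    by_cases h : ‖y‖ < r
    · exact Or.inl ⟨hy, h⟩
    · exact Or.inr (not_lt.1 h)
  have h3 : (gm d).real {y : E d | ∀ i, ⟪y, ψ i⟫ < -(1 / ((1 + su u) * R ^ 2))} ≤
      (gm d).real (Ev (1 / ((1 + su u) * R ^ 2)) r ψ) + (gm d).real {y | r ≤ ‖y‖} :=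
    (measureReal_mono hsub (measure_ne_top _ _)).trans (measureReal_union_le _ _)
  have hq := qu_pos hu
  have hqh := qu_half hu
  have h4 : 2 ^ ((d : ℝ) / 2) * Real.exp (-(r ^ 2 / 4)) ≤
      Real.exp (-(su u ^ 2 * R ^ 2 / 2)) * qu u ^ m / 8 := by
    have hl2 : Real.log 2 < 0.6931471808 := Real.log_two_lt_d9
    have hl2' : 0 < Real.log 2 := Real.log_pos (by norm_num)
    have e1 : (2:ℝ) ^ ((d : ℝ) / 2) = Real.exp (Real.log 2 * ((d : ℝ) / 2)) := by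
      rw [Real.exp_mul, Real.exp_log (by norm_num)]
    have e2 : Real.exp (-(m * Real.log 2)) ≤ qu u ^ m := by
      have : Real.exp (-(m * Real.log 2)) = (1/2) ^ m := by
        rw [show -((m:ℝ) * Real.log 2) = m * (-Real.log 2) by ring, Real.exp_nat_mul,
          Real.exp_neg, Real.exp_log (by norm_num), one_div]
      rw [this]
      exact pow_le_pow_left₀ (by norm_num) hqh m
    have e3 : (8:ℝ) = Real.exp (3 * Real.log 2) := by
      rw [mul_comm, Real.exp_mul, Real.exp_log (by norm_num)]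
      norm_num
    have e4 : 2 ^ ((d : ℝ) / 2) * Real.exp (-(r ^ 2 / 4)) ≤
        Real.exp (-(su u ^ 2 * R ^ 2 / 2)) * Real.exp (-(m * Real.log 2)) / 8 := by
      rw [e1, e3, ← Real.exp_add, ← Real.exp_add, ← Real.exp_sub]
      apply Real.exp_le_exp.2
      have hm0 : (0:ℝ) ≤ m := Nat.cast_nonneg m
      have hd0 : (0:ℝ) ≤ d := Nat.cast_nonneg d
      have a1 : Real.log 2 * ((d : ℝ) / 2) ≤ d := by nlinarith
      have a2 : (m : ℝ) * Real.log 2 ≤ m := by nlinarith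
      have a3 : 0 ≤ su u ^ 2 * R ^ 2 := by positivity
      linarith
    refine e4.trans ?_
    apply div_le_div_of_nonneg_right _ (by norm_num)
    exact mul_le_mul_of_nonneg_left e2 (Real.exp_pos _).le
  linarith

theorem card_idx (m d L : ℕ) :
    (Fintype.card (Fin m → Fin d → ↥(Finset.Icc (-(L:ℤ)) (L:ℤ))) : ℝ) =
      ((2 * L + 1 : ℝ)) ^ (d * m) := by
  rw [Fintype.card_fun, Fintype.card_fun, Fintype.card_coe, Int.card_Icc, Fintype.card_fin,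
    Fintype.card_fin, ← pow_mul]
  have : ((L:ℤ) + 1 - -(L:ℤ)).toNat = 2 * L + 1 := by omega
  rw [this]
  push_cast
  ring

theorem adm_single {d : ℕ} (hd : 1 ≤ d) (m : ℕ) {R : ℝ} (hR : 1 ≤ R) :
    Adm R (fun _ : Fin m => (EuclideanSpace.single (⟨0, hd⟩ : Fin d) (1:ℝ) : E d)) := by
  refine ⟨fun i => by simp, EuclideanSpace.single (⟨0, hd⟩ : Fin d) (1:ℝ), by simpa using hR,
    fun i => ?_⟩
  rw [real_inner_self_eq_norm_sq]
  simp

theorem universalU (d m : ℕ) (hd : 1 ≤ d) (R : ℝ) (hR : 1 ≤ R) {u : ℝ} (hu : 0 ≤ u) :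
    ∃ U : Finset (E d),
      (U.card : ℝ) ≤ 1 + 8 * m * d * (Real.exp (su u ^ 2 * R ^ 2 / 2) / qu u ^ m) *
        Real.log (4 * (1 + su u) * R ^ 2 * (d + m + su u ^ 2 * R ^ 2 + 4)) ∧
      ∀ φ : Fin m → E d, Adm R φ → ∃ u ∈ U, ∀ i, ⟪u, φ i⟫ < 0 := by
  classical
  have hR0 : 0 < R := by linarith
  have hR2 : 1 ≤ R ^ 2 := by nlinarith
  have hm0 : (0:ℝ) ≤ m := Nat.cast_nonneg m
  have hd0 : (1:ℝ) ≤ d := by exact_mod_cast hd
  have hs := su_pos hu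
  have hqu := qu_pos hu
  set s : ℝ := su u with hsd
  set q : ℝ := (d : ℝ) + m + s ^ 2 * R ^ 2 + 3 with hq
  have hs2 : 0 ≤ s ^ 2 * R ^ 2 := by positivity
  have hq0 : 0 < q := by positivity
  set r : ℝ := 2 * Real.sqrt q with hr
  have hr0 : 0 < r := by positivity
  have hr2 : r ^ 2 = 4 * q := by
    rw [hr, mul_pow, Real.sq_sqrt hq0.le]
    norm_num
  set κ : ℝ := (1 + s) * R ^ 2 with hκ
  have hκ1 : 1 ≤ κ := by rw [hκ]; nlinarith
  have hκ0 : 0 < κ := by linarith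
  set L : ℕ := ⌈κ * r * Real.sqrt d⌉₊ with hL
  have hL1 : κ * r * Real.sqrt d ≤ L := Nat.le_ceil _
  have hx0 : 0 < κ * r * Real.sqrt d := by positivity
  have hL0 : (0:ℝ) < L := lt_of_lt_of_le hx0 hL1
  have hL2 : (L : ℝ) < κ * r * Real.sqrt d + 1 := Nat.ceil_lt_add_one hx0.le
  have hrd : r * Real.sqrt d ≤ 2 * q := by
    have h1 : Real.sqrt d ≤ Real.sqrt q := Real.sqrt_le_sqrt (by rw [hq]; linarith)
    calc r * Real.sqrt d ≤ r * Real.sqrt q := mul_le_mul_of_nonneg_left h1 hr0.le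
      _ = 2 * (Real.sqrt q * Real.sqrt q) := by rw [hr]; ring
      _ = 2 * q := by rw [Real.mul_self_sqrt hq0.le]
  have hF1 : (2 * L + 1 : ℝ) ≤ 4 * (1 + s) * R ^ 2 * (d + m + s ^ 2 * R ^ 2 + 4) := by
    have h1 : κ * r * Real.sqrt d ≤ κ * (2 * q) := by
      rw [mul_assoc]
      exact mul_le_mul_of_nonneg_left hrd hκ0.le
    have h2 : (d : ℝ) + m + s ^ 2 * R ^ 2 + 4 = q + 1 := by rw [hq]; ring
    have h3 : 4 * (1 + s) * R ^ 2 * (q + 1) = 4 * κ * (q + 1) := by rw [hκ]; ring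
    rw [h2, h3]
    nlinarith
  -- the events
  let P : (Fin m → Fin d → ↥(Finset.Icc (-(L:ℤ)) (L:ℤ))) → Prop := fun c =>
    ∃ ψ : Fin m → E d, Adm R ψ ∧ ∀ i j, ⌊(L:ℝ) * ψ i j⌋ = (c i j : ℤ)
  let C : (Fin m → Fin d → ↥(Finset.Icc (-(L:ℤ)) (L:ℤ))) → Set (E d) := fun c =>
    if h : P c then Ev (1 / κ) r h.choose else Set.univ
  have hCm : ∀ c, MeasurableSet (C c) := by
    intro c
    by_cases h : P c
    · simp only [C, dif_pos h]
      exact Ev_meas _ _ _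
    · simp only [C, dif_neg h]
      exact MeasurableSet.univ
  set p0 : ℝ := Real.exp (-(s ^ 2 * R ^ 2 / 2)) * qu u ^ m with hp0
  have hp0' : 0 < p0 := by rw [hp0]; positivity
  have hEv : ∀ ψ : Fin m → E d, Adm R ψ → p0 / 8 ≤ (gm d).real (Ev (1 / κ) r ψ) := by
    intro ψ hψ
    exact Ev_prob R hR hu ψ hψ r hr0.le (by rw [hr2])
  have hp1 : p0 / 8 ≤ 1 := (hEv _ (adm_single hd m hR)).trans measureReal_le_one
  have hCp : ∀ c, p0 / 8 ≤ (gm d).real (C c) := by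
    intro c
    by_cases h : P c
    · simp only [C, dif_pos h]
      exact hEv _ h.choose_spec.1
    · simp only [C, dif_neg h]
      rw [probReal_univ]
      exact hp1
  have hFge : (1:ℝ) ≤ (2 * L + 1 : ℝ) ^ (d * m) := one_le_pow₀ (by linarith)
  obtain ⟨U, hU, hsel⟩ := select (gm d) C hCm (p0 / 8) ((2 * L + 1 : ℝ) ^ (d * m)) (by positivity)
    hCp hp1 hFge (card_idx m d L).le
  refine ⟨U, hU.trans ?_, ?_⟩
  · rw [Real.log_pow]
    have h1 : Real.log (2 * L + 1) ≤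
        Real.log (4 * (1 + s) * R ^ 2 * (d + m + s ^ 2 * R ^ 2 + 4)) :=
      Real.log_le_log (by positivity) hF1
    have h2 : (1:ℝ) / p0 = Real.exp (s ^ 2 * R ^ 2 / 2) / qu u ^ m := by
      rw [hp0, Real.exp_neg]
      field_simp
    have h3 : ((d * m : ℕ) : ℝ) * Real.log (2 * L + 1) / (p0 / 8) =
        8 * m * d * (1 / p0) * Real.log (2 * L + 1) := by
      push_cast
      field_simp
    rw [h3, h2]
    have h4 : 0 ≤ 8 * (m:ℝ) * d * (Real.exp (s ^ 2 * R ^ 2 / 2) / qu u ^ m) := by positivity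
    have h5 := mul_le_mul_of_nonneg_left h1 h4
    linarith
  · intro φ hφ
    have hcode : ∀ i j, ⌊(L:ℝ) * φ i j⌋ ∈ Finset.Icc (-(L:ℤ)) (L:ℤ) := by
      intro i j
      have h1 := coord_bound (φ i) j
      rw [hφ.1 i, abs_le] at h1
      rw [Finset.mem_Icc]
      constructor
      · rw [Int.le_floor]
        push_cast
        nlinarith [h1.1]
      · have h2 : (⌊(L:ℝ) * φ i j⌋ : ℝ) ≤ (L:ℝ) := (Int.floor_le _).trans (by nlinarith [h1.2])
        exact_mod_cast h2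
    let c : Fin m → Fin d → ↥(Finset.Icc (-(L:ℤ)) (L:ℤ)) := fun i j => ⟨_, hcode i j⟩
    have hc : P c := ⟨φ, hφ, fun i j => rfl⟩
    obtain ⟨y, hy, hyC⟩ := hsel c
    simp only [C, dif_pos hc] at hyC
    have hψ := hc.choose_spec
    set ψ := hc.choose with hψd
    refine ⟨y, hy, fun i => ?_⟩
    have h1 : ⟪y, ψ i⟫ < -(1 / κ) := hyC.1 i
    have h2 : ‖y‖ < r := hyC.2
    have h3 : ‖φ i - ψ i‖ ≤ 1 / L * Real.sqrt d := by
      refine norm_close _ _ _ (by positivity) fun j => ?_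
      have e : ⌊(L:ℝ) * ψ i j⌋ = ⌊(L:ℝ) * φ i j⌋ := hψ.2 i j
      have h4 := Int.abs_sub_lt_one_of_floor_eq_floor e
      rw [← mul_sub, abs_mul, abs_of_pos hL0] at h4
      rw [abs_sub_comm, le_div_iff₀ hL0]
      linarith
    have h5 : ⟪y, φ i⟫ = ⟪y, ψ i⟫ + ⟪y, φ i - ψ i⟫ := by
      rw [inner_sub_right]
      ring
    have h6 : ⟪y, φ i - ψ i⟫ ≤ r * (1 / L * Real.sqrt d) :=
      (real_inner_le_norm _ _).trans
        (mul_le_mul h2.le h3 (norm_nonneg _) hr0.le)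
    have h7 : r * (1 / L * Real.sqrt d) ≤ 1 / κ := by
      rw [le_div_iff₀ hκ0]
      have : r * (1 / L * Real.sqrt d) * κ = (κ * r * Real.sqrt d) / L := by
        field_simp
      rw [this, div_le_one hL0]
      exact hL1
    rw [h5]
    linarith

end Pool.Agent.TH84.HC
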